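import Pool.Agent.Helper97.Dyn.Ber2
import Mathlib

/-!
Finite-state jump processes given by finitely many events (rate `r j`, map `φ j`): generator,
Euler step, contraction kernels, comparison of iterates.
-/

open Finset Filter Topology

set_option linter.unusedSectionVars false

namespace Pool.Agent.Helper97.Dyn

variable {S J : Type*} [Fintype J]

/-- generator -/
def gen (r : J → ℝ) (φ : J → S → S) (f : S → ℝ) (s : S) : ℝ := ∑ j, r j * (f (φ j s) - f s)

/-- Euler step -/
def stp (r : J → ℝ) (φ : J → S → S) (h : ℝ) (f : S → ℝ) (s : S) : ℝ := f s + h * gen r φ f s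

lemma stp_eq (r : J → ℝ) (φ : J → S → S) (h : ℝ) (f : S → ℝ) (s : S) :
    stp r φ h f s = (1 - (∑ j, r j) * h) * f s + h * ∑ j, r j * f (φ j s) := by
  unfold stp gen
  simp only [mul_sub, sum_sub_distrib]
  rw [← sum_mul]
  ring

/-- contraction kernels -/
structure Ctr (P : (S → ℝ) → S → ℝ) : Prop where
  zero : P (fun _ => 0) = fun _ => 0
  ctr : ∀ (f g : S → ℝ) (B : ℝ), (∀ s, |f s - g s| ≤ B) → ∀ s, |P f s - P g s| ≤ B

lemma Ctr.iter {P : (S → ℝ) → S → ℝ} (hP : Ctr P) (n : ℕ) : Ctr (P^[n]) := by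
  induction n with
  | zero => exact ⟨rfl, fun f g B h s => h s⟩
  | succ n ih =>
    refine ⟨?_, fun f g B h s => ?_⟩
    · rw [Function.iterate_succ_apply, hP.zero, ih.zero]
    · rw [Function.iterate_succ_apply, Function.iterate_succ_apply]
      exact ih.ctr _ _ B (hP.ctr f g B h) s

lemma Ctr.bdd {P : (S → ℝ) → S → ℝ} (hP : Ctr P) {f : S → ℝ} {B : ℝ} (hf : ∀ s, |f s| ≤ B)
    (s : S) : |P f s| ≤ B := by
  have := hP.ctr f (fun _ => 0) B (fun s => by simpa using hf s) s
  rw [hP.zero] at this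
  simpa using this

/-- nearby kernels have nearby iterates -/
lemma Ctr.compare {P Q : (S → ℝ) → S → ℝ} (hP : Ctr P) (hQ : Ctr Q) {B c : ℝ}
    (hPQ : ∀ f : S → ℝ, (∀ s, |f s| ≤ B) → ∀ s, |P f s - Q f s| ≤ c) {f : S → ℝ}
    (hf : ∀ s, |f s| ≤ B) : ∀ (n : ℕ) (s : S), |P^[n] f s - Q^[n] f s| ≤ n * c
  | 0, s => by simp
  | n + 1, s => by
    have ih := Ctr.compare hP hQ hPQ hf n
    rw [Function.iterate_succ_apply', Function.iterate_succ_apply']
    have h1 := hP.ctr _ _ _ ih s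
    have h2 := hPQ (Q^[n] f) (fun s => (hQ.iter n).bdd hf s) s
    calc |P (P^[n] f) s - Q (Q^[n] f) s|
        = |(P (P^[n] f) s - P (Q^[n] f) s) + (P (Q^[n] f) s - Q (Q^[n] f) s)| := by ring_nf
      _ ≤ n * c + c := (abs_add_le _ _).trans (add_le_add h1 h2)
      _ = ((n + 1 : ℕ) : ℝ) * c := by push_cast; ring

/-- kernels `f ↦ E f (F s ω)` -/
noncomputable def rk {E : Type*} [Fintype E] [DecidableEq E] (p : E → ℝ)
    (F : S → (E → Bool) → S) (f : S → ℝ) (s : S) : ℝ := Ex p fun ω => f (F s ω)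

lemma rk_ctr {E : Type*} [Fintype E] [DecidableEq E] {p : E → ℝ} (h0 : ∀ e, 0 ≤ p e)
    (h1 : ∀ e, p e ≤ 1) (F : S → (E → Bool) → S) : Ctr (rk p F) := by
  refine ⟨?_, fun f g B h s => ?_⟩
  · funext s; unfold rk; rw [Ex_const]
  · unfold rk
    rw [← Ex_sub, abs_le]
    constructor
    · have : Ex p (fun _ => -B) ≤ Ex p (fun ω => f (F s ω) - g (F s ω)) :=
        Ex_mono h0 h1 fun ω => (abs_le.1 (h _)).1
      rwa [Ex_const] at this
    · have : Ex p (fun ω => f (F s ω) - g (F s ω)) ≤ Ex p (fun _ => B) :=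
        Ex_mono h0 h1 fun ω => (abs_le.1 (h _)).2
      rwa [Ex_const] at this

section Step

variable {r : J → ℝ} {φ : J → S → S} {h : ℝ}

lemma stp_mono (hr : ∀ j, 0 ≤ r j) (h0 : 0 ≤ h) (h1 : (∑ j, r j) * h ≤ 1) {f g : S → ℝ}
    (hfg : ∀ s, f s ≤ g s) (s : S) : stp r φ h f s ≤ stp r φ h g s := by
  rw [stp_eq, stp_eq]
  refine add_le_add (mul_le_mul_of_nonneg_left (hfg s) (by linarith))
    (mul_le_mul_of_nonneg_left (sum_le_sum fun j _ => ?_) h0)
  exact mul_le_mul_of_nonneg_left (hfg _) (hr j)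

lemma stp_ctr (hr : ∀ j, 0 ≤ r j) (h0 : 0 ≤ h) (h1 : (∑ j, r j) * h ≤ 1) :
    Ctr (stp r φ h) := by
  refine ⟨?_, fun f g B hfg s => ?_⟩
  · funext s; simp [stp_eq]
  · have h2 : stp r φ h f s - stp r φ h g s = (1 - (∑ j, r j) * h) * (f s - g s) +
        h * ∑ j, r j * (f (φ j s) - g (φ j s)) := by
      rw [stp_eq, stp_eq]
      simp only [mul_sub, sum_sub_distrib]
      ring
    rw [h2]
    have h3 : |h * ∑ j, r j * (f (φ j s) - g (φ j s))| ≤ (∑ j, r j) * h * B := by
      rw [abs_mul, abs_of_nonneg h0]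
      have : |∑ j, r j * (f (φ j s) - g (φ j s))| ≤ ∑ j, r j * B := by
        refine (abs_sum_le_sum_abs _ _).trans (sum_le_sum fun j _ => ?_)
        rw [abs_mul, abs_of_nonneg (hr j)]
        exact mul_le_mul_of_nonneg_left (hfg _) (hr j)
      rw [← sum_mul] at this
      calc h * |∑ j, r j * (f (φ j s) - g (φ j s))| ≤ h * ((∑ j, r j) * B) :=
            mul_le_mul_of_nonneg_left this h0
        _ = _ := by ring
    have h4 : |(1 - (∑ j, r j) * h) * (f s - g s)| ≤ (1 - (∑ j, r j) * h) * B := by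
      rw [abs_mul, abs_of_nonneg (by linarith)]
      exact mul_le_mul_of_nonneg_left (hfg s) (by linarith)
    calc _ ≤ _ := abs_add_le _ _
      _ ≤ (1 - (∑ j, r j) * h) * B + (∑ j, r j) * h * B := add_le_add h4 h3
      _ = B := by ring

lemma stp_iter_mono (hr : ∀ j, 0 ≤ r j) (h0 : 0 ≤ h) (h1 : (∑ j, r j) * h ≤ 1) {f g : S → ℝ}
    (hfg : ∀ s, f s ≤ g s) : ∀ (n : ℕ) (s : S), (stp r φ h)^[n] f s ≤ (stp r φ h)^[n] g s
  | 0, s => hfg s
  | n + 1, s => by
    rw [Function.iterate_succ_apply', Function.iterate_succ_apply']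
    exact stp_mono hr h0 h1 (stp_iter_mono hr h0 h1 hfg n) s

lemma stp_monotone [Preorder S] (hr : ∀ j, 0 ≤ r j) (h0 : 0 ≤ h) (h1 : (∑ j, r j) * h ≤ 1)
    (hφ : ∀ j, Monotone (φ j)) {f : S → ℝ} (hf : Monotone f) : Monotone (stp r φ h f) := by
  intro s t hst
  rw [stp_eq, stp_eq]
  refine add_le_add (mul_le_mul_of_nonneg_left (hf hst) (by linarith))
    (mul_le_mul_of_nonneg_left (sum_le_sum fun j _ => ?_) h0)
  exact mul_le_mul_of_nonneg_left (hf (hφ j hst)) (hr j)

lemma stp_iter_monotone [Preorder S] (hr : ∀ j, 0 ≤ r j) (h0 : 0 ≤ h)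
    (h1 : (∑ j, r j) * h ≤ 1) (hφ : ∀ j, Monotone (φ j)) {f : S → ℝ} (hf : Monotone f) (n : ℕ) :
    Monotone ((stp r φ h)^[n] f) := by
  induction n with
  | zero => exact hf
  | succ n ih =>
    rw [Function.iterate_succ_apply']
    exact stp_monotone hr h0 h1 hφ ih

end Step

/-- flag kernels are close to Euler steps -/
lemma rk_small [DecidableEq J] {r : J → ℝ} {φ : J → S → S} (hr : ∀ j, 0 ≤ r j)
    {F : S → (J → Bool) → S} (hF0 : ∀ s, F s zer = s) (hF1 : ∀ s j, F s (one1 j) = φ j s)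
    {h : ℝ} (h0 : 0 ≤ h) (h1 : (∑ j, r j) * h ≤ 1) {f : S → ℝ} {B : ℝ} (hf : ∀ s, |f s| ≤ B)
    (s : S) : |rk (fun j => 1 - Real.exp (-(r j * h))) F f s - stp r φ h f s| ≤
      smallC r * B * h ^ 2 := by
  have := Ex_small r hr h0 h1 (f := fun ω => f (F s ω)) (fun ω => hf _)
  simp only [hF0, hF1] at this
  unfold rk stp gen
  rw [← sub_sub]
  exact this

/-- comparison of iterates through an intertwining inequality -/
lemma compare_iter {S' J' : Type*} [Fintype J'] {r : J → ℝ} {φ : J → S → S} {r' : J' → ℝ}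
    {φ' : J' → S' → S'} {h : ℝ} (hr' : ∀ j, 0 ≤ r' j) (h0 : 0 ≤ h)
    (h1' : (∑ j, r' j) * h ≤ 1) (K : (S → ℝ) → S' → ℝ)
    (hK : ∀ f g : S → ℝ, ∀ s, K (fun t => f t + h * g t) s = K f s + h * K g s)
    (M : (S → ℝ) → Prop) (hM : ∀ f, M f → M (stp r φ h f))
    (hcmp : ∀ f, M f → ∀ s, K (gen r φ f) s ≤ gen r' φ' (K f) s) {f : S → ℝ} (hf : M f) :
    ∀ (n : ℕ) (s : S'), K ((stp r φ h)^[n] f) s ≤ (stp r' φ' h)^[n] (K f) s
  | 0, s => le_refl _
  | n + 1, s => by
    have hMn : M ((stp r φ h)^[n] f) := by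
      clear h1' hK hcmp
      induction n with
      | zero => exact hf
      | succ n ih => rw [Function.iterate_succ_apply']; exact hM _ ih
    rw [Function.iterate_succ_apply', Function.iterate_succ_apply']
    have h2 : K (stp r φ h ((stp r φ h)^[n] f)) s ≤ stp r' φ' h (K ((stp r φ h)^[n] f)) s := by
      have h3 := hK ((stp r φ h)^[n] f) (gen r φ ((stp r φ h)^[n] f)) s
      have h4 : stp r φ h ((stp r φ h)^[n] f) =
        fun t => (stp r φ h)^[n] f t + h * gen r φ ((stp r φ h)^[n] f) t := rfl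
      rw [h4, h3]
      unfold stp
      have := mul_le_mul_of_nonneg_left (hcmp _ hMn s) h0
      unfold stp at this
      linarith
    refine h2.trans (stp_mono hr' h0 h1' (fun t => ?_) s)
    exact compare_iter hr' h0 h1' K hK M hM hcmp hf n t

/-- comparison of iterates, other direction -/
lemma compare_iter' {S' J' : Type*} [Fintype J'] {r : J → ℝ} {φ : J → S → S} {r' : J' → ℝ}
    {φ' : J' → S' → S'} {h : ℝ} (hr' : ∀ j, 0 ≤ r' j) (h0 : 0 ≤ h)
    (h1' : (∑ j, r' j) * h ≤ 1) (K : (S → ℝ) → S' → ℝ)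
    (hK : ∀ f g : S → ℝ, ∀ s, K (fun t => f t + h * g t) s = K f s + h * K g s)
    (M : (S → ℝ) → Prop) (hM : ∀ f, M f → M (stp r φ h f))
    (hcmp : ∀ f, M f → ∀ s, gen r' φ' (K f) s ≤ K (gen r φ f) s) {f : S → ℝ} (hf : M f) :
    ∀ (n : ℕ) (s : S'), (stp r' φ' h)^[n] (K f) s ≤ K ((stp r φ h)^[n] f) s
  | 0, s => le_refl _
  | n + 1, s => by
    have hMn : M ((stp r φ h)^[n] f) := by
      clear h1' hK hcmp
      induction n with
      | zero => exact hf
      | succ n ih => rw [Function.iterate_succ_apply']; exact hM _ ih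
    rw [Function.iterate_succ_apply', Function.iterate_succ_apply']
    have h2 : stp r' φ' h (K ((stp r φ h)^[n] f)) s ≤ K (stp r φ h ((stp r φ h)^[n] f)) s := by
      have h3 := hK ((stp r φ h)^[n] f) (gen r φ ((stp r φ h)^[n] f)) s
      have h4 : stp r φ h ((stp r φ h)^[n] f) =
        fun t => (stp r φ h)^[n] f t + h * gen r φ ((stp r φ h)^[n] f) t := rfl
      rw [h4, h3]
      unfold stp
      have := mul_le_mul_of_nonneg_left (hcmp _ hMn s) h0
      unfold stp at this
      linarith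
    refine le_trans (stp_mono hr' h0 h1' (fun t => ?_) s) h2
    exact compare_iter' hr' h0 h1' K hK M hM hcmp hf n t

/-- Lyapunov functions bound the occupation of a function -/
lemma lyap_iter {r : J → ℝ} {φ : J → S → S} {h : ℝ} (hr : ∀ j, 0 ≤ r j) (h0 : 0 ≤ h)
    (h1 : (∑ j, r j) * h ≤ 1) {V f : S → ℝ} (hV : ∀ s, 0 ≤ V s)
    (hL : ∀ s, gen r φ V s ≤ - f s) (n : ℕ) (s : S) :
    h * ∑ k ∈ range n, (stp r φ h)^[k] f s ≤ V s := by
  have key : ∀ n : ℕ, ∀ s, (stp r φ h)^[n] V s + h * ∑ k ∈ range n, (stp r φ h)^[k] f s ≤ V s := by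
    intro n
    induction n with
    | zero => intro s; simp
    | succ n ih =>
      intro s
      rw [sum_range_succ, Function.iterate_succ_apply]
      have h2 : ∀ s, stp r φ h V s ≤ V s - h * f s := by
        intro s
        unfold stp
        have := mul_le_mul_of_nonneg_left (hL s) h0
        linarith
      have h3 : (stp r φ h)^[n] (stp r φ h V) s ≤ (stp r φ h)^[n] (fun s => V s - h * f s) s :=
        stp_iter_mono hr h0 h1 h2 n s
      have h4 : ∀ (n : ℕ) (s : S), (stp r φ h)^[n] (fun s => V s - h * f s) s =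
          (stp r φ h)^[n] V s - h * (stp r φ h)^[n] f s := by
        intro n
        induction n with
        | zero => intro s; rfl
        | succ n ihn =>
          intro s
          rw [Function.iterate_succ_apply', Function.iterate_succ_apply',
            Function.iterate_succ_apply']
          have : (stp r φ h)^[n] (fun s => V s - h * f s) = fun s =>
            (stp r φ h)^[n] V s - h * (stp r φ h)^[n] f s := funext ihn
          rw [this, stp_eq, stp_eq, stp_eq]
          simp only [mul_sub, sum_sub_distrib]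
          have h5 : ∑ x, r x * (h * (stp r φ h)^[n] f (φ x s)) =
            h * ∑ x, r x * (stp r φ h)^[n] f (φ x s) := by
            rw [mul_sum]; exact sum_congr rfl fun x _ => by ring
          rw [h5]
          ring
      rw [h4] at h3
      have := ih s
      linarith
  have h6 : 0 ≤ (stp r φ h)^[n] V s := by
    have := stp_iter_mono (φ := φ) hr h0 h1 hV n s
    have h7 : (stp r φ h)^[n] (fun _ => (0 : ℝ)) s = 0 := by
      rw [((stp_ctr (φ := φ) hr h0 h1).iter n).zero]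
    linarith
  linarith [key n s]

end Pool.Agent.Helper97.Dyn
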