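import Pool.Agent.Helper97.Dyn.Ber
import Mathlib

/-!
The Duminil-Copin and Tassion differential inequality for percolation on a finite directed graph
with independent edges of arbitrary probabilities.
-/

open Finset

set_option linter.unusedSectionVars false

namespace Pool.Agent.Helper97.Dyn

/-- indicator of a proposition -/
noncomputable def ind (P : Prop) : ℝ := open Classical in if P then 1 else 0

lemma ind_pos {P : Prop} (h : P) : ind P = 1 := by simp [ind, h]
lemma ind_neg {P : Prop} (h : ¬ P) : ind P = 0 := by simp [ind, h]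
lemma ind_nonneg (P : Prop) : 0 ≤ ind P := by
  by_cases h : P <;> simp [ind, h]
lemma ind_le_one (P : Prop) : ind P ≤ 1 := by
  by_cases h : P <;> simp [ind, h]
lemma ind_mono {P Q : Prop} (h : P → Q) : ind P ≤ ind Q := by
  by_cases hP : P
  · rw [ind_pos hP, ind_pos (h hP)]
  · rw [ind_neg hP]; exact ind_nonneg Q
lemma ind_congr {P Q : Prop} (h : P ↔ Q) : ind P = ind Q := by rw [propext h]
lemma ind_and (P Q : Prop) : ind (P ∧ Q) = ind P * ind Q := by
  by_cases hP : P <;> by_cases hQ : Q <;> simp [ind, hP, hQ]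
lemma ind_not (P : Prop) : ind (¬ P) = 1 - ind P := by
  by_cases hP : P <;> simp [ind, hP]

lemma rtg_mono {X : Type*} {r s : X → X → Prop} (h : ∀ x y, r x y → s x y) {x y : X}
    (hr : Relation.ReflTransGen r x y) : Relation.ReflTransGen s x y := by
  induction hr with
  | refl => exact Relation.ReflTransGen.refl
  | tail _ hbc ih => exact ih.tail (h _ _ hbc)

section Graph

variable {X E : Type*} [Fintype X] [DecidableEq X] [Fintype E] [DecidableEq E]
variable (src tgt : E → X)

/-- an open edge leads from `x` to `y` -/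
def adj (ω : E → Bool) (x y : X) : Prop := ∃ e, src e = x ∧ tgt e = y ∧ ω e = true

/-- an open path leads from `x` to `y` -/
def reach (ω : E → Bool) (x y : X) : Prop := Relation.ReflTransGen (adj src tgt ω) x y

/-- an open path leads from `x` to `A` -/
def toA (A : Finset X) (ω : E → Bool) (x : X) : Prop := ∃ a ∈ A, reach src tgt ω x a

/-- an open edge inside `S` leads from `x` to `y` -/
def adjIn (S : Finset X) (ω : E → Bool) (x y : X) : Prop := x ∈ S ∧ y ∈ S ∧ adj src tgt ω x y

/-- an open path inside `S` leads from `x` to `y` -/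
def reachIn (S : Finset X) (ω : E → Bool) (x y : X) : Prop :=
  Relation.ReflTransGen (adjIn src tgt S ω) x y

/-- vertices that are not connected to `A` -/
noncomputable def Sset (A : Finset X) (ω : E → Bool) : Finset X :=
  open Classical in univ.filter fun x => ¬ toA src tgt A ω x

lemma mem_Sset {A : Finset X} {ω : E → Bool} {x : X} :
    x ∈ Sset src tgt A ω ↔ ¬ toA src tgt A ω x := by
  classical
  simp [Sset]

lemma toA_of_adj {A : Finset X} {ω : E → Bool} {x y : X} (h : adj src tgt ω x y)
    (hy : toA src tgt A ω y) : toA src tgt A ω x := by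
  obtain ⟨a, ha, hr⟩ := hy
  exact ⟨a, ha, Relation.ReflTransGen.head h hr⟩

lemma toA_of_reach {A : Finset X} {ω : E → Bool} {x y : X} (h : reach src tgt ω x y)
    (hy : toA src tgt A ω y) : toA src tgt A ω x := by
  obtain ⟨a, ha, hr⟩ := hy
  exact ⟨a, ha, h.trans hr⟩

lemma Sset_congr {A S : Finset X} {ω η : E → Bool} (hS : Sset src tgt A ω = S)
    (h : ∀ e, tgt e ∉ S → ω e = η e) : Sset src tgt A η = S := by
  have h1 : ∀ x, toA src tgt A ω x → toA src tgt A η x := by
    rintro x ⟨a, ha, hr⟩
    induction hr using Relation.ReflTransGen.head_induction_on with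
    | refl => exact ⟨a, ha, Relation.ReflTransGen.refl⟩
    | head hxy hya ih =>
      obtain ⟨e, he1, he2, he3⟩ := hxy
      refine toA_of_adj src tgt ⟨e, he1, he2, ?_⟩ ih
      rw [← h e ?_]
      · exact he3
      · rw [he2, ← hS, mem_Sset]
        exact fun hn => hn ⟨a, ha, hya⟩
  have h2 : ∀ x, toA src tgt A η x → toA src tgt A ω x := by
    rintro x ⟨a, ha, hr⟩
    induction hr using Relation.ReflTransGen.head_induction_on with
    | refl => exact ⟨a, ha, Relation.ReflTransGen.refl⟩
    | head hxy hya ih =>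
      obtain ⟨e, he1, he2, he3⟩ := hxy
      refine toA_of_adj src tgt ⟨e, he1, he2, ?_⟩ ih
      rw [h e ?_]
      · exact he3
      · rw [he2, ← hS, mem_Sset]
        exact fun hn => hn ih
  rw [← hS]
  ext x
  rw [mem_Sset, mem_Sset, not_iff_not]
  exact ⟨h2 x, h1 x⟩

lemma reachIn_congr {S : Finset X} {ω η : E → Bool} (h : ∀ e, tgt e ∈ S → ω e = η e) (x y : X) :
    reachIn src tgt S ω x y ↔ reachIn src tgt S η x y := by
  have : adjIn src tgt S ω = adjIn src tgt S η := by
    funext x y
    apply propext
    constructor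
    · rintro ⟨hx, hy, e, he1, he2, he3⟩
      exact ⟨hx, hy, e, he1, he2, by rw [← h e (he2 ▸ hy)]; exact he3⟩
    · rintro ⟨hx, hy, e, he1, he2, he3⟩
      exact ⟨hx, hy, e, he1, he2, by rw [h e (he2 ▸ hy)]; exact he3⟩
  unfold reachIn
  rw [this]

lemma reach_of_reachIn {S : Finset X} {ω : E → Bool} {x y : X}
    (h : reachIn src tgt S ω x y) : reach src tgt ω x y :=
  rtg_mono (fun _ _ h => h.2.2) h

lemma adj_mono {ω η : E → Bool} (h : ω ≤ η) {x y : X} (ha : adj src tgt ω x y) :
    adj src tgt η x y := by
  obtain ⟨e, he1, he2, he3⟩ := ha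
  refine ⟨e, he1, he2, ?_⟩
  have := h e
  rw [he3] at this
  exact top_le_iff.1 this

lemma reach_mono {ω η : E → Bool} (h : ω ≤ η) {x y : X} (ha : reach src tgt ω x y) :
    reach src tgt η x y := rtg_mono (fun _ _ h' => adj_mono src tgt h h') ha

lemma toA_mono {A : Finset X} {ω η : E → Bool} (h : ω ≤ η) {x : X} (ha : toA src tgt A ω x) :
    toA src tgt A η x := by
  obtain ⟨a, ha, hr⟩ := ha
  exact ⟨a, ha, reach_mono src tgt h hr⟩

lemma reachIn_mono {S : Finset X} {ω η : E → Bool} (h : ω ≤ η) {x y : X}
    (ha : reachIn src tgt S ω x y) : reachIn src tgt S η x y :=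
  rtg_mono (fun _ _ h' => ⟨h'.1, h'.2.1, adj_mono src tgt h h'.2.2⟩) ha

/-- connection probability -/
noncomputable def theta (A : Finset X) (o : X) (p : E → ℝ) : ℝ :=
  Ex p fun ω => ind (toA src tgt A ω o)

/-- expected number of exits of `S` -/
noncomputable def Phi (o : X) (S : Finset X) (p : E → ℝ) : ℝ :=
  ∑ e, if src e ∈ S ∧ tgt e ∉ S then
    p e * Ex p (fun ω => ind (reachIn src tgt S ω o (src e))) else 0

lemma Phi_mono {o : X} {S : Finset X} {p q : E → ℝ} (hp0 : ∀ e, 0 ≤ p e) (hq1 : ∀ e, q e ≤ 1)
    (hpq : ∀ e, p e ≤ q e) : Phi src tgt o S p ≤ Phi src tgt o S q := by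
  unfold Phi
  refine sum_le_sum fun e _ => ?_
  split_ifs with h
  · have h1 : Ex p (fun ω => ind (reachIn src tgt S ω o (src e))) ≤
        Ex q (fun ω => ind (reachIn src tgt S ω o (src e))) :=
      Ex_mono_p hp0 hq1 hpq fun ω η hωη => ind_mono (reachIn_mono src tgt hωη)
    exact mul_le_mul (hpq e) h1 (Ex_nonneg hp0 (fun e => (hpq e).trans (hq1 e))
      fun ω => ind_nonneg _) ((hp0 e).trans (hpq e))
  · exact le_refl _

/-- the event whose probability enters the derivative -/
def piv (A : Finset X) (o : X) (e : E) (ω : E → Bool) : Prop :=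
  reach src tgt ω o (src e) ∧ toA src tgt A ω (tgt e) ∧ ¬ toA src tgt A ω o

lemma piv_le {A : Finset X} {o : X} {e : E} {p : E → ℝ} (h0 : ∀ e, 0 ≤ p e)
    (h1 : ∀ e, p e ≤ 1) :
    Ex p (fun ω => ind (piv src tgt A o e ω)) ≤ (1 - p e) *
      Ex p (fun ω => ind (toA src tgt A (upd ω e true) o) -
        ind (toA src tgt A (upd ω e false) o)) := by
  have hi := Ex_indep p {e} (f := fun ω => if ω e = false then (1 : ℝ) else 0)
    (g := fun ω => ind (toA src tgt A (upd ω e true) o) -
        ind (toA src tgt A (upd ω e false) o))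
    (fun ω η h => by simp only [h e (mem_singleton_self e)]) (fun ω η h => by
      have : ∀ b, upd ω e b = upd η e b := by
        intro b
        funext j
        by_cases hj : j = e
        · subst hj; simp [upd_same]
        · rw [upd_ne _ hj, upd_ne _ hj]
          exact h j (by simpa using hj)
      simp only [this])
  have h2 : Ex p (fun ω => if ω e = false then (1 : ℝ) else 0) = 1 - p e := by
    rw [Ex_split p e]
    simp only [upd_same]
    simp [Ex_const]
  rw [h2] at hi
  rw [← hi]
  refine Ex_mono h0 h1 fun ω => ?_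
  have hg0 : 0 ≤ ind (toA src tgt A (upd ω e true) o) - ind (toA src tgt A (upd ω e false) o) := by
    have : ind (toA src tgt A (upd ω e false) o) ≤ ind (toA src tgt A (upd ω e true) o) := by
      refine ind_mono fun h => toA_mono src tgt ?_ h
      intro j
      by_cases hj : j = e
      · subst hj; simp [upd_same]
      · simp [upd_ne _ hj]
    linarith
  by_cases hp : piv src tgt A o e ω
  · have hωe : ω e = false := by
      by_contra hne
      have hne' : ω e = true := by simpa using hne
      exact hp.2.2 (toA_of_reach src tgt hp.1 (toA_of_adj src tgt ⟨e, rfl, rfl, hne'⟩ hp.2.1))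
    have hle : ω ≤ upd ω e true := by
      intro j
      by_cases hj : j = e
      · subst hj; simp [upd_same]
      · simp [upd_ne _ hj]
    have hT : toA src tgt A (upd ω e true) o :=
      toA_of_reach src tgt (reach_mono src tgt hle hp.1)
        (toA_of_adj src tgt ⟨e, rfl, rfl, upd_same _ _ _⟩ (toA_mono src tgt hle hp.2.1))
    have hF : ¬ toA src tgt A (upd ω e false) o := by
      rw [← hωe, upd_self]; exact hp.2.2
    rw [ind_pos hp, ind_pos hT, ind_neg hF, if_pos hωe]
    norm_num
  · rw [ind_neg hp]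
    refine mul_nonneg ?_ hg0
    split_ifs <;> norm_num

lemma sum_ind_Sset (A : Finset X) (ω : E → Bool) (g : Finset X → ℝ) :
    ∑ S : Finset X, ind (Sset src tgt A ω = S) * g S = g (Sset src tgt A ω) := by
  rw [Finset.sum_eq_single (Sset src tgt A ω)]
  · rw [ind_pos rfl, one_mul]
  · intro b _ hb; rw [ind_neg (Ne.symm hb), zero_mul]
  · intro h; exact absurd (mem_univ _) h

/-- the main inequality -/
lemma sum_piv_ge {A : Finset X} {o : X} {p : E → ℝ} (h0 : ∀ e, 0 ≤ p e)
    (h1 : ∀ e, p e ≤ 1) {κ : ℝ}
    (hκ : ∀ S : Finset X, o ∈ S → Disjoint S A → κ ≤ Phi src tgt o S p) :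
    κ * (1 - theta src tgt A o p) ≤
      ∑ e, p e * Ex p (fun ω => ind (piv src tgt A o e ω)) := by
  -- first inequality
  have hA : ∀ e, ∑ S : Finset X, Ex p (fun ω => ind (Sset src tgt A ω = S)) *
      ((if o ∈ S ∧ src e ∈ S ∧ tgt e ∉ S then
        Ex p (fun ω => ind (reachIn src tgt S ω o (src e))) else 0)) ≤
      Ex p (fun ω => ind (piv src tgt A o e ω)) := by
    intro e
    have h2 : ∀ S : Finset X, Ex p (fun ω => ind (Sset src tgt A ω = S)) *
      ((if o ∈ S ∧ src e ∈ S ∧ tgt e ∉ S then
        Ex p (fun ω => ind (reachIn src tgt S ω o (src e))) else 0)) =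
        Ex p (fun ω => ind (Sset src tgt A ω = S) * (if o ∈ S ∧ src e ∈ S ∧ tgt e ∉ S then
        ind (reachIn src tgt S ω o (src e)) else 0)) := by
      intro S
      split_ifs with h
      · have := Ex_indep p (univ.filter fun e => tgt e ∉ S)
          (f := fun ω => ind (Sset src tgt A ω = S))
          (g := fun ω => ind (reachIn src tgt S ω o (src e)))
          (fun ω η hh => ind_congr ⟨fun h' => Sset_congr src tgt h' fun e he => hh e (by simp [he]),
            fun h' => Sset_congr src tgt h' fun e he => (hh e (by simp [he])).symm⟩)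
          (fun ω η hh => ind_congr (reachIn_congr src tgt (fun e he => hh e (by simp [he])) _ _))
        rw [← this]
      · simp [Ex_const]
    rw [sum_congr rfl fun S _ => h2 S, ← Ex_sum]
    refine Ex_mono h0 h1 fun ω => ?_
    rw [sum_ind_Sset src tgt A ω (fun S => if o ∈ S ∧ src e ∈ S ∧ tgt e ∉ S then
        ind (reachIn src tgt S ω o (src e)) else 0)]
    split_ifs with h
    · refine ind_mono fun hr => ⟨reach_of_reachIn src tgt hr, ?_, ?_⟩
      · have := h.2.2
        rw [mem_Sset] at this
        exact not_not.1 this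
      · exact (mem_Sset src tgt).1 h.1
    · exact ind_nonneg _
  have hB : ∑ S : Finset X, Ex p (fun ω => ind (Sset src tgt A ω = S)) *
      (if o ∈ S then Phi src tgt o S p else 0) ≤
      ∑ e, p e * Ex p (fun ω => ind (piv src tgt A o e ω)) := by
    calc _ = ∑ e, p e * ∑ S : Finset X, Ex p (fun ω => ind (Sset src tgt A ω = S)) *
      ((if o ∈ S ∧ src e ∈ S ∧ tgt e ∉ S then
        Ex p (fun ω => ind (reachIn src tgt S ω o (src e))) else 0)) := by
          simp_rw [mul_sum]
          rw [sum_comm]
          refine sum_congr rfl fun S _ => ?_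
          by_cases ho : o ∈ S
          · rw [if_pos ho]
            unfold Phi
            rw [mul_sum]
            refine sum_congr rfl fun e _ => ?_
            by_cases hc : src e ∈ S ∧ tgt e ∉ S
            · rw [if_pos hc, if_pos ⟨ho, hc⟩]; ring
            · rw [if_neg hc, if_neg (fun hh => hc hh.2)]; ring
          · rw [if_neg ho, mul_zero]
            symm
            refine sum_eq_zero fun e _ => ?_
            rw [if_neg (fun hh => ho hh.1)]; ring
      _ ≤ _ := sum_le_sum fun e _ => mul_le_mul_of_nonneg_left (hA e) (h0 e)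
  refine le_trans ?_ hB
  have hC : 1 - theta src tgt A o p = ∑ S : Finset X, Ex p (fun ω => ind (Sset src tgt A ω = S)) *
      (if o ∈ S then 1 else 0) := by
    have h3 : ∀ S : Finset X, Ex p (fun ω => ind (Sset src tgt A ω = S)) *
      (if o ∈ S then 1 else 0) = Ex p (fun ω => ind (Sset src tgt A ω = S) *
        (if o ∈ S then 1 else 0)) := by
      intro S
      split_ifs <;> simp [Ex_const]
    rw [sum_congr rfl fun S _ => h3 S, ← Ex_sum]
    unfold theta
    have h4 : (1 : ℝ) = Ex p (fun _ => 1) := (Ex_one p).symm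
    conv_lhs => rw [h4]
    rw [← Ex_sub]
    refine Ex_congr fun ω => ?_
    rw [sum_ind_Sset src tgt A ω (fun S => if o ∈ S then (1 : ℝ) else 0)]
    by_cases hh : toA src tgt A ω o
    · rw [ind_pos hh, if_neg (by rw [mem_Sset]; exact not_not.2 hh)]; ring
    · rw [ind_neg hh, if_pos (by rw [mem_Sset]; exact hh)]; ring
  rw [hC, mul_sum]
  refine sum_le_sum fun S _ => ?_
  by_cases ho : o ∈ S
  · rw [if_pos ho, if_pos ho, mul_one]
    by_cases hd : Disjoint S A
    · rw [mul_comm]
      exact mul_le_mul_of_nonneg_left (hκ S ho hd) (Ex_nonneg h0 h1 fun ω => ind_nonneg _)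
    · have : Ex p (fun ω => ind (Sset src tgt A ω = S)) = 0 := by
        rw [Finset.not_disjoint_iff] at hd
        obtain ⟨a, haS, haA⟩ := hd
        have h5 : ∀ ω : E → Bool, ind (Sset src tgt A ω = S) = 0 := by
          intro ω
          refine ind_neg fun hS => ?_
          rw [← hS, mem_Sset] at haS
          exact haS ⟨a, haA, Relation.ReflTransGen.refl⟩
        rw [Ex_congr h5, Ex_const]
      rw [this]; simp
  · rw [if_neg ho, if_neg ho]; simp

/-- If all exit numbers are at least `κ` along a curve of parameters then the connection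
probability at the end of the curve is at least `1 - exp (-κ s)`. -/
theorem dct {A : Finset X} {o : X} {p p' : ℝ → E → ℝ} {s1 κ : ℝ} (hs1 : 0 ≤ s1)
    (hd : ∀ s e, HasDerivAt (fun t => p t e) (p' s e) s)
    (h0 : ∀ s e, 0 ≤ p s e) (h1 : ∀ s e, p s e ≤ 1)
    (hp' : ∀ s e, p s e * (1 - p s e) ≤ p' s e)
    (hκ : ∀ s, 0 ≤ s → s ≤ s1 → ∀ S : Finset X, o ∈ S → Disjoint S A →
      κ ≤ Phi src tgt o S (p s)) :
    1 - theta src tgt A o (p s1) ≤ Real.exp (-(κ * s1)) := by
  have hθd : ∀ s, HasDerivAt (fun t => theta src tgt A o (p t))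
      (∑ e, p' s e * Ex (p s) (fun ω => ind (toA src tgt A (upd ω e true) o) -
        ind (toA src tgt A (upd ω e false) o))) s := fun s => Ex_deriv (fun e => hd s e) _
  have hge : ∀ s, 0 ≤ s → s ≤ s1 → κ * (1 - theta src tgt A o (p s)) ≤
      ∑ e, p' s e * Ex (p s) (fun ω => ind (toA src tgt A (upd ω e true) o) -
        ind (toA src tgt A (upd ω e false) o)) := by
    intro s hs hs'
    refine (sum_piv_ge src tgt (h0 s) (h1 s) (hκ s hs hs')).trans (sum_le_sum fun e _ => ?_)
    have hg0 : 0 ≤ Ex (p s) (fun ω => ind (toA src tgt A (upd ω e true) o) -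
        ind (toA src tgt A (upd ω e false) o)) := by
      refine Ex_nonneg (h0 s) (h1 s) fun ω => ?_
      have : ind (toA src tgt A (upd ω e false) o) ≤ ind (toA src tgt A (upd ω e true) o) := by
        refine ind_mono fun h => toA_mono src tgt ?_ h
        intro j
        by_cases hj : j = e
        · subst hj; simp [upd_same]
        · simp [upd_ne _ hj]
      linarith
    calc p s e * Ex (p s) (fun ω => ind (piv src tgt A o e ω))
        ≤ p s e * ((1 - p s e) * Ex (p s) (fun ω => ind (toA src tgt A (upd ω e true) o) -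
        ind (toA src tgt A (upd ω e false) o))) :=
          mul_le_mul_of_nonneg_left (piv_le src tgt (h0 s) (h1 s)) (h0 s e)
      _ = (p s e * (1 - p s e)) * Ex (p s) (fun ω => ind (toA src tgt A (upd ω e true) o) -
        ind (toA src tgt A (upd ω e false) o)) := by ring
      _ ≤ _ := mul_le_mul_of_nonneg_right (hp' s e) hg0
  set D : ℝ → ℝ := fun s => ∑ e, p' s e * Ex (p s) (fun ω =>
    ind (toA src tgt A (upd ω e true) o) - ind (toA src tgt A (upd ω e false) o)) with hD
  have hφ : ∀ s, HasDerivAt (fun t => (1 - theta src tgt A o (p t)) * Real.exp (κ * t))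
      (-D s * Real.exp (κ * s) + (1 - theta src tgt A o (p s)) * (Real.exp (κ * s) * κ)) s := by
    intro s
    have h2 : HasDerivAt (fun t => Real.exp (κ * t)) (Real.exp (κ * s) * κ) s := by
      have := ((hasDerivAt_id s).const_mul κ).exp
      simpa using this
    have h3 := ((hθd s).const_sub 1).mul h2
    exact h3
  have hanti : AntitoneOn (fun t => (1 - theta src tgt A o (p t)) * Real.exp (κ * t))
      (Set.Icc 0 s1) := by
    refine antitoneOn_of_deriv_nonpos (convex_Icc 0 s1)
      (fun s _ => (hφ s).continuousAt.continuousWithinAt)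
      (fun s _ => (hφ s).differentiableAt.differentiableWithinAt) (fun s hs => ?_)
    rw [(hφ s).deriv]
    rw [interior_Icc] at hs
    have := hge s hs.1.le hs.2.le
    have hexp := Real.exp_pos (κ * s)
    nlinarith
  have hfin := hanti (Set.left_mem_Icc.2 hs1) (Set.right_mem_Icc.2 hs1) hs1
  simp only [mul_zero, Real.exp_zero, mul_one] at hfin
  have hθ0 : 0 ≤ theta src tgt A o (p 0) := Ex_nonneg (h0 0) (h1 0) fun ω => ind_nonneg _
  have h5 : (1 - theta src tgt A o (p s1)) * Real.exp (κ * s1) ≤ 1 := by linarith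
  rw [Real.exp_neg, ← one_div, le_div_iff₀ (Real.exp_pos _)]
  exact h5

end Graph

end Pool.Agent.Helper97.Dyn
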