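import Pool.Agent.Helper97.Dyn.Ber2
import Pool.Agent.Helper97.Dyn.Dct
import Mathlib

/-!
Layered directed percolation on `W × {0, ..., N}`: transition operator, runs, and exponential
decay when every vertex has a region with exit number at most one half.
-/

open Finset

set_option linter.unusedSectionVars false

namespace Pool.Agent.Helper97.Dyn

variable {W : Type*} [Fintype W] [DecidableEq W]

/-- one step of the process -/
def nxt (C : Finset W) (η : W × W → Bool) : Finset W :=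
  univ.filter fun y => ∃ x ∈ C, η (x, y) = true

lemma mem_nxt {C : Finset W} {η : W × W → Bool} {y : W} :
    y ∈ nxt C η ↔ ∃ x ∈ C, η (x, y) = true := by simp [nxt]

lemma nxt_empty (η : W × W → Bool) : nxt ∅ η = ∅ := by
  ext y; simp [mem_nxt]

lemma nxt_union (A B : Finset W) (η : W × W → Bool) : nxt (A ∪ B) η = nxt A η ∪ nxt B η := by
  ext y
  simp only [mem_nxt, mem_union]
  constructor
  · rintro ⟨x, hx | hx, h⟩
    · exact Or.inl ⟨x, hx, h⟩
    · exact Or.inr ⟨x, hx, h⟩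
  · rintro (⟨x, hx, h⟩ | ⟨x, hx, h⟩)
    · exact ⟨x, Or.inl hx, h⟩
    · exact ⟨x, Or.inr hx, h⟩

lemma nxt_mono {A B : Finset W} (h : A ⊆ B) (η : W × W → Bool) : nxt A η ⊆ nxt B η := by
  intro y hy
  rw [mem_nxt] at hy ⊢
  obtain ⟨x, hx, he⟩ := hy
  exact ⟨x, h hx, he⟩

/-- transition operator -/
noncomputable def Pop (p : W × W → ℝ) (f : Finset W → ℝ) (C : Finset W) : ℝ :=
  Ex p fun η => f (nxt C η)

/-- subadditive increasing functions of sets -/
structure Sub (f : Finset W → ℝ) : Prop where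
  zero : f ∅ = 0
  mono : ∀ A B, A ⊆ B → f A ≤ f B
  sub : ∀ A B, f (A ∪ B) ≤ f A + f B

lemma Sub.nonneg {f : Finset W → ℝ} (hf : Sub f) (C : Finset W) : 0 ≤ f C := by
  rw [← hf.zero]; exact hf.mono _ _ (empty_subset _)

lemma Sub.le_sum {f : Finset W → ℝ} (hf : Sub f) (C : Finset W) : f C ≤ ∑ x ∈ C, f {x} := by
  induction C using Finset.induction_on with
  | empty => simp [hf.zero]
  | insert x C hx ih =>
    rw [sum_insert hx, insert_eq]
    exact (hf.sub _ _).trans (by linarith)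

lemma Sub.pop {f : Finset W → ℝ} (hf : Sub f) {p : W × W → ℝ} (h0 : ∀ e, 0 ≤ p e)
    (h1 : ∀ e, p e ≤ 1) : Sub (Pop p f) := by
  refine ⟨?_, fun A B h => ?_, fun A B => ?_⟩
  · unfold Pop
    simp [nxt_empty, hf.zero, Ex_const]
  · exact Ex_mono h0 h1 fun η => hf.mono _ _ (nxt_mono h η)
  · unfold Pop
    rw [← Ex_add]
    refine Ex_mono h0 h1 fun η => ?_
    rw [nxt_union]
    exact hf.sub _ _

lemma Sub.iter {f : Finset W → ℝ} (hf : Sub f) {p : W × W → ℝ} (h0 : ∀ e, 0 ≤ p e)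
    (h1 : ∀ e, p e ≤ 1) (n : ℕ) : Sub ((Pop p)^[n] f) := by
  induction n with
  | zero => exact hf
  | succ n ih => rw [Function.iterate_succ_apply']; exact ih.pop h0 h1

lemma sub_card : Sub (fun C : Finset W => (C.card : ℝ)) where
  zero := by simp
  mono A B h := by exact_mod_cast card_le_card h
  sub A B := by exact_mod_cast card_union_le A B

lemma Ex_coord {E : Type*} [Fintype E] [DecidableEq E] (p : E → ℝ) (e : E) :
    Ex p (fun ω => ind (ω e = true)) = p e := by
  rw [Ex_split p e]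
  have h1 : ∀ ω : E → Bool, ind (upd ω e true e = true) = 1 := fun ω => ind_pos (upd_same _ _ _)
  have h2 : ∀ ω : E → Bool, ind (upd ω e false e = true) = 0 := fun ω =>
    ind_neg (by rw [upd_same]; exact Bool.false_ne_true)
  rw [Ex_congr h1, Ex_congr h2, Ex_const, Ex_const]
  ring

/-- decomposition at the exit from `T` -/
lemma pop_exit {f : Finset W → ℝ} (hf : Sub f) {p : W × W → ℝ} (h0 : ∀ e, 0 ≤ p e)
    (h1 : ∀ e, p e ≤ 1) (C T : Finset W) :
    Pop p f C ≤ Ex p (fun η => f (nxt C η ∩ T)) + ∑ x ∈ C, ∑ y ∈ Tᶜ, p (x, y) * f {y} := by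
  have h2 : ∑ x ∈ C, ∑ y ∈ Tᶜ, p (x, y) * f {y} =
      Ex p (fun η => ∑ x ∈ C, ∑ y ∈ Tᶜ, ind (η (x, y) = true) * f {y}) := by
    rw [Ex_sum]
    refine sum_congr rfl fun x _ => ?_
    rw [Ex_sum]
    refine sum_congr rfl fun y _ => ?_
    have : ∀ η : W × W → Bool, ind (η (x, y) = true) * f {y} =
      f {y} * ind (η (x, y) = true) := fun η => mul_comm _ _
    rw [Ex_congr this, Ex_smul, Ex_coord]
    ring
  unfold Pop
  rw [h2, ← Ex_add]
  refine Ex_mono h0 h1 fun η => ?_
  have h3 : nxt C η = (nxt C η ∩ T) ∪ (nxt C η \ T) := by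
    ext y; simp only [mem_union, mem_inter, mem_sdiff]; tauto
  conv_lhs => rw [h3]
  refine (hf.sub _ _).trans (add_le_add_right ((hf.le_sum _).trans ?_) _)
  rw [sum_comm]
  have h4 : ∑ y ∈ nxt C η \ T, f {y} ≤ ∑ y ∈ nxt C η \ T, ∑ x ∈ C, ind (η (x, y) = true) * f {y} := by
    refine sum_le_sum fun y hy => ?_
    rw [mem_sdiff, mem_nxt] at hy
    obtain ⟨⟨x, hx, hxy⟩, _⟩ := hy
    refine le_trans ?_ (single_le_sum (f := fun x => ind (η (x, y) = true) * f {y})
      (fun i _ => mul_nonneg (ind_nonneg _) (hf.nonneg _)) hx)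
    rw [ind_pos hxy, one_mul]
  refine h4.trans (sum_le_sum_of_subset_of_nonneg ?_ fun y _ _ =>
    sum_nonneg fun x _ => mul_nonneg (ind_nonneg _) (hf.nonneg _))
  intro y hy
  rw [mem_sdiff] at hy
  simpa using hy.2

section Layer

variable {N : ℕ}

/-- source of a level edge -/
def lsrc (e : Fin N × (W × W)) : Fin (N + 1) × W := (e.1.castSucc, e.2.1)
/-- target of a level edge -/
def ltgt (e : Fin N × (W × W)) : Fin (N + 1) × W := (e.1.succ, e.2.2)
/-- the top level -/
def ltop : Finset (Fin (N + 1) × W) := univ.filter fun v => v.1 = Fin.last N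
/-- edge probabilities -/
def lp (p : W × W → ℝ) (e : Fin N × (W × W)) : ℝ := p e.2

/-- slice at level `k` -/
def sl (ω : Fin N × (W × W) → Bool) (k : ℕ) : W × W → Bool := fun xy =>
  if h : k < N then ω (⟨k, h⟩, xy) else false

/-- the run started at `z`, restricted to the level sets `T` -/
def run (T : ℕ → Finset W) (z : W) (ω : Fin N × (W × W) → Bool) : ℕ → Finset W
  | 0 => {z}
  | k + 1 => nxt (run T z ω k) (sl ω k) ∩ T (k + 1)

lemma run_congr (T : ℕ → Finset W) (z : W) {ω η : Fin N × (W × W) → Bool} :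
    ∀ k : ℕ, (∀ e : Fin N × (W × W), (e.1 : ℕ) < k → ω e = η e) → run T z ω k = run T z η k
  | 0, _ => rfl
  | k + 1, h => by
    have h1 := run_congr T z k (ω := ω) (η := η) fun e he => h e (by omega)
    have h2 : sl ω k = sl η k := by
      funext xy
      unfold sl
      split_ifs with hk
      · exact h _ (by simp)
      · rfl
    simp only [run, h1, h2]

/-- Markov property of the run -/
lemma Ex_run (p : W × W → ℝ) (T : ℕ → Finset W) (z : W) {k : ℕ} (hk : k < N)
    (f : Finset W → ℝ) :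
    Ex (lp (N := N) p) (fun ω => f (nxt (run T z ω k) (sl ω k))) =
      Ex (lp (N := N) p) (fun ω => Pop p f (run T z ω k)) := by
  have h1 : ∀ ω : Fin N × (W × W) → Bool, f (nxt (run T z ω k) (sl ω k)) =
      ∑ c : Finset W, ind (run T z ω k = c) * f (nxt c (sl ω k)) := by
    intro ω
    rw [Finset.sum_eq_single (run T z ω k)]
    · rw [ind_pos rfl, one_mul]
    · intro b _ hb; rw [ind_neg (Ne.symm hb), zero_mul]
    · intro h; exact absurd (mem_univ _) h
  have h2 : ∀ ω : Fin N × (W × W) → Bool, Pop p f (run T z ω k) =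
      ∑ c : Finset W, ind (run T z ω k = c) * Pop p f c := by
    intro ω
    rw [Finset.sum_eq_single (run T z ω k)]
    · rw [ind_pos rfl, one_mul]
    · intro b _ hb; rw [ind_neg (Ne.symm hb), zero_mul]
    · intro h; exact absurd (mem_univ _) h
  rw [Ex_congr h1, Ex_congr h2, Ex_sum, Ex_sum]
  refine sum_congr rfl fun c _ => ?_
  have h3 := Ex_indep (lp (N := N) p) (univ.filter fun e => (e.1 : ℕ) < k)
    (f := fun ω => ind (run T z ω k = c)) (g := fun ω => f (nxt c (sl ω k)))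
    (fun ω η hh => ind_congr (by rw [run_congr T z k fun e he => hh e (by simpa using he)]))
    (fun ω η hh => by
      have : sl ω k = sl η k := by
        funext xy
        unfold sl
        rw [dif_pos hk, dif_pos hk]
        exact hh _ (by simp)
      simp only [this])
  rw [h3]
  have h4 : Ex (lp (N := N) p) (fun ω => f (nxt c (sl ω k))) = Pop p f c := by
    have := Ex_slice (lp (N := N) p) (⟨k, hk⟩ : Fin N) (fun η => f (nxt c η))
    have h5 : ∀ ω : Fin N × (W × W) → Bool, f (nxt c (sl ω k)) =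
        f (nxt c fun y => ω (⟨k, hk⟩, y)) := by
      intro ω
      congr 2
      funext xy
      unfold sl
      rw [dif_pos hk]
    rw [Ex_congr h5, this]
    rfl
  rw [h4]
  have h6 := Ex_smul (lp (N := N) p) (Pop p f c) (fun ω => ind (run T z ω k = c))
  have h7 : ∀ ω : Fin N × (W × W) → Bool, ind (run T z ω k = c) * Pop p f c =
      Pop p f c * ind (run T z ω k = c) := fun ω => mul_comm _ _
  rw [Ex_congr h7, h6]
  ring

lemma Ex_run_univ (p : W × W → ℝ) (z : W) (f : Finset W → ℝ) :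
    ∀ k : ℕ, k ≤ N → Ex (lp (N := N) p) (fun ω => (Pop p)^[N - k] f (run (fun _ => univ) z ω k)) =
      (Pop p)^[N] f {z}
  | 0, _ => by
    have : ∀ ω : Fin N × (W × W) → Bool,
      (Pop p)^[N - 0] f (run (fun _ => univ) z ω 0) = (Pop p)^[N] f {z} := fun ω => rfl
    rw [Ex_congr this, Ex_const]
  | k + 1, hk => by
    rw [← Ex_run_univ p z f k (by omega)]
    have h1 : N - k = (N - (k + 1)) + 1 := by omega
    rw [h1]
    simp only [Function.iterate_succ_apply']
    rw [← Ex_run p _ z (by omega : k < N)]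
    refine Ex_congr fun ω => ?_
    simp [run]

lemma reach_run {z : W} {ω : Fin N × (W × W) → Bool} {v : Fin (N + 1) × W}
    (h : reach lsrc ltgt ω (0, z) v) : v.2 ∈ run (fun _ => univ) z ω v.1 := by
  induction h with
  | refl => simp [run]
  | tail _ hbc ih =>
    obtain ⟨e, he1, he2, he3⟩ := hbc
    rw [← he1] at ih
    rw [← he2]
    simp only [lsrc, Fin.val_castSucc] at ih
    simp only [ltgt, Fin.val_succ, run, inter_univ]
    rw [mem_nxt]
    refine ⟨e.2.1, ih, ?_⟩
    unfold sl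
    rw [dif_pos e.1.isLt]
    exact he3

/-- survival to level `N` -/
lemma theta_le (p : W × W → ℝ) (h0 : ∀ e, 0 ≤ p e) (h1 : ∀ e, p e ≤ 1) (z : W) :
    theta lsrc ltgt (ltop (N := N)) (0, z) (lp p) ≤
      (Pop p)^[N] (fun C => ind (C.Nonempty)) {z} := by
  rw [← Ex_run_univ p z _ N le_rfl]
  unfold theta
  refine Ex_mono (fun e => h0 _) (fun e => h1 _) fun ω => ?_
  simp only [Nat.sub_self, Function.iterate_zero, id]
  refine ind_mono fun h => ?_
  obtain ⟨a, ha, hr⟩ := h
  have := reach_run hr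
  unfold ltop at ha
  rw [mem_filter] at ha
  rw [ha.2] at this
  exact ⟨_, this⟩

/-- level sets of a region -/
def lev (S : Finset (Fin (N + 1) × W)) (k : ℕ) : Finset W :=
  if h : k < N + 1 then univ.filter fun x => ((⟨k, h⟩ : Fin (N + 1)), x) ∈ S else ∅

lemma run_reachIn {S : Finset (Fin (N + 1) × W)} {z : W} (hz : (0, z) ∈ S)
    {ω : Fin N × (W × W) → Bool} : ∀ (k : ℕ) (hk : k < N + 1) (x : W),
      x ∈ run (lev S) z ω k → ((⟨k, hk⟩ : Fin (N + 1)), x) ∈ S ∧
        reachIn lsrc ltgt S ω (0, z) (⟨k, hk⟩, x)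
  | 0, hk, x, hx => by
    simp only [run, mem_singleton] at hx
    subst hx
    exact ⟨hz, Relation.ReflTransGen.refl⟩
  | k + 1, hk, x, hx => by
    simp only [run, mem_inter] at hx
    obtain ⟨h1, h2⟩ := hx
    rw [mem_nxt] at h1
    obtain ⟨y, hy, hyx⟩ := h1
    have hkN : k < N := by omega
    obtain ⟨h3, h4⟩ := run_reachIn hz k (by omega) y hy
    unfold lev at h2
    rw [dif_pos hk, mem_filter] at h2
    refine ⟨h2.2, h4.tail ⟨h3, h2.2, (⟨k, hkN⟩, (y, x)), rfl, rfl, ?_⟩⟩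
    unfold sl at hyx
    rw [dif_pos hkN] at hyx
    exact hyx

/-- recursion for the decay -/
lemma iter_exit {f : Finset W → ℝ} (hf : Sub f) {p : W × W → ℝ} (h0 : ∀ e, 0 ≤ p e)
    (h1 : ∀ e, p e ≤ 1) {S : Finset (Fin (N + 1) × W)} {z : W} {n : ℕ} (hn : N ≤ n) :
    ∀ k : ℕ, k ≤ N → (Pop p)^[n] f {z} ≤
      Ex (lp (N := N) p) (fun ω => (Pop p)^[n - k] f (run (lev S) z ω k)) +
      ∑ j ∈ range k, Ex (lp (N := N) p) (fun ω => ∑ x ∈ run (lev S) z ω j,
        ∑ y ∈ (lev S (j + 1))ᶜ, p (x, y) * (Pop p)^[n - j - 1] f {y})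
  | 0, _ => by
    have : ∀ ω : Fin N × (W × W) → Bool,
      (Pop p)^[n - 0] f (run (lev S) z ω 0) = (Pop p)^[n] f {z} := fun ω => rfl
    rw [Ex_congr this, Ex_const]
    simp
  | k + 1, hk => by
    refine (iter_exit (S := S) (z := z) hf h0 h1 hn k (by omega)).trans ?_
    rw [sum_range_succ, add_comm (∑ j ∈ range k, _), ← add_assoc]
    refine add_le_add_left ?_ _
    have h2 : n - k = (n - (k + 1)) + 1 := by omega
    have h3 : n - k - 1 = n - (k + 1) := by omega
    rw [h3, h2]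
    simp only [Function.iterate_succ_apply']
    have hsub := hf.iter h0 h1 (n - (k + 1))
    have h4 : Ex (lp (N := N) p) (fun ω => (Pop p)^[n - (k + 1)] f (run (lev S) z ω (k + 1))) =
        Ex (lp (N := N) p) (fun ω => Pop p (fun C => (Pop p)^[n - (k + 1)] f (C ∩ lev S (k + 1)))
          (run (lev S) z ω k)) := by
      rw [← Ex_run p (lev S) z (by omega : k < N)]
      rfl
    rw [h4, ← Ex_add]
    refine Ex_mono (fun e => h0 _) (fun e => h1 _) fun ω => ?_
    exact pop_exit hsub h0 h1 _ _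

lemma exit_bound {f : Finset W → ℝ} (hf : Sub f) {p : W × W → ℝ} (h0 : ∀ e, 0 ≤ p e)
    (h1 : ∀ e, p e ≤ 1) {S : Finset (Fin (N + 1) × W)} {z : W} (hz : (0, z) ∈ S)
    (hS : Disjoint S (ltop (N := N) (W := W))) (hN : 0 < N)
    {n : ℕ} (hn : N ≤ n) {M : ℝ} (hM : ∀ j < N, ∀ y, (Pop p)^[n - j - 1] f {y} ≤ M) :
    (Pop p)^[n] f {z} ≤ Phi lsrc ltgt (0, z) S (lp (N := N) p) * M := by
  have h2 := iter_exit (S := S) (z := z) hf h0 h1 hn N le_rfl
  have h3 : ∀ ω : Fin N × (W × W) → Bool, (Pop p)^[n - N] f (run (lev S) z ω N) = 0 := by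
    intro ω
    have : run (lev S) z ω N = ∅ := by
      rw [Finset.eq_empty_iff_forall_notMem]
      intro x hx
      have h4 := (run_reachIn hz N (by omega) x hx).1
      have h5 : ((⟨N, by omega⟩ : Fin (N + 1)), x) ∈ (ltop (N := N) (W := W)) := by
        simp [ltop, Fin.last]
      exact Finset.disjoint_left.1 hS h4 h5
    rw [this]
    exact (hf.iter h0 h1 _).zero
  rw [Ex_congr h3, Ex_const, zero_add] at h2
  refine h2.trans ?_
  have hM0 : 0 ≤ M := ((hf.iter h0 h1 (n - 0 - 1)).nonneg {z}).trans (hM 0 hN z)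
  -- rewrite Phi
  have hPhi : Phi lsrc ltgt (0, z) S (lp (N := N) p) = ∑ k : Fin N, ∑ x : W, ∑ y : W,
      (if (k.castSucc, x) ∈ S ∧ (k.succ, y) ∉ S then
        p (x, y) * Ex (lp (N := N) p) (fun ω => ind (reachIn lsrc ltgt S ω (0, z) (k.castSucc, x)))
        else 0) := by
    unfold Phi
    rw [Fintype.sum_prod_type]
    refine sum_congr rfl fun k _ => ?_
    rw [Fintype.sum_prod_type]
    rfl
  rw [hPhi, sum_mul, Finset.sum_range]
  refine sum_le_sum fun k _ => ?_
  have h6 : ∀ ω : Fin N × (W × W) → Bool, ∑ x ∈ run (lev S) z ω k, ∑ y ∈ (lev S (k + 1))ᶜ,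
      p (x, y) * (Pop p)^[n - k - 1] f {y} ≤
      ∑ x : W, ∑ y : W, (if (k.castSucc, x) ∈ S ∧ (k.succ, y) ∉ S then
        (p (x, y) * M) * ind (reachIn lsrc ltgt S ω (0, z) (k.castSucc, x)) else 0) := by
    intro ω
    have h7 : ∀ x, 0 ≤ ∑ y : W, (if (k.castSucc, x) ∈ S ∧ (k.succ, y) ∉ S then
        (p (x, y) * M) * ind (reachIn lsrc ltgt S ω (0, z) (k.castSucc, x)) else 0) := by
      intro x
      refine sum_nonneg fun y _ => ?_
      split_ifs
      · exact mul_nonneg (mul_nonneg (h0 _) hM0) (ind_nonneg _)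
      · exact le_refl _
    refine le_trans (sum_le_sum fun x hx => ?_)
      (sum_le_sum_of_subset_of_nonneg (subset_univ (run (lev S) z ω k)) fun x _ _ => h7 x)
    obtain ⟨hxS, hxr⟩ := run_reachIn hz k (by omega) x hx
    have hcs : (⟨(k : ℕ), by omega⟩ : Fin (N + 1)) = k.castSucc := rfl
    rw [hcs] at hxS hxr
    have h8 : ∑ y ∈ (lev S (k + 1))ᶜ, p (x, y) * (Pop p)^[n - k - 1] f {y} ≤
      ∑ y ∈ (lev S (k + 1))ᶜ, (if (k.castSucc, x) ∈ S ∧ (k.succ, y) ∉ S then
        (p (x, y) * M) * ind (reachIn lsrc ltgt S ω (0, z) (k.castSucc, x)) else 0) := by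
      refine sum_le_sum fun y hy => ?_
      have hyS : (k.succ, y) ∉ S := by
        intro hcon
        rw [mem_compl] at hy
        apply hy
        unfold lev
        rw [dif_pos (by omega), mem_filter]
        exact ⟨mem_univ _, hcon⟩
      rw [if_pos ⟨hxS, hyS⟩, ind_pos hxr, mul_one]
      exact mul_le_mul_of_nonneg_left (hM k k.isLt y) (h0 _)
    refine h8.trans (sum_le_sum_of_subset_of_nonneg (subset_univ _) fun y _ _ => ?_)
    split_ifs
    · exact mul_nonneg (mul_nonneg (h0 _) hM0) (ind_nonneg _)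
    · exact le_refl _
  refine (Ex_mono (fun e => h0 _) (fun e => h1 _) h6).trans (le_of_eq ?_)
  rw [Ex_sum, sum_mul]
  refine sum_congr rfl fun x _ => ?_
  rw [Ex_sum, sum_mul]
  refine sum_congr rfl fun y _ => ?_
  split_ifs
  · rw [Ex_smul]; unfold lp; ring
  · rw [Ex_const]; ring

/-- exponential decay -/
theorem decay {f : Finset W → ℝ} (hf : Sub f) {p : W × W → ℝ} (h0 : ∀ e, 0 ≤ p e)
    (h1 : ∀ e, p e ≤ 1) (hN : 0 < N)
    (hS : ∀ z : W, ∃ S : Finset (Fin (N + 1) × W), (0, z) ∈ S ∧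
      Disjoint S (ltop (N := N) (W := W)) ∧ Phi lsrc ltgt (0, z) S (lp (N := N) p) ≤ 1 / 2)
    {B : ℝ} (hB : ∀ n < N, ∀ z, (Pop p)^[n] f {z} ≤ B) :
    ∀ n : ℕ, ∀ z, (Pop p)^[n] f {z} ≤ B * (1 / 2) ^ (n / N) := by
  intro n
  induction n using Nat.strong_induction_on with
  | _ n ih =>
    intro z
    by_cases hn : n < N
    · rw [Nat.div_eq_of_lt hn, pow_zero, mul_one]
      exact hB n hn z
    · push Not at hn
      obtain ⟨S, hz, hSd, hPhi⟩ := hS z
      have hB0 : 0 ≤ B := ((hf.iter h0 h1 0).nonneg {z}).trans (hB 0 hN z)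
      have h2 : ∀ j < N, ∀ y, (Pop p)^[n - j - 1] f {y} ≤ B * (1 / 2) ^ (n / N - 1) := by
        intro j hj y
        refine (ih (n - j - 1) (by omega) y).trans ?_
        refine mul_le_mul_of_nonneg_left ?_ hB0
        refine pow_le_pow_of_le_one (by norm_num) (by norm_num) ?_
        have h3 : (n - N) / N = n / N - 1 := by
          have := Nat.sub_mul_div n N 1
          rwa [mul_one] at this
        rw [← h3]
        exact Nat.div_le_div_right (by omega)
      have h4 := exit_bound (z := z) hf h0 h1 hz hSd hN hn h2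
      have h5 : (1 / 2 : ℝ) ^ (n / N) = (1 / 2) * (1 / 2) ^ (n / N - 1) := by
        have h6 : 1 ≤ n / N := (Nat.one_le_div_iff hN).2 hn
        conv_lhs => rw [show n / N = (n / N - 1) + 1 by omega]
        rw [pow_succ]; ring
      rw [h5]
      have h7 : 0 ≤ B * (1 / 2 : ℝ) ^ (n / N - 1) := by positivity
      calc (Pop p)^[n] f {z} ≤ _ := h4
        _ ≤ 1 / 2 * (B * (1 / 2) ^ (n / N - 1)) := mul_le_mul_of_nonneg_right hPhi h7
        _ = _ := by ring

end Layer

end Pool.Agent.Helper97.Dyn
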