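import Mathlib
import Pool.Agent.Helper97.Dyn.Lay
import Pool.Agent.Helper97.Dyn.Gen

/-!
The static contact process on a finite vertex set: sharpness in the form of a Lyapunov function.
-/

open Finset Filter Topology

set_option linter.unusedSectionVars false

namespace Pool.Agent.Helper97.Dyn

variable {W : Type*} [Fintype W] [DecidableEq W]

/-- rates of the pair form: recovery `δ` on the diagonal, infection `a` off the diagonal -/
def prate (δ : ℝ) (a : W × W → ℝ) (e : W × W) : ℝ := if e.1 = e.2 then δ else a e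

/-- maps of the pair form -/
def pmap (e : W × W) (C : Finset W) : Finset W :=
  if e.1 = e.2 then C.erase e.1 else if e.1 ∈ C then insert e.2 C else C

/-- edge probabilities of the discretisation -/
noncomputable def pp (a : W × W → ℝ) (h s : ℝ) (e : W × W) : ℝ :=
  if e.1 = e.2 then Real.exp (-(Real.exp (-s) * h)) else 1 - Real.exp (-(Real.exp s * a e * h))

lemma pp_nonneg {a : W × W → ℝ} (ha : ∀ e, 0 ≤ a e) {h : ℝ} (h0 : 0 ≤ h) (s : ℝ) (e : W × W) :
    0 ≤ pp a h s e := by
  unfold pp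
  split_ifs
  · exact (Real.exp_pos _).le
  · exact one_sub_exp_nonneg (mul_nonneg (mul_nonneg (Real.exp_pos _).le (ha e)) h0)

lemma pp_le_one {a : W × W → ℝ} {h : ℝ} (h0 : 0 ≤ h) (s : ℝ) (e : W × W) :
    pp a h s e ≤ 1 := by
  unfold pp
  split_ifs
  · exact Real.exp_le_one_iff.2 (by
      have := mul_nonneg (Real.exp_pos (-s)).le h0
      linarith)
  · exact one_sub_exp_le_one _

lemma pp_mono {a : W × W → ℝ} (ha : ∀ e, 0 ≤ a e) {h : ℝ} (h0 : 0 ≤ h) {s t : ℝ} (hst : s ≤ t)
    (e : W × W) : pp a h s e ≤ pp a h t e := by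
  unfold pp
  split_ifs
  · refine Real.exp_le_exp.2 (neg_le_neg (mul_le_mul_of_nonneg_right ?_ h0))
    exact Real.exp_le_exp.2 (by linarith)
  · have : Real.exp (-(Real.exp t * a e * h)) ≤ Real.exp (-(Real.exp s * a e * h)) := by
      refine Real.exp_le_exp.2 (neg_le_neg (mul_le_mul_of_nonneg_right
        (mul_le_mul_of_nonneg_right ?_ (ha e)) h0))
      exact Real.exp_le_exp.2 hst
    linarith

/-- derivative of the edge probabilities -/
noncomputable def pp' (a : W × W → ℝ) (h s : ℝ) (e : W × W) : ℝ :=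
  if e.1 = e.2 then Real.exp (-(Real.exp (-s) * h)) * (Real.exp (-s) * h) else
    Real.exp (-(Real.exp s * a e * h)) * (Real.exp s * a e * h)

lemma pp_deriv (a : W × W → ℝ) (h s : ℝ) (e : W × W) :
    HasDerivAt (fun t => pp a h t e) (pp' a h s e) s := by
  unfold pp pp'
  split_ifs
  · have h1 : HasDerivAt (fun t : ℝ => Real.exp (-t)) (Real.exp (-s) * -1) s :=
      (hasDerivAt_neg s).exp
    have h2 := ((h1.mul_const h).fun_neg).exp
    convert h2 using 1
    ring
  · have h1 : HasDerivAt (fun t : ℝ => Real.exp t) (Real.exp s) s := Real.hasDerivAt_exp s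
    have h2 := ((((h1.mul_const (a e)).mul_const h).fun_neg).exp).const_sub 1
    have h3 : Real.exp (-(Real.exp s * a e * h)) * (Real.exp s * a e * h) =
        -(Real.exp (-(Real.exp s * a e * h)) * -(Real.exp s * a e * h)) := by ring
    rw [h3]
    exact h2

lemma pp'_ge {a : W × W → ℝ} {h : ℝ} (s : ℝ) (e : W × W) :
    pp a h s e * (1 - pp a h s e) ≤ pp' a h s e := by
  unfold pp pp'
  split_ifs
  · exact mul_le_mul_of_nonneg_left (one_sub_exp_le _) (Real.exp_pos _).le
  · have h1 := one_sub_exp_le (Real.exp s * a e * h)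
    have h2 := Real.exp_pos (-(Real.exp s * a e * h))
    have h3 : (1 - Real.exp (-(Real.exp s * a e * h))) * (1 - (1 - Real.exp (-(Real.exp s * a e * h))))
      = Real.exp (-(Real.exp s * a e * h)) * (1 - Real.exp (-(Real.exp s * a e * h))) := by ring
    rw [h3]
    exact mul_le_mul_of_nonneg_left h1 h2.le

/-- the discretised process is a flag kernel -/
lemma Pop_eq_rk (a : W × W → ℝ) (h s : ℝ) (f : Finset W → ℝ) (C : Finset W) :
    Pop (pp a h s) f C = rk (fun e => 1 - Real.exp (-(prate (Real.exp (-s))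
      (fun e => Real.exp s * a e) e * h)))
      (fun C (ω : W × W → Bool) => nxt C (fun e => xor (decide (e.1 = e.2)) (ω e))) f C := by
  unfold Pop rk
  rw [Ex_flip _ (fun e : W × W => decide (e.1 = e.2))]
  congr 1
  funext e
  unfold pp prate
  by_cases he : e.1 = e.2
  · simp [he]
  · simp [he]

lemma flag_zer (C : Finset W) :
    nxt C (fun e : W × W => xor (decide (e.1 = e.2)) ((zer : W × W → Bool) e)) = C := by
  ext y
  simp [mem_nxt, zer]

lemma flag_one (C : Finset W) (e : W × W) :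
    nxt C (fun e' : W × W => xor (decide (e'.1 = e'.2)) (one1 e e')) = pmap e C := by
  ext y
  obtain ⟨u, v⟩ := e
  unfold pmap
  rw [mem_nxt]
  have hone : ∀ x, (one1 ((u, v) : W × W)) (x, y) = decide ((x, y) = (u, v)) := by
    intro x
    unfold one1 upd zer
    by_cases hh : (x, y) = (u, v)
    · rw [hh]; simp
    · rw [Function.update_of_ne hh]; simp [hh]
  simp only [hone]
  by_cases huv : u = v
  · subst huv
    rw [if_pos rfl, mem_erase]
    constructor
    · rintro ⟨x, hx, hxy⟩
      by_cases hxy' : x = y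
      · subst hxy'
        refine ⟨?_, hx⟩
        rintro rfl
        simp at hxy
      · exfalso
        have : ¬ ((x, y) = (u, u)) := by
          rintro hh
          rw [Prod.mk.injEq] at hh
          exact hxy' (hh.1.trans hh.2.symm)
        simp [hxy', this] at hxy
    · rintro ⟨hyu, hy⟩
      refine ⟨y, hy, ?_⟩
      have : ¬ ((y, y) = (u, u)) := by
        rintro hh
        rw [Prod.mk.injEq] at hh
        exact hyu hh.1
      simp [this]
  · rw [if_neg huv]
    constructor
    · rintro ⟨x, hx, hxy⟩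
      by_cases hxy' : x = y
      · subst hxy'
        split_ifs
        · exact mem_insert_of_mem hx
        · exact hx
      · by_cases hh : (x, y) = (u, v)
        · rw [Prod.mk.injEq] at hh
          rw [← hh.1, if_pos hx, hh.2]
          exact mem_insert_self _ _
        · simp [hxy', hh] at hxy
    · intro hy
      by_cases hu : u ∈ C
      · rw [if_pos hu, mem_insert] at hy
        rcases hy with hy | hy
        · exact ⟨u, hu, by rw [hy]; simp [huv]⟩
        · refine ⟨y, hy, ?_⟩
          have : ¬ ((y, y) = (u, v)) := by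
            rintro hh
            rw [Prod.mk.injEq] at hh
            exact huv (hh.1.symm.trans hh.2)
          simp [this]
      · rw [if_neg hu] at hy
        refine ⟨y, hy, ?_⟩
        have : ¬ ((y, y) = (u, v)) := by
          rintro hh
          rw [Prod.mk.injEq] at hh
          exact huv (hh.1.symm.trans hh.2)
        simp [this]

lemma Pop_ctr {p : W × W → ℝ} (h0 : ∀ e, 0 ≤ p e) (h1 : ∀ e, p e ≤ 1) :
    Ctr (Pop p) := rk_ctr (S := Finset W) h0 h1 nxt

/-- closeness of the discretisation to the Euler step -/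
lemma Pop_small {a : W × W → ℝ} (ha : ∀ e, 0 ≤ a e) (s : ℝ) {h : ℝ} (h0 : 0 ≤ h)
    (h1 : (∑ e, prate (Real.exp (-s)) (fun e => Real.exp s * a e) e) * h ≤ 1)
    {f : Finset W → ℝ} {B : ℝ} (hf : ∀ C, |f C| ≤ B) (C : Finset W) :
    |Pop (pp a h s) f C - stp (prate (Real.exp (-s)) (fun e => Real.exp s * a e)) pmap h f C| ≤
      smallC (prate (Real.exp (-s)) (fun e : W × W => Real.exp s * a e)) * B * h ^ 2 := by
  rw [Pop_eq_rk]
  refine rk_small (fun e => ?_) (fun C => flag_zer C) (fun C e => flag_one C e) h0 h1 hf C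
  unfold prate
  split_ifs
  · exact (Real.exp_pos _).le
  · exact mul_nonneg (Real.exp_pos _).le (ha e)

lemma sum_half_pow (N m : ℕ) (hN : 0 < N) :
    ∑ n ∈ range (m * N), (1 / 2 : ℝ) ^ (n / N) ≤ 2 * N := by
  have h1 : ∑ n ∈ range (m * N), (1 / 2 : ℝ) ^ (n / N) = N * ∑ j ∈ range m, (1 / 2 : ℝ) ^ j := by
    induction m with
    | zero => simp
    | succ m ih =>
      rw [Nat.succ_mul, sum_range_add, ih, sum_range_succ, mul_add]
      congr 1
      rw [← nsmul_eq_mul]
      rw [Finset.sum_congr rfl (g := fun _ => (1 / 2 : ℝ) ^ m)]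
      · simp
      · intro i hi
        rw [mem_range] at hi
        congr 1
        rw [mul_comm m N, Nat.mul_add_div hN, Nat.div_eq_of_lt hi, add_zero]
  rw [h1]
  have h2 : ∑ j ∈ range m, (1 / 2 : ℝ) ^ j ≤ 2 := by
    rw [geom_sum_eq (by norm_num)]
    have : (0 : ℝ) < (1 / 2) ^ m := by positivity
    rw [div_le_iff_of_neg (by norm_num)]
    linarith
  calc (N : ℝ) * ∑ j ∈ range m, (1 / 2 : ℝ) ^ j ≤ N * 2 :=
        mul_le_mul_of_nonneg_left h2 (Nat.cast_nonneg _)
    _ = 2 * N := by ring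

/-- one step of the cardinality -/
lemma Pop_card {a : W × W → ℝ} (ha : ∀ e, 0 ≤ a e) {h : ℝ} (h0 : 0 ≤ h) {A : ℝ}
    (hA : ∀ x, ∑ y, a (x, y) ≤ A) (C : Finset W) :
    Pop (pp a h 0) (fun C => (C.card : ℝ)) C ≤ (1 + A * h) * C.card := by
  have h1 := pop_exit (f := fun C : Finset W => (C.card : ℝ)) sub_card (pp_nonneg ha h0 0)
    (pp_le_one h0 0) C ∅
  refine h1.trans ?_
  have h2 : ∀ η : W × W → Bool, ((nxt C η ∩ ∅).card : ℝ) = 0 := fun η => by simp
  rw [Ex_congr h2, Ex_const, zero_add]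
  have h3 : ∀ x ∈ C, ∑ y ∈ (∅ : Finset W)ᶜ, pp a h 0 (x, y) * ((({y} : Finset W).card : ℕ) : ℝ) ≤
      1 + A * h := by
    intro x _
    rw [compl_empty]
    simp only [card_singleton, Nat.cast_one, mul_one]
    rw [← Finset.add_sum_erase _ _ (mem_univ x)]
    refine add_le_add (pp_le_one h0 0 _) ?_
    calc ∑ y ∈ univ.erase x, pp a h 0 (x, y) ≤ ∑ y ∈ univ.erase x, a (x, y) * h := by
          refine sum_le_sum fun y hy => ?_
          unfold pp
          rw [if_neg (fun hh => (ne_of_mem_erase hy) hh.symm), Real.exp_zero, one_mul]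
          exact one_sub_exp_le _
      _ ≤ ∑ y, a (x, y) * h := sum_le_sum_of_subset_of_nonneg (subset_univ _)
          fun y _ _ => mul_nonneg (ha _) h0
      _ = (∑ y, a (x, y)) * h := by rw [sum_mul]
      _ ≤ A * h := mul_le_mul_of_nonneg_right (hA x) h0
  calc _ ≤ ∑ x ∈ C, (1 + A * h) := sum_le_sum h3
    _ = _ := by rw [sum_const, nsmul_eq_mul]; ring

lemma Pop_card_iter {a : W × W → ℝ} (ha : ∀ e, 0 ≤ a e) {h : ℝ} (h0 : 0 ≤ h) {A : ℝ} (hA0 : 0 ≤ A)
    (hA : ∀ x, ∑ y, a (x, y) ≤ A) : ∀ (n : ℕ) (C : Finset W),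
    (Pop (pp a h 0))^[n] (fun C => (C.card : ℝ)) C ≤ (1 + A * h) ^ n * C.card
  | 0, C => by simp
  | n + 1, C => by
    rw [Function.iterate_succ_apply']
    have h1 : Pop (pp a h 0) ((Pop (pp a h 0))^[n] (fun C => (C.card : ℝ))) C ≤
        Pop (pp a h 0) (fun C => (1 + A * h) ^ n * (C.card : ℝ)) C :=
      Ex_mono (pp_nonneg ha h0 0) (pp_le_one h0 0) fun η =>
        Pop_card_iter ha h0 hA0 hA n _
    refine h1.trans ?_
    unfold Pop
    rw [Ex_smul]
    have := Pop_card ha h0 hA C
    unfold Pop at this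
    have h2 : 0 ≤ (1 + A * h) ^ n := by positivity
    calc _ ≤ (1 + A * h) ^ n * ((1 + A * h) * C.card) := mul_le_mul_of_nonneg_left this h2
      _ = _ := by ring

/-- Sharpness in finite volume: if the process with infection `e^σ a` and recovery `e^{-σ}` is
unlikely to survive to time `t`, from every vertex, then the process with infection `a` and
recovery `1` has a Lyapunov function bounded on singletons. -/
theorem sharp_finite {a : W × W → ℝ} (ha : ∀ e, 0 ≤ a e) {A : ℝ} (hA0 : 0 ≤ A)
    (hA : ∀ x, ∑ y, a (x, y) ≤ A) {t σ : ℝ} (ht : 0 < t) (hσ : 0 < σ)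
    (hs : ∀ z : W, ∀ᶠ N : ℕ in atTop,
      (Pop (pp a (t / N) σ))^[N] (fun C => ind (C.Nonempty)) {z} < 1 - Real.exp (-(σ / 2))) :
    ∃ g : Finset W → ℝ, Sub g ∧ (∀ y, g {y} ≤ 2 * t * Real.exp (A * t)) ∧
      ∀ C, gen (prate 1 a) pmap g C ≤ -(3 / 4 * C.card) := by
  set B : ℝ := Real.exp (A * t) with hB
  have hB1 : 1 ≤ B := Real.one_le_exp (by positivity)
  set R : ℝ := ∑ e, prate 1 a e with hR
  have hr0 : ∀ e, 0 ≤ prate 1 a e := fun e => by
    unfold prate; split_ifs
    · norm_num
    · exact ha e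
  have hR0 : 0 ≤ R := sum_nonneg fun e _ => hr0 e
  set G : ℝ := Fintype.card W * (2 * t * B) with hG
  have hG0 : 0 ≤ G := by positivity
  -- choose N
  have hlim : Tendsto (fun N : ℕ => t / (N : ℝ)) atTop (𝓝 0) :=
    tendsto_const_nhds.div_atTop tendsto_natCast_atTop_atTop
  have hev1 : ∀ᶠ N : ℕ in atTop, R * (t / N) ≤ 1 := by
    have : Tendsto (fun N : ℕ => R * (t / (N : ℝ))) atTop (𝓝 (R * 0)) := hlim.const_mul R
    rw [mul_zero] at this
    exact (this.eventually_lt_const one_pos).mono fun N h => h.le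
  have hev2 : ∀ᶠ N : ℕ in atTop, smallC (prate 1 a) * G * (t / N) ≤ 1 / 8 := by
    have : Tendsto (fun N : ℕ => smallC (prate 1 a) * G * (t / (N : ℝ))) atTop
      (𝓝 (smallC (prate 1 a) * G * 0)) := hlim.const_mul _
    rw [mul_zero] at this
    exact (this.eventually_lt_const (by norm_num : (0 : ℝ) < 1 / 8)).mono fun N h => h.le
  obtain ⟨N, hN1, hN2, hN3, hN⟩ := (hev1.and (hev2.and ((eventually_all.2 hs).and
    (eventually_gt_atTop 0)))).exists
  set h : ℝ := t / N with hh
  have hNpos : (0 : ℝ) < N := by exact_mod_cast hN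
  have h0 : 0 < h := div_pos ht hNpos
  have hNh : N * h = t := by rw [hh]; field_simp
  have hp0 := pp_nonneg ha h0.le 0
  have hp1 := pp_le_one (a := a) h0.le 0
  -- regions
  have hreg : ∀ z : W, ∃ S : Finset (Fin (N + 1) × W), (0, z) ∈ S ∧
      Disjoint S (ltop (N := N) (W := W)) ∧
      Phi lsrc ltgt (0, z) S (lp (N := N) (pp a h 0)) ≤ 1 / 2 := by
    intro z
    by_contra hcon
    push Not at hcon
    have hd := dct (X := Fin (N + 1) × W) (E := Fin N × (W × W)) lsrc ltgt
      (A := ltop (N := N) (W := W)) (o := (0, z)) (p := fun s => lp (N := N) (pp a h s))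
      (p' := fun s => lp (N := N) (pp' a h s)) (s1 := σ) (κ := 1 / 2) hσ.le
      (fun s e => pp_deriv a h s e.2) (fun s e => pp_nonneg ha h0.le s e.2)
      (fun s e => pp_le_one h0.le s e.2) (fun s e => pp'_ge s e.2)
      (fun s hs0 _ S hoS hSd => by
        refine (hcon S hoS hSd).le.trans ?_
        exact Phi_mono lsrc ltgt (fun e => hp0 e.2) (fun e => pp_le_one h0.le s e.2)
          (fun e => pp_mono ha h0.le hs0 e.2))
    have h1 := theta_le (N := N) (pp a h σ) (pp_nonneg ha h0.le σ) (pp_le_one h0.le σ) z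
    have h2 := hN3 z
    have h3 : -(1 / 2 * σ) = -(σ / 2) := by ring
    rw [h3] at hd
    linarith
  have hdec := decay (N := N) sub_card hp0 hp1 hN hreg (B := B) (fun n hn z => by
    refine (Pop_card_iter ha h0.le hA0 hA n {z}).trans ?_
    rw [card_singleton, Nat.cast_one, mul_one]
    have h4 : (1 + A * h) ^ n ≤ Real.exp (A * h) ^ n := by
      refine pow_le_pow_left₀ (by positivity) ?_ n
      linarith [Real.add_one_le_exp (A * h)]
    refine h4.trans ?_
    rw [← Real.exp_nat_mul, hB]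
    refine Real.exp_le_exp.2 ?_
    have h5 : (n : ℝ) ≤ N := by exact_mod_cast hn.le
    calc (n : ℝ) * (A * h) ≤ N * (A * h) := mul_le_mul_of_nonneg_right h5 (by positivity)
      _ = A * (N * h) := by ring
      _ = A * t := by rw [hNh])
  -- choose m
  obtain ⟨m, hm⟩ : ∃ m : ℕ, B * (1 / 2 : ℝ) ^ m ≤ 1 / 8 := by
    have : Tendsto (fun m : ℕ => B * (1 / 2 : ℝ) ^ m) atTop (𝓝 (B * 0)) :=
      (tendsto_pow_atTop_nhds_zero_of_lt_one (by norm_num) (by norm_num)).const_mul B
    rw [mul_zero] at this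
    exact ((this.eventually_lt_const (by norm_num : (0 : ℝ) < 1 / 8)).exists).imp
      fun m h => h.le
  set M := m * N with hM
  set P := Pop (pp a h 0) with hP
  set c : Finset W → ℝ := fun C => (C.card : ℝ) with hc
  set g : Finset W → ℝ := fun C => h * ∑ n ∈ range M, P^[n] c C with hg
  have hsubn : ∀ n, Sub (P^[n] c) := fun n => sub_card.iter hp0 hp1 n
  have hgsub : Sub g := by
    refine ⟨?_, fun A' B' hAB => ?_, fun A' B' => ?_⟩
    · simp only [hg]
      rw [sum_eq_zero fun n _ => (hsubn n).zero, mul_zero]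
    · exact mul_le_mul_of_nonneg_left (sum_le_sum fun n _ => (hsubn n).mono _ _ hAB) h0.le
    · simp only [hg]
      rw [← mul_add, ← sum_add_distrib]
      exact mul_le_mul_of_nonneg_left (sum_le_sum fun n _ => (hsubn n).sub _ _) h0.le
  have hg1 : ∀ y, g {y} ≤ 2 * t * B := by
    intro y
    have h5 : ∑ n ∈ range M, P^[n] c {y} ≤ B * (2 * N) := by
      calc _ ≤ ∑ n ∈ range M, B * (1 / 2 : ℝ) ^ (n / N) := sum_le_sum fun n _ => hdec n y
        _ = B * ∑ n ∈ range M, (1 / 2 : ℝ) ^ (n / N) := by rw [mul_sum]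
        _ ≤ _ := mul_le_mul_of_nonneg_left (sum_half_pow N m hN) (by linarith)
    calc g {y} ≤ h * (B * (2 * N)) := mul_le_mul_of_nonneg_left h5 h0.le
      _ = 2 * (N * h) * B := by ring
      _ = 2 * t * B := by rw [hNh]
  refine ⟨g, hgsub, hg1, fun C => ?_⟩
  by_cases hC : C = ∅
  · subst hC
    have : gen (prate 1 a) pmap g ∅ = 0 := by
      unfold gen
      refine sum_eq_zero fun e _ => ?_
      have : pmap e (∅ : Finset W) = ∅ := by
        unfold pmap; split_ifs <;> simp_all
      rw [this, sub_self, mul_zero]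
    rw [this]; simp
  have hcard : (1 : ℝ) ≤ C.card := by
    have : 1 ≤ C.card := Finset.card_pos.2 (nonempty_iff_ne_empty.2 hC)
    exact_mod_cast this
  -- P g
  have hPg : P g C = g C - h * C.card + h * P^[M] c C := by
    have h6 : P g C = h * ∑ n ∈ range M, P^[n + 1] c C := by
      simp only [hP, hg]
      unfold Pop
      rw [Ex_smul, Ex_sum]
      congr 1
      refine sum_congr rfl fun n _ => ?_
      rw [Function.iterate_succ_apply']
    rw [h6]
    simp only [hg]
    have h7 : ∑ n ∈ range M, P^[n + 1] c C + P^[0] c C = ∑ n ∈ range M, P^[n] c C + P^[M] c C := by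
      rw [← sum_range_succ (fun n => P^[n] c C) M, ← sum_range_succ' (fun n => P^[n] c C) M]
    have h8 : P^[0] c C = C.card := rfl
    rw [h8] at h7
    linear_combination h * h7
  have hPM : P^[M] c C ≤ 1 / 8 * C.card := by
    refine ((hsubn M).le_sum C).trans ?_
    calc ∑ x ∈ C, P^[M] c {x} ≤ ∑ x ∈ C, (1 / 8 : ℝ) := by
          refine sum_le_sum fun x _ => (hdec M x).trans ?_
          rw [hM, Nat.mul_div_cancel m hN]
          exact hm
      _ = _ := by rw [sum_const, nsmul_eq_mul]; ring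
  have hgG : ∀ C, |g C| ≤ G := by
    intro C
    rw [abs_of_nonneg (hgsub.nonneg C)]
    refine (hgsub.le_sum C).trans ?_
    calc ∑ x ∈ C, g {x} ≤ ∑ x ∈ C, (2 * t * B) := sum_le_sum fun x _ => hg1 x
      _ = C.card * (2 * t * B) := by rw [sum_const, nsmul_eq_mul]
      _ ≤ G := by
        rw [hG]
        refine mul_le_mul_of_nonneg_right ?_ (by positivity)
        exact_mod_cast Finset.card_le_univ C
  have he0 : prate (Real.exp (-0)) (fun e : W × W => Real.exp 0 * a e) = prate 1 a := by
    simp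
  have hsm := Pop_small ha 0 h0.le (by rw [he0]; exact hN1) hgG C
  rw [he0] at hsm
  have h9 := (abs_le.1 hsm).1
  rw [← hP, hPg] at h9
  unfold stp at h9
  have h10 : h * gen (prate 1 a) pmap g C ≤ -(h * C.card) + h * P^[M] c C +
      smallC (prate 1 a) * G * h ^ 2 := by linarith
  have h11 : smallC (prate 1 a) * G * h ^ 2 ≤ h * (1 / 8) := by
    calc _ = h * (smallC (prate 1 a) * G * h) := by ring
      _ ≤ _ := mul_le_mul_of_nonneg_left hN2 h0.le
  have h12 : h * gen (prate 1 a) pmap g C ≤ h * (-(3 / 4 * C.card)) := by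
    have h13 := mul_le_mul_of_nonneg_left hPM h0.le
    have h14 : h * (1 / 8) ≤ h * (1 / 8 * C.card) :=
      mul_le_mul_of_nonneg_left (by linarith) h0.le
    calc _ ≤ -(h * C.card) + h * (1 / 8 * C.card) + h * (1 / 8 * C.card) := by linarith
      _ = _ := by ring
  exact le_of_mul_le_mul_left h12 h0

end Pool.Agent.Helper97.Dyn
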