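import Mathlib
import Pool.Agent.Helper97.Dyn.Stat

/-!
Finite-volume chains with unordered edges: the static contact process, the contact process on
dynamical edges, and the process in which edges are revealed when they are used.
-/

open Finset Filter Topology

set_option linter.unusedSectionVars false

namespace Pool.Agent.Helper97.Dyn

variable {W : Type*} [Fintype W] [DecidableEq W]

/-- the edge has an endpoint in `C` -/
def touch (e : Sym2 W) (C : Finset W) : Prop := ∃ x ∈ C, x ∈ e

/-- the infection crosses the edge `e` -/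
noncomputable def infect (e : Sym2 W) (C : Finset W) : Finset W :=
  open Classical in univ.filter fun y => y ∈ C ∨ (y ∈ e ∧ touch e C)

lemma mem_infect {e : Sym2 W} {C : Finset W} {y : W} :
    y ∈ infect e C ↔ y ∈ C ∨ (y ∈ e ∧ touch e C) := by simp [infect]

lemma touch_mono {e : Sym2 W} {C D : Finset W} (h : C ⊆ D) (ht : touch e C) : touch e D := by
  obtain ⟨x, hx, he⟩ := ht
  exact ⟨x, h hx, he⟩

lemma infect_mono (e : Sym2 W) {C D : Finset W} (h : C ⊆ D) : infect e C ⊆ infect e D := by
  intro y hy
  rw [mem_infect] at hy ⊢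
  rcases hy with hy | ⟨h1, h2⟩
  · exact Or.inl (h hy)
  · exact Or.inr ⟨h1, touch_mono h h2⟩

lemma subset_infect (e : Sym2 W) (C : Finset W) : C ⊆ infect e C := by
  intro y hy
  rw [mem_infect]
  exact Or.inl hy

lemma infect_of_not_touch {e : Sym2 W} {C : Finset W} (h : ¬ touch e C) : infect e C = C := by
  ext y
  rw [mem_infect]
  tauto

lemma infect_nonempty {e : Sym2 W} {C : Finset W} (h : (infect e C).Nonempty) : C.Nonempty := by
  obtain ⟨y, hy⟩ := h
  rw [mem_infect] at hy
  rcases hy with hy | ⟨_, x, hx, _⟩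
  · exact ⟨y, hy⟩
  · exact ⟨x, hx⟩

/-- static chain: rates -/
def srate (δ : ℝ) (a : Sym2 W → ℝ) : W ⊕ Sym2 W → ℝ := Sum.elim (fun _ => δ) a

/-- static chain: maps -/
noncomputable def smap : W ⊕ Sym2 W → Finset W → Finset W :=
  Sum.elim (fun x C => C.erase x) infect

lemma gen_s (δ : ℝ) (a : Sym2 W → ℝ) (f : Finset W → ℝ) (C : Finset W) :
    gen (srate δ a) smap f C = ∑ x, δ * (f (C.erase x) - f C) +
      ∑ e, a e * (f (infect e C) - f C) := by
  unfold gen
  rw [Fintype.sum_sum_type]
  rfl

lemma infect_mk (u v : W) (C : Finset W) :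
    infect s(u, v) C = if u ∈ C then insert v C else if v ∈ C then insert u C else C := by
  ext y
  rw [mem_infect]
  have ht : touch s(u, v) C ↔ u ∈ C ∨ v ∈ C := by
    unfold touch
    constructor
    · rintro ⟨x, hx, he⟩
      rw [Sym2.mem_iff] at he
      rcases he with rfl | rfl
      · exact Or.inl hx
      · exact Or.inr hx
    · rintro (h | h)
      · exact ⟨u, h, Sym2.mem_mk_left u v⟩
      · exact ⟨v, h, Sym2.mem_mk_right u v⟩
  rw [ht, Sym2.mem_iff]
  by_cases hu : u ∈ C
  · rw [if_pos hu, mem_insert]
    constructor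
    · rintro (h | ⟨rfl | rfl, _⟩)
      · exact Or.inr h
      · exact Or.inr hu
      · exact Or.inl rfl
    · rintro (rfl | h)
      · exact Or.inr ⟨Or.inr rfl, Or.inl hu⟩
      · exact Or.inl h
  · rw [if_neg hu]
    by_cases hv : v ∈ C
    · rw [if_pos hv, mem_insert]
      constructor
      · rintro (h | ⟨rfl | rfl, _⟩)
        · exact Or.inr h
        · exact Or.inl rfl
        · exact Or.inr hv
      · rintro (rfl | h)
        · exact Or.inr ⟨Or.inl rfl, Or.inr hv⟩
        · exact Or.inl h
    · rw [if_neg hv]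
      constructor
      · rintro (h | ⟨_, h | h⟩)
        · exact h
        · exact absurd h hu
        · exact absurd h hv
      · exact fun h => Or.inl h

/-- ordered and unordered forms of the static generator agree -/
lemma gen_pair (δ : ℝ) (a : Sym2 W → ℝ) (f : Finset W → ℝ) (C : Finset W) :
    gen (prate δ (fun xy : W × W => a s(xy.1, xy.2))) pmap f C = gen (srate δ a) smap f C := by
  rw [gen_s]
  unfold gen
  have h1 : ∀ e : W × W, prate δ (fun xy : W × W => a s(xy.1, xy.2)) e * (f (pmap e C) - f C) =
      (if e.1 = e.2 then δ * (f (C.erase e.1) - f C) else 0) +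
      (if e.1 = e.2 then 0 else a s(e.1, e.2) *
        (f (if e.1 ∈ C then insert e.2 C else C) - f C)) := by
    intro e
    unfold prate pmap
    split_ifs <;> ring
  rw [sum_congr rfl fun e _ => h1 e, sum_add_distrib]
  congr 1
  · rw [Fintype.sum_prod_type]
    refine sum_congr rfl fun x _ => ?_
    rw [Finset.sum_ite_eq]
    simp
  · rw [← Finset.sum_fiberwise univ (fun e : W × W => s(e.1, e.2))]
    refine sum_congr rfl fun e _ => ?_
    induction e using Sym2.ind with
    | _ u v =>
      by_cases huv : u = v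
      · subst huv
        have h2 : infect s(u, u) C = C := by
          rw [infect_mk]
          split_ifs with h
          · exact insert_eq_self.2 h
          · rfl
        rw [h2, sub_self, mul_zero]
        refine sum_eq_zero fun e he => ?_
        rw [mem_filter] at he
        have h3 := he.2
        rw [Sym2.eq_iff] at h3
        have h4 : e.1 = e.2 := by
          rcases h3 with ⟨h5, h6⟩ | ⟨h5, h6⟩ <;> rw [h5, h6]
        rw [if_pos h4]
      · have h3 : univ.filter (fun e : W × W => s(e.1, e.2) = s(u, v)) = {(u, v), (v, u)} := by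
          ext ⟨x, y⟩
          simp only [mem_filter, mem_univ, true_and, mem_insert, mem_singleton, Prod.mk.injEq,
            Sym2.eq_iff]
        have hne : ((u, v) : W × W) ≠ (v, u) := by
          intro h
          rw [Prod.mk.injEq] at h
          exact huv h.1
        rw [h3, sum_pair hne]
        simp only [if_neg huv, if_neg (Ne.symm huv)]
        rw [show s(v, u) = s(u, v) from Sym2.eq_swap, infect_mk]
        by_cases hu : u ∈ C <;> by_cases hv : v ∈ C
        · simp [hu, hv]
        · simp [hu, hv]
        · simp [hu, hv]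
        · simp [hu, hv]

/-- states of the dynamic chain -/
abbrev DSt (W : Type*) := Finset W × (Sym2 W → Bool)

/-- dynamic chain: rates -/
def drate (lam : ℝ) (ro rc : Sym2 W → ℝ) : W ⊕ (Sym2 W ⊕ (Sym2 W ⊕ Sym2 W)) → ℝ :=
  Sum.elim (fun _ => 1) (Sum.elim (fun _ => lam) (Sum.elim ro rc))

/-- dynamic chain: maps -/
noncomputable def dmap : W ⊕ (Sym2 W ⊕ (Sym2 W ⊕ Sym2 W)) → DSt W → DSt W :=
  Sum.elim (fun x s => (s.1.erase x, s.2)) (Sum.elim
    (fun e s => (if s.2 e = true then infect e s.1 else s.1, s.2))
    (Sum.elim (fun e s => (s.1, upd s.2 e true)) (fun e s => (s.1, upd s.2 e false))))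

lemma gen_d (lam : ℝ) (ro rc : Sym2 W → ℝ) (f : DSt W → ℝ) (s : DSt W) :
    gen (drate lam ro rc) dmap f s = ∑ x, (f (s.1.erase x, s.2) - f s) +
      ∑ e, (lam * (f (if s.2 e = true then infect e s.1 else s.1, s.2) - f s) +
        (ro e * (f (s.1, upd s.2 e true) - f s) + rc e * (f (s.1, upd s.2 e false) - f s))) := by
  unfold gen
  rw [Fintype.sum_sum_type, Fintype.sum_sum_type, Fintype.sum_sum_type, sum_add_distrib,
    sum_add_distrib]
  simp [drate, dmap]

lemma upd_mono {E : Type*} [Fintype E] [DecidableEq E] {ω η : E → Bool} (h : ω ≤ η) (e : E) (b : Bool) :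
    upd ω e b ≤ upd η e b := by
  intro j
  by_cases hj : j = e
  · subst hj; simp [upd_same]
  · rw [upd_ne _ hj, upd_ne _ hj]; exact h j

lemma le_upd_true {E : Type*} [Fintype E] [DecidableEq E] (ω : E → Bool) (e : E) : ω ≤ upd ω e true := by
  intro j
  by_cases hj : j = e
  · subst hj; simp [upd_same]
  · rw [upd_ne _ hj]

lemma upd_false_le {E : Type*} [Fintype E] [DecidableEq E] (ω : E → Bool) (e : E) : upd ω e false ≤ ω := by
  intro j
  by_cases hj : j = e
  · subst hj; simp [upd_same]
  · rw [upd_ne _ hj]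

lemma dmap_mono (j : W ⊕ (Sym2 W ⊕ (Sym2 W ⊕ Sym2 W))) : Monotone (dmap (W := W) j) := by
  intro s t hst
  obtain ⟨h1, h2⟩ := hst
  rcases j with x | e | e | e
  · exact ⟨Finset.erase_subset_erase x h1, h2⟩
  · refine ⟨?_, h2⟩
    simp only [dmap, Sum.elim_inr, Sum.elim_inl]
    by_cases hs : s.2 e = true
    · have ht : t.2 e = true := by
        have := h2 e
        rw [hs] at this
        exact top_le_iff.1 this
      rw [if_pos hs, if_pos ht]
      exact infect_mono e h1
    · rw [if_neg hs]
      split_ifs
      · exact h1.trans (subset_infect e _)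
      · exact h1
  · exact ⟨h1, upd_mono h2 e true⟩
  · exact ⟨h1, upd_mono h2 e false⟩

lemma smap_mono (j : W ⊕ Sym2 W) : Monotone (smap (W := W) j) := by
  intro s t hst
  rcases j with x | e
  · exact Finset.erase_subset_erase x hst
  · exact infect_mono e hst

/-- reveal chain: rates -/
def rrate (lam : ℝ) (π ν : Sym2 W → ℝ) : W ⊕ (Sym2 W ⊕ (Sym2 W ⊕ Sym2 W)) → ℝ :=
  Sum.elim (fun _ => 1) (Sum.elim (fun _ => lam) (Sum.elim (fun e => lam * π e) ν))

open Classical in
/-- reveal chain: maps -/
noncomputable def rmap : W ⊕ (Sym2 W ⊕ (Sym2 W ⊕ Sym2 W)) → DSt W → DSt W :=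
  Sum.elim (fun x s => (s.1.erase x, s.2)) (Sum.elim
    (fun e s => (if s.2 e = true then infect e s.1 else s.1, s.2))
    (Sum.elim (fun e s => if s.2 e = false ∧ touch e s.1 then (infect e s.1, upd s.2 e true) else s)
      (fun e s => (s.1, upd s.2 e false))))

open Classical in
lemma gen_r (lam : ℝ) (π ν : Sym2 W → ℝ) (f : DSt W → ℝ) (s : DSt W) :
    gen (rrate lam π ν) rmap f s = ∑ x, (f (s.1.erase x, s.2) - f s) +
      ∑ e, (lam * (f (if s.2 e = true then infect e s.1 else s.1, s.2) - f s) +
        (lam * π e * (f (if s.2 e = false ∧ touch e s.1 then (infect e s.1, upd s.2 e true) else s)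
          - f s) + ν e * (f (s.1, upd s.2 e false) - f s))) := by
  unfold gen
  rw [Fintype.sum_sum_type, Fintype.sum_sum_type, Fintype.sum_sum_type, sum_add_distrib,
    sum_add_distrib]
  simp [rrate, rmap]

/-- pointwise maximum of configurations -/
def bor {E : Type*} (β R : E → Bool) : E → Bool := fun e => β e || R e

lemma bor_upd_true {E : Type*} [Fintype E] [DecidableEq E] (β R : E → Bool) (e : E) :
    bor (upd β e true) R = upd (bor β R) e true := by
  funext j
  by_cases hj : j = e
  · subst hj; simp [bor, upd_same]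
  · simp [bor, upd_ne _ hj]

lemma bor_upd_true' {E : Type*} [Fintype E] [DecidableEq E] (β R : E → Bool) (e : E) :
    bor β (upd R e true) = upd (bor β R) e true := by
  funext j
  by_cases hj : j = e
  · subst hj; simp [bor, upd_same]
  · simp [bor, upd_ne _ hj]

lemma bor_upd_upd {E : Type*} [Fintype E] [DecidableEq E] (β R : E → Bool) (e : E) (b : Bool) :
    bor (upd β e b) (upd R e false) = upd (bor β R) e b := by
  funext j
  by_cases hj : j = e
  · subst hj; simp [bor, upd_same]
  · simp [bor, upd_ne _ hj]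

lemma bor_upd_false {E : Type*} [Fintype E] [DecidableEq E] (β R : E → Bool) (e : E) (hR : R e = false) :
    bor (upd β e false) R = upd (bor β R) e false := by
  funext j
  by_cases hj : j = e
  · subst hj; simp [bor, upd_same, hR]
  · simp [bor, upd_ne _ hj]

/-- averaging over the unrevealed edges -/
noncomputable def Kr (π : Sym2 W → ℝ) (f : DSt W → ℝ) (s : DSt W) : ℝ :=
  Ex π fun β => f (s.1, bor β s.2)

lemma Kr_lin (π : Sym2 W → ℝ) (h : ℝ) (f g : DSt W → ℝ) (s : DSt W) :
    Kr π (fun t => f t + h * g t) s = Kr π f s + h * Kr π g s := by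
  unfold Kr
  rw [Ex_add, Ex_smul]

lemma Kr_gen_le {lam : ℝ} (hlam : 0 ≤ lam) {π ν : Sym2 W → ℝ} (hπ0 : ∀ e, 0 ≤ π e)
    (hπ1 : ∀ e, π e ≤ 1) {f : DSt W → ℝ} (hf : Monotone f) (s : DSt W) :
    Kr π (gen (drate lam (fun e => ν e * π e) (fun e => ν e * (1 - π e))) dmap f) s ≤
      gen (rrate lam π ν) rmap (Kr π f) s := by
  classical
  obtain ⟨C, R⟩ := s
  rw [gen_r]
  have h1 : Kr π (gen (drate lam (fun e => ν e * π e) (fun e => ν e * (1 - π e))) dmap f) (C, R) =
      ∑ x, (Kr π f (C.erase x, R) - Kr π f (C, R)) +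
      ∑ e, (lam * (Ex π (fun β => f (if bor β R e = true then infect e C else C, bor β R)) -
          Kr π f (C, R)) +
        (ν e * π e * (Ex π (fun β => f (C, upd (bor β R) e true)) - Kr π f (C, R)) +
        ν e * (1 - π e) * (Ex π (fun β => f (C, upd (bor β R) e false)) - Kr π f (C, R)))) := by
    unfold Kr
    simp only [gen_d]
    rw [Ex_add, Ex_sum, Ex_sum]
    congr 1
    · exact sum_congr rfl fun x _ => Ex_sub _ _ _
    · refine sum_congr rfl fun e _ => ?_
      rw [Ex_add, Ex_add, Ex_smul, Ex_smul, Ex_smul, Ex_sub, Ex_sub, Ex_sub]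
  rw [h1]
  refine add_le_add le_rfl (sum_le_sum fun e _ => ?_)
  -- flips
  have hflip : Kr π f (C, upd R e false) = π e * Ex π (fun β => f (C, upd (bor β R) e true)) +
      (1 - π e) * Ex π (fun β => f (C, upd (bor β R) e false)) := by
    unfold Kr
    rw [Ex_split π e]
    simp only [bor_upd_upd]
  -- infections
  have hinf : lam * (Ex π (fun β => f (if bor β R e = true then infect e C else C, bor β R)) -
          Kr π f (C, R)) ≤
      lam * (Kr π f (if R e = true then infect e C else C, R) - Kr π f (C, R)) +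
      lam * π e * (Kr π f (if R e = false ∧ touch e C then (infect e C, upd R e true) else (C, R))
        - Kr π f (C, R)) := by
    by_cases hR : R e = true
    · have h2 : ∀ β : Sym2 W → Bool, bor β R e = true := fun β => by simp [bor, hR]
      have h3 : ¬ (R e = false ∧ touch e C) := by
        rintro ⟨h4, _⟩
        rw [hR] at h4
        exact Bool.noConfusion h4
      simp only [h2, if_true, if_pos hR, if_neg h3, sub_self, mul_zero, add_zero]
      unfold Kr
      exact le_refl _
    · have hR' : R e = false := by simpa using hR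
      rw [if_neg hR]
      by_cases ht : touch e C
      · rw [if_pos ⟨hR', ht⟩]
        have h2 : Ex π (fun β => f (if bor β R e = true then infect e C else C, bor β R)) =
            π e * Ex π (fun β => f (infect e C, upd (bor β R) e true)) +
            (1 - π e) * Ex π (fun β => f (C, upd (bor β R) e false)) := by
          rw [Ex_split π e]
          congr 2
          · refine Ex_congr fun β => ?_
            rw [bor_upd_true, upd_same, if_pos rfl]
          · refine Ex_congr fun β => ?_
            rw [bor_upd_false _ _ _ hR', upd_same, if_neg Bool.false_ne_true]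
        have h3 : Kr π f (C, R) = π e * Ex π (fun β => f (C, upd (bor β R) e true)) +
            (1 - π e) * Ex π (fun β => f (C, upd (bor β R) e false)) := by
          unfold Kr
          rw [Ex_split π e]
          congr 2
          · refine Ex_congr fun β => ?_
            rw [bor_upd_true]
          · refine Ex_congr fun β => ?_
            rw [bor_upd_false _ _ _ hR']
        have h4 : Kr π f (infect e C, upd R e true) =
            Ex π (fun β => f (infect e C, upd (bor β R) e true)) := by
          unfold Kr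
          refine Ex_congr fun β => ?_
          rw [bor_upd_true']
        have h5 : Kr π f (C, R) ≤ Ex π (fun β => f (C, upd (bor β R) e true)) := by
          unfold Kr
          exact Ex_mono hπ0 hπ1 fun β => hf ⟨le_refl _, le_upd_true _ _⟩
        rw [h4]
        have h6 : Ex π (fun β => f (if bor β R e = true then infect e C else C, bor β R)) -
          Kr π f (C, R) = π e * (Ex π (fun β => f (infect e C, upd (bor β R) e true)) -
            Ex π (fun β => f (C, upd (bor β R) e true))) := by
          rw [h2, h3]; ring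
        rw [h6, sub_self, mul_zero, zero_add]
        have h7 : π e * (Ex π (fun β => f (infect e C, upd (bor β R) e true)) -
            Ex π (fun β => f (C, upd (bor β R) e true))) ≤
            π e * (Ex π (fun β => f (infect e C, upd (bor β R) e true)) - Kr π f (C, R)) :=
          mul_le_mul_of_nonneg_left (by linarith) (hπ0 e)
        calc _ ≤ _ := mul_le_mul_of_nonneg_left h7 hlam
          _ = _ := by ring
      · rw [if_neg (fun h => ht h.2), infect_of_not_touch ht]
        simp only [ite_self, sub_self, mul_zero, add_zero]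
        unfold Kr
        simp
  have hfl : ν e * π e * (Ex π (fun β => f (C, upd (bor β R) e true)) - Kr π f (C, R)) +
        ν e * (1 - π e) * (Ex π (fun β => f (C, upd (bor β R) e false)) - Kr π f (C, R)) =
      ν e * (Kr π f (C, upd R e false) - Kr π f (C, R)) := by
    rw [hflip]; ring
  simp only
  rw [hfl]
  linarith

/-- averaging over all edges with smaller probabilities -/
noncomputable def Ks (ρ : Sym2 W → ℝ) (f : DSt W → ℝ) (C : Finset W) : ℝ :=
  Ex ρ fun β => f (C, β)

lemma Ks_lin (ρ : Sym2 W → ℝ) (h : ℝ) (f g : DSt W → ℝ) (C : Finset W) :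
    Ks ρ (fun t => f t + h * g t) C = Ks ρ f C + h * Ks ρ g C := by
  unfold Ks
  rw [Ex_add, Ex_smul]

lemma Ks_gen_ge {lam : ℝ} (hlam : 0 ≤ lam) {π ν ρ : Sym2 W → ℝ}
    (hρ0 : ∀ e, 0 ≤ ρ e) (hρ1 : ∀ e, ρ e ≤ 1)
    (hρ : ∀ e, lam * ρ e * (1 - ρ e) ≤ ν e * (π e - ρ e))
    {f : DSt W → ℝ} (hf : Monotone f) (C : Finset W) :
    gen (srate 1 (fun e => lam * ρ e)) smap (Ks ρ f) C ≤
    Ks ρ (gen (drate lam (fun e => ν e * π e) (fun e => ν e * (1 - π e))) dmap f) C := by
  rw [gen_s]
  have h1 : Ks ρ (gen (drate lam (fun e => ν e * π e) (fun e => ν e * (1 - π e))) dmap f) C =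
      ∑ x, (Ks ρ f (C.erase x) - Ks ρ f C) +
      ∑ e, (lam * (Ex ρ (fun β => f (if β e = true then infect e C else C, β)) - Ks ρ f C) +
        (ν e * π e * (Ex ρ (fun β => f (C, upd β e true)) - Ks ρ f C) +
        ν e * (1 - π e) * (Ex ρ (fun β => f (C, upd β e false)) - Ks ρ f C))) := by
    unfold Ks
    simp only [gen_d]
    rw [Ex_add, Ex_sum, Ex_sum]
    congr 1
    · exact sum_congr rfl fun x _ => Ex_sub _ _ _
    · refine sum_congr rfl fun e _ => ?_
      rw [Ex_add, Ex_add, Ex_smul, Ex_smul, Ex_smul, Ex_sub, Ex_sub, Ex_sub]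
  rw [h1]
  simp only [one_mul]
  refine add_le_add le_rfl (sum_le_sum fun e _ => ?_)
  set F1 := Ex ρ (fun β => f (C, upd β e true)) with hF1
  set F0 := Ex ρ (fun β => f (C, upd β e false)) with hF0
  set G1 := Ex ρ (fun β => f (infect e C, upd β e true)) with hG1
  set G0 := Ex ρ (fun β => f (infect e C, upd β e false)) with hG0
  have h2 : Ks ρ f C = ρ e * F1 + (1 - ρ e) * F0 := by
    unfold Ks; rw [Ex_split ρ e]
  have h3 : Ks ρ f (infect e C) = ρ e * G1 + (1 - ρ e) * G0 := by
    unfold Ks; rw [Ex_split ρ e]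
  have h4 : Ex ρ (fun β => f (if β e = true then infect e C else C, β)) =
      ρ e * G1 + (1 - ρ e) * F0 := by
    rw [Ex_split ρ e]
    simp only [upd_same, if_true, Bool.false_eq_true, if_false]
    rfl
  rw [h2, h3, h4]
  have hF : F0 ≤ F1 := Ex_mono hρ0 hρ1 fun β => hf ⟨le_refl _, by
    have := upd_mono (le_refl β) e true
    intro j
    by_cases hj : j = e
    · subst hj; simp [upd_same]
    · simp [upd_ne _ hj]⟩
  have hG : G0 ≤ G1 := Ex_mono hρ0 hρ1 fun β => hf ⟨le_refl _, by
    intro j
    by_cases hj : j = e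
    · subst hj; simp [upd_same]
    · simp [upd_ne _ hj]⟩
  have h5 := mul_le_mul_of_nonneg_right (hρ e) (by linarith : 0 ≤ F1 - F0)
  have h6 : 0 ≤ lam * ρ e * (1 - ρ e) * (G1 - G0) :=
    mul_nonneg (mul_nonneg (mul_nonneg hlam (hρ0 e)) (by linarith [hρ1 e])) (by linarith)
  nlinarith

end Pool.Agent.Helper97.Dyn
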