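import Mathlib

/-!
Finite product Bernoulli expectations: independence, derivative formula, monotonicity,
small-parameter expansion.
-/

open Finset

set_option linter.unusedSectionVars false

namespace Pool.Agent.Helper97.Dyn

variable {E : Type*} [Fintype E] [DecidableEq E]

/-- weight of one coordinate -/
def w1 (p : ℝ) (b : Bool) : ℝ := if b then p else 1 - p

@[simp] lemma w1_true (p : ℝ) : w1 p true = p := rfl
@[simp] lemma w1_false (p : ℝ) : w1 p false = 1 - p := rfl

lemma w1_nonneg {p : ℝ} (h0 : 0 ≤ p) (h1 : p ≤ 1) (b : Bool) : 0 ≤ w1 p b := by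
  cases b <;> simp [h0, h1]

lemma w1_add_not (p : ℝ) (b : Bool) : w1 p b + w1 p (!b) = 1 := by
  cases b <;> simp

/-- weight of a configuration -/
def wt (p : E → ℝ) (ω : E → Bool) : ℝ := ∏ e, w1 (p e) (ω e)

/-- expectation -/
def Ex (p : E → ℝ) (f : (E → Bool) → ℝ) : ℝ := ∑ ω, wt p ω * f ω

lemma wt_nonneg {p : E → ℝ} (h0 : ∀ e, 0 ≤ p e) (h1 : ∀ e, p e ≤ 1) (ω : E → Bool) :
    0 ≤ wt p ω := prod_nonneg fun e _ => w1_nonneg (h0 e) (h1 e) _

lemma Ex_prod (p : E → ℝ) (φ : E → Bool → ℝ) :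
    Ex p (fun ω => ∏ e, φ e (ω e)) = ∏ e, (p e * φ e true + (1 - p e) * φ e false) := by
  unfold Ex wt
  simp_rw [← prod_mul_distrib]
  have h := Finset.prod_univ_sum (κ := fun _ : E => Bool) (fun _ : E => (Finset.univ : Finset Bool))
    (fun e b => w1 (p e) b * φ e b)
  rw [Fintype.piFinset_univ] at h
  rw [← h]
  refine prod_congr rfl fun e _ => ?_
  simp

lemma Ex_one (p : E → ℝ) : Ex p (fun _ => 1) = 1 := by
  have h := Ex_prod p (fun _ _ => 1)
  simpa using h

lemma sum_wt (p : E → ℝ) : ∑ ω, wt p ω = 1 := by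
  have := Ex_one p
  unfold Ex at this
  simpa using this

lemma Ex_const (p : E → ℝ) (c : ℝ) : Ex p (fun _ => c) = c := by
  unfold Ex
  rw [← Finset.sum_mul, sum_wt, one_mul]

lemma Ex_add (p : E → ℝ) (f g : (E → Bool) → ℝ) :
    Ex p (fun ω => f ω + g ω) = Ex p f + Ex p g := by
  unfold Ex
  rw [← sum_add_distrib]
  exact sum_congr rfl fun ω _ => by ring

lemma Ex_sub (p : E → ℝ) (f g : (E → Bool) → ℝ) :
    Ex p (fun ω => f ω - g ω) = Ex p f - Ex p g := by
  unfold Ex
  rw [← sum_sub_distrib]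
  exact sum_congr rfl fun ω _ => by ring

lemma Ex_smul (p : E → ℝ) (c : ℝ) (f : (E → Bool) → ℝ) :
    Ex p (fun ω => c * f ω) = c * Ex p f := by
  unfold Ex
  rw [mul_sum]
  exact sum_congr rfl fun ω _ => by ring

lemma Ex_sum {ι : Type*} (p : E → ℝ) (s : Finset ι) (f : ι → (E → Bool) → ℝ) :
    Ex p (fun ω => ∑ i ∈ s, f i ω) = ∑ i ∈ s, Ex p (f i) := by
  unfold Ex
  rw [sum_comm]
  exact sum_congr rfl fun ω _ => by rw [mul_sum]

lemma Ex_mono {p : E → ℝ} (h0 : ∀ e, 0 ≤ p e) (h1 : ∀ e, p e ≤ 1)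
    {f g : (E → Bool) → ℝ} (h : ∀ ω, f ω ≤ g ω) : Ex p f ≤ Ex p g :=
  sum_le_sum fun ω _ => mul_le_mul_of_nonneg_left (h ω) (wt_nonneg h0 h1 ω)

lemma Ex_nonneg {p : E → ℝ} (h0 : ∀ e, 0 ≤ p e) (h1 : ∀ e, p e ≤ 1)
    {f : (E → Bool) → ℝ} (h : ∀ ω, 0 ≤ f ω) : 0 ≤ Ex p f :=
  sum_nonneg fun ω _ => mul_nonneg (wt_nonneg h0 h1 ω) (h ω)

lemma Ex_congr {p : E → ℝ} {f g : (E → Bool) → ℝ} (h : ∀ ω, f ω = g ω) : Ex p f = Ex p g :=
  congrArg (Ex p) (funext h)

/-- combine two configurations -/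
def mix (S : Finset E) (ω η : E → Bool) : E → Bool := fun e => if e ∈ S then ω e else η e

lemma mix_mix (S : Finset E) (ω η : E → Bool) : mix S (mix S ω η) (mix S η ω) = ω := by
  funext e
  unfold mix
  by_cases h : e ∈ S <;> simp [h]

lemma wt_mix (p : E → ℝ) (S : Finset E) (ω η : E → Bool) :
    wt p (mix S ω η) * wt p (mix S η ω) = wt p ω * wt p η := by
  unfold wt
  rw [← prod_mul_distrib, ← prod_mul_distrib]
  refine prod_congr rfl fun e _ => ?_
  unfold mix
  by_cases h : e ∈ S <;> simp [h, mul_comm]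

/-- independence -/
lemma Ex_indep (p : E → ℝ) (S : Finset E) {f g : (E → Bool) → ℝ}
    (hf : ∀ ω η, (∀ e ∈ S, ω e = η e) → f ω = f η)
    (hg : ∀ ω η, (∀ e, e ∉ S → ω e = η e) → g ω = g η) :
    Ex p (fun ω => f ω * g ω) = Ex p f * Ex p g := by
  have h1 : Ex p f * Ex p g = ∑ x : (E → Bool) × (E → Bool),
      wt p x.1 * wt p x.2 * (f x.1 * g x.2) := by
    unfold Ex
    rw [sum_mul_sum, Fintype.sum_prod_type]
    exact sum_congr rfl fun ω _ => sum_congr rfl fun η _ => by ring
  have h2 : ∑ x : (E → Bool) × (E → Bool), wt p x.1 * wt p x.2 * (f x.1 * g x.2) =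
      ∑ x : (E → Bool) × (E → Bool), wt p x.1 * wt p x.2 * (f x.1 * g x.1) := by
    refine Finset.sum_nbij' (fun x => (mix S x.1 x.2, mix S x.2 x.1))
      (fun x => (mix S x.1 x.2, mix S x.2 x.1)) (fun _ _ => mem_univ _) (fun _ _ => mem_univ _)
      (fun x _ => ?_) (fun x _ => ?_) (fun x _ => ?_)
    · simp [mix_mix]
    · simp [mix_mix]
    · simp only
      rw [wt_mix, hf (mix S x.1 x.2) x.1 (fun e he => by simp [mix, he]),
        hg (mix S x.1 x.2) x.2 (fun e he => by simp [mix, he])]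
  rw [h1, h2, Fintype.sum_prod_type]
  unfold Ex
  refine sum_congr rfl fun ω _ => ?_
  have : ∑ η : E → Bool, wt p ω * wt p η * (f ω * g ω) =
      (wt p ω * (f ω * g ω)) * ∑ η : E → Bool, wt p η := by
    rw [mul_sum]
    exact sum_congr rfl fun η _ => by ring
  rw [this, sum_wt, mul_one]

/-- set a coordinate -/
def upd (ω : E → Bool) (e : E) (b : Bool) : E → Bool := Function.update ω e b

lemma upd_same (ω : E → Bool) (e : E) (b : Bool) : upd ω e b e = b := by simp [upd]

lemma upd_ne (ω : E → Bool) {e e' : E} (h : e' ≠ e) (b : Bool) : upd ω e b e' = ω e' := by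
  simp [upd, h]

lemma upd_self (ω : E → Bool) (e : E) : upd ω e (ω e) = ω := by simp [upd]

lemma upd_upd (ω : E → Bool) (e : E) (b c : Bool) : upd (upd ω e b) e c = upd ω e c := by
  simp [upd]

lemma sum_flip (e : E) (F : (E → Bool) → ℝ) :
    ∑ ω : E → Bool, F ω = ∑ ω : E → Bool, F (upd ω e (!(ω e))) := by
  refine Finset.sum_nbij' (fun ω => upd ω e (!(ω e))) (fun ω => upd ω e (!(ω e)))
    (fun _ _ => mem_univ _) (fun _ _ => mem_univ _) (fun ω _ => ?_) (fun ω _ => ?_)
    (fun ω _ => ?_)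
  · simp [upd_upd, upd_same, upd_self]
  · simp [upd_upd, upd_same, upd_self]
  · simp [upd_upd, upd_same, upd_self]

/-- weight of the other coordinates -/
def wr (p : E → ℝ) (e : E) (ω : E → Bool) : ℝ := ∏ j ∈ univ.erase e, w1 (p j) (ω j)

lemma wt_eq (p : E → ℝ) (e : E) (ω : E → Bool) : wt p ω = w1 (p e) (ω e) * wr p e ω := by
  unfold wt wr
  rw [← Finset.mul_prod_erase univ _ (mem_univ e)]

lemma wr_upd (p : E → ℝ) (e : E) (ω : E → Bool) (b : Bool) : wr p e (upd ω e b) = wr p e ω := by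
  unfold wr
  refine prod_congr rfl fun j hj => ?_
  rw [upd_ne ω (ne_of_mem_erase hj)]

lemma Ex_upd (p : E → ℝ) (e : E) (h : (E → Bool) → ℝ) :
    Ex p (fun ω => h (upd ω e true) + h (upd ω e false)) = ∑ ω, wr p e ω * h ω := by
  have key : ∀ ω : E → Bool, h (upd ω e true) + h (upd ω e false) =
      h (upd ω e (ω e)) + h (upd ω e (!(ω e))) := by
    intro ω
    cases ω e
    · simp [add_comm]
    · simp
  have h1 : Ex p (fun ω => h (upd ω e true) + h (upd ω e false)) +
      Ex p (fun ω => h (upd ω e true) + h (upd ω e false)) =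
      ∑ ω, wr p e ω * (h (upd ω e true) + h (upd ω e false)) := by
    conv_lhs =>
      unfold Ex
      arg 2
      rw [sum_flip e]
    rw [← sum_add_distrib]
    refine sum_congr rfl fun ω _ => ?_
    rw [wt_eq p e, wt_eq p e, wr_upd, upd_same]
    simp only [upd_upd]
    have := w1_add_not (p e) (ω e)
    linear_combination (wr p e ω * (h (upd ω e true) + h (upd ω e false))) * this
  have h2 : ∑ ω, wr p e ω * (h (upd ω e true) + h (upd ω e false)) =
      ∑ ω, wr p e ω * h ω + ∑ ω, wr p e ω * h ω := by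
    conv_rhs =>
      arg 2
      rw [sum_flip e]
    rw [← sum_add_distrib]
    refine sum_congr rfl fun ω _ => ?_
    rw [key, wr_upd, upd_self]
    ring
  linarith

/-- splitting off one coordinate -/
lemma Ex_split (p : E → ℝ) (e : E) (f : (E → Bool) → ℝ) :
    Ex p f = p e * Ex p (fun ω => f (upd ω e true)) +
      (1 - p e) * Ex p (fun ω => f (upd ω e false)) := by
  have h := Ex_upd p e (fun ω => w1 (p e) (ω e) * f ω)
  have h2 : ∑ ω, wr p e ω * (w1 (p e) (ω e) * f ω) = Ex p f := by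
    unfold Ex
    refine sum_congr rfl fun ω _ => ?_
    rw [wt_eq p e]; ring
  rw [h2] at h
  rw [← h, Ex_add]
  simp only [upd_same, w1_true, w1_false]
  rw [Ex_smul, Ex_smul]

/-- Russo's formula -/
lemma Ex_deriv {p : ℝ → E → ℝ} {p' : E → ℝ} {s : ℝ}
    (hp : ∀ e, HasDerivAt (fun t => p t e) (p' e) s) (f : (E → Bool) → ℝ) :
    HasDerivAt (fun t => Ex (p t) f)
      (∑ e, p' e * Ex (p s) (fun ω => f (upd ω e true) - f (upd ω e false))) s := by
  have hw : ∀ (e : E) (b : Bool), HasDerivAt (fun t => w1 (p t e) b)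
      (p' e * (if b then 1 else -1)) s := by
    intro e b
    cases b
    · simpa using (hp e).const_sub 1
    · simpa using hp e
  have hwt : ∀ ω : E → Bool, HasDerivAt (fun t => wt (p t) ω)
      (∑ e, wr (p s) e ω * (p' e * (if ω e then 1 else -1))) s := by
    intro ω
    have := HasDerivAt.fun_finsetProd (u := (univ : Finset E)) (f := fun e t => w1 (p t e) (ω e))
      (f' := fun e => p' e * (if ω e then 1 else -1)) (x := s) (fun e _ => hw e (ω e))
    simpa [wt, wr, smul_eq_mul] using this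
  have h1 : HasDerivAt (fun t => Ex (p t) f)
      (∑ ω, (∑ e, wr (p s) e ω * (p' e * (if ω e then 1 else -1))) * f ω) s := by
    unfold Ex
    exact HasDerivAt.fun_sum fun ω _ => (hwt ω).mul_const (f ω)
  convert h1 using 1
  simp_rw [sum_mul]
  rw [sum_comm]
  refine sum_congr rfl fun e _ => ?_
  have h2 := Ex_upd (p s) e (fun ω => (if ω e then 1 else -1) * f ω)
  have h3 : (fun ω : E → Bool => f (upd ω e true) - f (upd ω e false)) = fun ω =>
      ((if upd ω e true e then (1 : ℝ) else -1) * f (upd ω e true) +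
      (if upd ω e false e then (1 : ℝ) else -1) * f (upd ω e false)) := by
    funext ω
    simp [upd_same]
    ring
  rw [h3, h2, mul_sum]
  exact sum_congr rfl fun ω _ => by ring

/-- Monotone functions of the configuration have monotone expectation. -/
lemma Ex_mono_p {p q : E → ℝ} (hp0 : ∀ e, 0 ≤ p e) (hq1 : ∀ e, q e ≤ 1) (hpq : ∀ e, p e ≤ q e)
    {f : (E → Bool) → ℝ} (hf : Monotone f) : Ex p f ≤ Ex q f := by
  have hd : ∀ s : ℝ, HasDerivAt (fun t => Ex (fun e => p e + t * (q e - p e)) f)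
      (∑ e, (q e - p e) * Ex (fun e => p e + s * (q e - p e))
        (fun ω => f (upd ω e true) - f (upd ω e false))) s := by
    intro s
    refine Ex_deriv (p := fun t e => p e + t * (q e - p e)) (p' := fun e => q e - p e)
      (fun e => ?_) f
    have := ((hasDerivAt_id s).mul_const (q e - p e)).const_add (p e)
    simpa using this
  have hm : MonotoneOn (fun t => Ex (fun e => p e + t * (q e - p e)) f) (Set.Icc 0 1) := by
    refine monotoneOn_of_deriv_nonneg (convex_Icc 0 1)
      (fun s _ => (hd s).continuousAt.continuousWithinAt)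
      (fun s _ => (hd s).differentiableAt.differentiableWithinAt) (fun s hs => ?_)
    rw [(hd s).deriv]
    rw [interior_Icc] at hs
    refine sum_nonneg fun e _ => mul_nonneg (by linarith [hpq e]) ?_
    refine Ex_nonneg (fun e => ?_) (fun e => ?_) fun ω => ?_
    · have : 0 ≤ s * (q e - p e) := mul_nonneg hs.1.le (by linarith [hpq e])
      linarith [hp0 e]
    · have : s * (q e - p e) ≤ 1 * (q e - p e) :=
        mul_le_mul_of_nonneg_right hs.2.le (by linarith [hpq e])
      linarith [hq1 e]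
    · have : f (upd ω e false) ≤ f (upd ω e true) := by
        refine hf fun j => ?_
        by_cases hj : j = e
        · subst hj; simp [upd_same]
        · simp [upd_ne _ hj]
      linarith
  have := hm (Set.left_mem_Icc.2 zero_le_one) (Set.right_mem_Icc.2 zero_le_one) zero_le_one
  simpa using this

end Pool.Agent.Helper97.Dyn
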