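import Mathlib
import Pool.Agent.Helper97.Dyn.Ber

/-!
Marginals, coordinate flips and the expansion of product Bernoulli expectations with
parameters `1 - exp (-r h)` for small `h`.
-/

open Finset

set_option linter.unusedSectionVars false

namespace Pool.Agent.Helper97.Dyn

variable {E : Type*} [Fintype E] [DecidableEq E]

lemma Ex_slice {K Y : Type*} [Fintype K] [DecidableEq K] [Fintype Y] [DecidableEq Y]
    (p : K × Y → ℝ) (k : K) (F : (Y → Bool) → ℝ) :
    Ex p (fun ω => F (fun y => ω (k, y))) = Ex (fun y => p (k, y)) F := by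
  have h1 : ∀ ω : K × Y → Bool, F (fun y => ω (k, y)) =
      ∑ ζ : Y → Bool, F ζ * ∏ e : K × Y, (if e.1 = k then (if ω e = ζ e.2 then 1 else 0) else 1) := by
    intro ω
    rw [Finset.sum_eq_single (fun y => ω (k, y))]
    · have : ∏ e : K × Y, (if e.1 = k then (if ω e = ω (k, e.2) then (1 : ℝ) else 0) else 1) = 1 := by
        refine prod_eq_one fun e _ => ?_
        by_cases he : e.1 = k
        · have : e = (k, e.2) := by rw [← he]
          rw [if_pos he, if_pos (by rw [← this])]
        · rw [if_neg he]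
      rw [this, mul_one]
    · intro ζ _ hζ
      have : ∃ y, ω (k, y) ≠ ζ y := by
        by_contra hcon
        push Not at hcon
        exact hζ (funext fun y => (hcon y).symm)
      obtain ⟨y, hy⟩ := this
      rw [prod_eq_zero (mem_univ (k, y)) (by simp [hy]), mul_zero]
    · intro h
      exact absurd (mem_univ _) h
  rw [Ex_congr h1, Ex_sum]
  unfold Ex
  refine sum_congr rfl fun ζ _ => ?_
  have h2 := Ex_smul p (F ζ) (fun ω => ∏ e : K × Y,
    (if e.1 = k then (if ω e = ζ e.2 then (1 : ℝ) else 0) else 1))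
  unfold Ex at h2
  rw [h2, mul_comm]
  congr 1
  have h3 := Ex_prod p (fun e b => if e.1 = k then (if b = ζ e.2 then (1 : ℝ) else 0) else 1)
  unfold Ex at h3
  rw [h3, Fintype.prod_prod_type, Finset.prod_eq_single k]
  · unfold wt
    refine prod_congr rfl fun y _ => ?_
    cases hz : ζ y <;> simp
  · intro j _ hj
    refine prod_eq_one fun y _ => ?_
    simp [hj]
  · intro h
    exact absurd (mem_univ _) h

lemma Ex_flip (p : E → ℝ) (D : E → Bool) (f : (E → Bool) → ℝ) :
    Ex p f = Ex (fun e => if D e then 1 - p e else p e) (fun ω => f (fun e => xor (D e) (ω e))) := by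
  unfold Ex
  refine Finset.sum_nbij' (fun ω e => xor (D e) (ω e)) (fun ω e => xor (D e) (ω e))
    (fun _ _ => mem_univ _) (fun _ _ => mem_univ _) (fun ω _ => ?_) (fun ω _ => ?_)
    (fun ω _ => ?_)
  · funext e; simp
  · funext e; simp
  · congr 1
    · unfold wt
      refine prod_congr rfl fun e _ => ?_
      cases hD : D e <;> cases hω : ω e <;> simp [hD, hω]
    · congr 1
      funext e
      simp

/-- all coordinates off -/
def zer : E → Bool := fun _ => false

/-- exactly one coordinate on -/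
def one1 (e : E) : E → Bool := upd zer e true

lemma one1_ne_zer (e : E) : one1 e ≠ zer := by
  intro h
  have := congrFun h e
  simp [one1, upd_same, zer] at this

lemma one1_inj {e e' : E} (h : one1 e = one1 e') : e = e' := by
  by_contra hne
  have := congrFun h e
  rw [one1, one1, upd_same, upd_ne _ hne] at this
  simp [zer] at this

lemma abs_exp_neg {x : ℝ} (h0 : 0 ≤ x) (h1 : x ≤ 1) : |Real.exp (-x) - 1 + x| ≤ x ^ 2 := by
  have := Real.abs_exp_sub_one_sub_id_le (x := -x) (by rw [abs_neg, abs_of_nonneg h0]; exact h1)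
  have h2 : Real.exp (-x) - 1 - -x = Real.exp (-x) - 1 + x := by ring
  rw [h2] at this
  simpa using this

lemma one_sub_exp_nonneg {x : ℝ} (h0 : 0 ≤ x) : 0 ≤ 1 - Real.exp (-x) := by
  have : Real.exp (-x) ≤ 1 := Real.exp_le_one_iff.2 (by linarith)
  linarith

lemma one_sub_exp_le (x : ℝ) : 1 - Real.exp (-x) ≤ x := by
  have := Real.add_one_le_exp (-x)
  linarith

lemma one_sub_exp_le_one (x : ℝ) : 1 - Real.exp (-x) ≤ 1 := by
  have := Real.exp_pos (-x)
  linarith

lemma wt_small (r : E → ℝ) (hr : ∀ e, 0 ≤ r e) {h : ℝ} (h0 : 0 ≤ h)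
    (h1 : (∑ e, r e) * h ≤ 1) (ω : E → Bool) :
    |wt (fun e => 1 - Real.exp (-(r e * h))) ω - (if ω = zer then 1 else 0) -
      h * ∑ e, r e * ((if ω = one1 e then 1 else 0) - (if ω = zer then 1 else 0))| ≤
      2 * (∑ e, r e) ^ 2 * h ^ 2 := by
  set R := ∑ e, r e with hR
  have hR0 : 0 ≤ R := sum_nonneg fun e _ => hr e
  have hle : ∀ e, r e ≤ R := fun e => single_le_sum (f := r) (fun e _ => hr e) (mem_univ e)
  have hRh : 0 ≤ R * h := mul_nonneg hR0 h0
  have hx0 : ∀ e, 0 ≤ r e * h := fun e => mul_nonneg (hr e) h0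
  have hxR : ∀ e, r e * h ≤ R * h := fun e => mul_le_mul_of_nonneg_right (hle e) h0
  have hp0 : ∀ e, 0 ≤ 1 - Real.exp (-(r e * h)) := fun e => one_sub_exp_nonneg (hx0 e)
  have hp1 : ∀ e, 1 - Real.exp (-(r e * h)) ≤ 1 := fun e => one_sub_exp_le_one _
  by_cases hz : ω = zer
  · subst hz
    have e1 : wt (fun e => 1 - Real.exp (-(r e * h))) (zer : E → Bool) = Real.exp (-(R * h)) := by
      unfold wt zer
      simp only [w1_false, sub_sub_cancel]
      rw [← Real.exp_sum]
      congr 1
      rw [sum_neg_distrib, ← sum_mul]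
    have e2 : ∑ e, r e * ((if (zer : E → Bool) = one1 e then (1 : ℝ) else 0) -
        (if (zer : E → Bool) = zer then 1 else 0)) = -R := by
      rw [hR, ← sum_neg_distrib]
      refine sum_congr rfl fun e _ => ?_
      rw [if_neg (one1_ne_zer e).symm, if_pos rfl]
      ring
    rw [e1, e2, if_pos rfl]
    have := abs_exp_neg hRh h1
    have e3 : Real.exp (-(R * h)) - 1 - h * -R = Real.exp (-(R * h)) - 1 + R * h := by ring
    rw [e3]
    refine this.trans ?_
    have : 0 ≤ R ^ 2 * h ^ 2 := by positivity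
    calc (R * h) ^ 2 = R ^ 2 * h ^ 2 := by ring
      _ ≤ 2 * R ^ 2 * h ^ 2 := by linarith
  rw [if_neg hz]
  by_cases ho : ∃ e, ω = one1 e
  · obtain ⟨e, rfl⟩ := ho
    have e2 : ∑ e', r e' * ((if one1 e = one1 e' then (1 : ℝ) else 0) - 0) = r e := by
      rw [Finset.sum_eq_single e]
      · simp
      · intro b _ hb
        rw [if_neg (fun hh => hb (one1_inj hh).symm)]
        ring
      · intro hh; exact absurd (mem_univ _) hh
    rw [e2, wt_eq _ e]
    have e3 : (one1 e : E → Bool) e = true := by simp [one1, upd_same]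
    rw [e3, w1_true]
    set b := wr (fun e => 1 - Real.exp (-(r e * h))) e (one1 e) with hb
    have hb1 : b = Real.exp (-(∑ j ∈ univ.erase e, r j * h)) := by
      rw [hb]
      unfold wr
      rw [← sum_neg_distrib, Real.exp_sum]
      refine prod_congr rfl fun j hj => ?_
      have : (one1 e : E → Bool) j = false := by
        rw [one1, upd_ne _ (ne_of_mem_erase hj)]; rfl
      rw [this, w1_false]
      ring
    have hs0 : 0 ≤ ∑ j ∈ univ.erase e, r j * h := sum_nonneg fun j _ => hx0 j
    have hsR : ∑ j ∈ univ.erase e, r j * h ≤ R * h := by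
      rw [hR, sum_mul]
      exact sum_le_sum_of_subset_of_nonneg (erase_subset _ _) fun j _ _ => hx0 j
    have hb2 : b ≤ 1 := by rw [hb1]; exact Real.exp_le_one_iff.2 (by linarith)
    have hb0 : 0 ≤ b := by rw [hb1]; exact (Real.exp_pos _).le
    have hb3 : 1 - b ≤ R * h := by
      rw [hb1]
      exact (one_sub_exp_le _).trans hsR
    set x := r e * h with hx
    have ha := abs_exp_neg (hx0 e) ((hxR e).trans h1)
    rw [← hx] at ha
    have e4 : (1 - Real.exp (-x)) * b - 0 - h * r e =
        -((Real.exp (-x) - 1 + x) * b) - x * (1 - b) := by rw [hx]; ring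
    rw [e4]
    have h5 : |(Real.exp (-x) - 1 + x) * b| ≤ x ^ 2 := by
      rw [abs_mul, abs_of_nonneg hb0]
      calc _ ≤ x ^ 2 * 1 := mul_le_mul ha hb2 hb0 (sq_nonneg _)
        _ = _ := mul_one _
    have h6 : |x * (1 - b)| ≤ (R * h) * (R * h) := by
      rw [abs_mul, abs_of_nonneg (hx0 e), abs_of_nonneg (by linarith)]
      exact mul_le_mul (hxR e) hb3 (by linarith) hRh
    have h7 : x ^ 2 ≤ (R * h) * (R * h) := by
      rw [sq]; exact mul_le_mul (hxR e) (hxR e) (hx0 e) hRh
    calc |-((Real.exp (-x) - 1 + x) * b) - x * (1 - b)|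
        ≤ |-((Real.exp (-x) - 1 + x) * b)| + |x * (1 - b)| := abs_sub _ _
      _ ≤ (R * h) * (R * h) + (R * h) * (R * h) := by
          rw [abs_neg]; exact add_le_add (h5.trans h7) h6
      _ = 2 * R ^ 2 * h ^ 2 := by ring
  · push Not at ho
    have e2 : ∑ e', r e' * ((if ω = one1 e' then (1 : ℝ) else 0) - 0) = 0 := by
      refine sum_eq_zero fun e _ => ?_
      rw [if_neg (ho e)]; ring
    rw [e2]
    have hex : ∃ e, ω e = true := by
      by_contra hcon
      push Not at hcon
      exact hz (funext fun e => by simpa [zer] using hcon e)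
    obtain ⟨e, he⟩ := hex
    have hex2 : ∃ j, j ≠ e ∧ ω j = true := by
      by_contra hcon
      push Not at hcon
      refine ho e (funext fun j => ?_)
      by_cases hj : j = e
      · subst hj; rw [he, one1, upd_same]
      · rw [one1, upd_ne _ hj]
        simpa [zer] using hcon j hj
    obtain ⟨j, hje, hj⟩ := hex2
    have hw : wt (fun e => 1 - Real.exp (-(r e * h))) ω ≤ (r e * h) * (r j * h) := by
      rw [wt_eq _ e, he, w1_true]
      unfold wr
      rw [← Finset.mul_prod_erase _ _ (Finset.mem_erase.2 ⟨hje, mem_univ j⟩), hj, w1_true]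
      have hpr : ∏ x ∈ (univ.erase e).erase j, w1 (1 - Real.exp (-(r x * h))) (ω x) ≤ 1 := by
        refine prod_le_one (fun i _ => w1_nonneg (hp0 i) (hp1 i) _) fun i _ => ?_
        have h8 := w1_add_not (1 - Real.exp (-(r i * h))) (ω i)
        have h9 := w1_nonneg (hp0 i) (hp1 i) (!(ω i))
        linarith
      have hpr0 : 0 ≤ ∏ x ∈ (univ.erase e).erase j, w1 (1 - Real.exp (-(r x * h))) (ω x) :=
        prod_nonneg fun i _ => w1_nonneg (hp0 i) (hp1 i) _
      calc (1 - Real.exp (-(r e * h))) * ((1 - Real.exp (-(r j * h))) * _)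
          ≤ (1 - Real.exp (-(r e * h))) * ((1 - Real.exp (-(r j * h))) * 1) := by
            gcongr
            · exact hp0 e
            · exact hp0 j
        _ ≤ (r e * h) * (r j * h) := by
            rw [mul_one]
            exact mul_le_mul (one_sub_exp_le _) (one_sub_exp_le _) (hp0 j) (hx0 e)
    have hw0 := wt_nonneg hp0 hp1 ω
    have e5 : wt (fun e => 1 - Real.exp (-(r e * h))) ω - 0 - h * 0 =
      wt (fun e => 1 - Real.exp (-(r e * h))) ω := by ring
    rw [e5, abs_of_nonneg hw0]
    calc _ ≤ (r e * h) * (r j * h) := hw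
      _ ≤ (R * h) * (R * h) := mul_le_mul (hxR e) (hxR j) (hx0 j) hRh
      _ ≤ 2 * R ^ 2 * h ^ 2 := by nlinarith [mul_nonneg hRh hRh]

/-- constant of the expansion -/
noncomputable def smallC (r : E → ℝ) : ℝ := 2 * (∑ e, r e) ^ 2 * Fintype.card (E → Bool)

lemma smallC_nonneg (r : E → ℝ) : 0 ≤ smallC r := by unfold smallC; positivity

lemma Ex_small (r : E → ℝ) (hr : ∀ e, 0 ≤ r e) {h : ℝ} (h0 : 0 ≤ h)
    (h1 : (∑ e, r e) * h ≤ 1) {f : (E → Bool) → ℝ} {B : ℝ} (hf : ∀ ω, |f ω| ≤ B) :
    |Ex (fun e => 1 - Real.exp (-(r e * h))) f - f zer - h * ∑ e, r e * (f (one1 e) - f zer)| ≤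
      smallC r * B * h ^ 2 := by
  have hB : 0 ≤ B := (abs_nonneg _).trans (hf zer)
  have e1 : f zer = ∑ ω, (if ω = zer then 1 else 0) * f ω := by
    rw [Finset.sum_eq_single zer]
    · simp
    · intro b _ hb; simp [hb]
    · intro hh; exact absurd (mem_univ _) hh
  have e2 : ∀ e, f (one1 e) = ∑ ω, (if ω = one1 e then 1 else 0) * f ω := by
    intro e
    rw [Finset.sum_eq_single (one1 e)]
    · simp
    · intro b _ hb; simp [hb]
    · intro hh; exact absurd (mem_univ _) hh
  have e3 : ∑ e, r e * (f (one1 e) - f zer) = ∑ ω, (∑ e, r e *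
      ((if ω = one1 e then 1 else 0) - (if ω = zer then 1 else 0))) * f ω := by
    simp_rw [sum_mul]
    rw [sum_comm]
    refine sum_congr rfl fun e _ => ?_
    conv_lhs => rw [e2 e, e1, ← sum_sub_distrib, mul_sum]
    exact sum_congr rfl fun ω _ => by ring
  have e4 : Ex (fun e => 1 - Real.exp (-(r e * h))) f - f zer -
      h * ∑ e, r e * (f (one1 e) - f zer) =
      ∑ ω, (wt (fun e => 1 - Real.exp (-(r e * h))) ω - (if ω = zer then 1 else 0) -
      h * ∑ e, r e * ((if ω = one1 e then 1 else 0) - (if ω = zer then 1 else 0))) * f ω := by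
    rw [e3]
    conv_lhs => rw [e1]
    unfold Ex
    rw [mul_sum, ← sum_sub_distrib, ← sum_sub_distrib]
    exact sum_congr rfl fun ω _ => by ring
  rw [e4]
  refine (abs_sum_le_sum_abs _ _).trans ?_
  calc _ ≤ ∑ _ω : E → Bool, 2 * (∑ e, r e) ^ 2 * h ^ 2 * B := by
        refine sum_le_sum fun ω _ => ?_
        rw [abs_mul]
        exact mul_le_mul (wt_small r hr h0 h1 ω) (hf ω) (abs_nonneg _) (by positivity)
    _ = smallC r * B * h ^ 2 := by
        rw [sum_const, card_univ, nsmul_eq_mul]
        unfold smallC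
        ring

end Pool.Agent.Helper97.Dyn
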