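import Mathlib

/-!
Contact process on dynamical long-range percolation: graphical construction and critical values.
-/

open MeasureTheory ProbabilityTheory
open scoped ENNReal NNReal

namespace Pool.Agent.Helper97.Dyn

/-- Law of the gaps of a Poisson process of rate one: independent standard exponentials. -/
noncomputable def gapLaw : Measure (ℕ → ℝ) := Measure.infinitePi fun _ : ℕ => expMeasure 1

/-- The points in `(0, ∞)` of the Poisson process of rate `r` built from the gaps `a`
(the points of the unit rate process divided by `r`; no point if `r = 0`). -/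
def ringSet (r : ℝ) (a : ℕ → ℝ) : Set ℝ :=
  {t | 0 < t ∧ ∃ n : ℕ, r * t = ∑ i ∈ Finset.range (n + 1), a i}

/-- The independent clocks of the graphical construction: one recovery clock per vertex and, per
pair of vertices, one infection clock and two clocks moving the pair to open and to closed. -/
inductive Clock (V : Type*)
  | heal : V → Clock V
  | arrow : Sym2 V → Clock V
  | up : Sym2 V → Clock V
  | down : Sym2 V → Clock V

/-- The noise: a gap sequence for every clock, and a number in `[0, 1]` for every pair. -/
abbrev Noise (V : Type*) := (Clock V → ℕ → ℝ) × (Sym2 V → ℝ)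

/-- The law of the noise: everything is independent, the gaps are standard exponentials, the
numbers are uniform on `[0, 1]`. -/
noncomputable def noiseLaw (V : Type*) : Measure (Noise V) :=
  (Measure.infinitePi fun _ : Clock V => gapLaw).prod
    (Measure.infinitePi fun _ : Sym2 V => volume.restrict (Set.Icc (0 : ℝ) 1))

/-- Status at time `t` of a pair which is open at time `0` iff `init`, and which becomes open at
the times in `up` and closed at the times in `down`. -/
def OpenAt (up down : Set ℝ) (init : Prop) (t : ℝ) : Prop :=
  (∃ u ∈ up, u ≤ t ∧ ∀ d ∈ down, ¬ (u < d ∧ d ≤ t)) ∨ (init ∧ ∀ d ∈ down, ¬ d ≤ t)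

/-- `Reach arr heal x y t`: the infection started at time `0` from the vertex `x` alone reaches
the vertex `y` at time `t`, when it crosses the pair `e` (in both directions) at the times in
`arr e`, and the vertex `z` recovers at the times in `heal z`. -/
inductive Reach {V : Type*} (arr : Sym2 V → Set ℝ) (heal : V → Set ℝ) (x : V) : V → ℝ → Prop
  | start : Reach arr heal x x 0
  | wait {y : V} {s t : ℝ} : Reach arr heal x y s → s ≤ t →
      (∀ u ∈ heal y, ¬ (s < u ∧ u ≤ t)) → Reach arr heal x y t
  | jump {y z : V} {t : ℝ} : Reach arr heal x y t → y ≠ z → t ∈ arr s(y, z) →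
      Reach arr heal x z t

/-- The infection started from `x` survives: at every time some vertex is infected. -/
def Survives {V : Type*} (arr : Sym2 V → Set ℝ) (heal : V → Set ℝ) (x : V) : Prop :=
  ∀ t : ℝ, 0 ≤ t → ∃ y, Reach arr heal x y t

section Weights

variable {V : Type*} (lam : ℝ) (π ν : Sym2 V → ℝ) (ω : Noise V)

/-- recovery times: rate one at every vertex -/
def healTimes (x : V) : Set ℝ := ringSet 1 (ω.1 (.heal x))

/-- The pair `e` at time `t`: at time zero it is open with probability `π e`; it moves to open at
rate `ν e * π e` and to closed at rate `ν e * (1 - π e)`. -/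
def EdgeOpen (e : Sym2 V) (t : ℝ) : Prop :=
  OpenAt (ringSet (ν e * π e) (ω.1 (.up e))) (ringSet (ν e * (1 - π e)) (ω.1 (.down e)))
    (ω.2 e < π e) t

/-- Times at which the infection can cross `e` in the dynamic process: the points of a Poisson
process of rate `lam` at which `e` is open. -/
def dynTimes (e : Sym2 V) : Set ℝ := {t | t ∈ ringSet lam (ω.1 (.arrow e)) ∧ EdgeOpen π ν ω e t}

/-- Times at which the infection can cross `e` in the static process: the points of a Poisson
process of rate `lam * π e`. -/
def statTimes (e : Sym2 V) : Set ℝ := ringSet (lam * π e) (ω.1 (.arrow e))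

/-- survival probability of the contact process on the dynamical pairs -/
noncomputable def dynTheta (x : V) : ℝ :=
  (noiseLaw V).real {ω | Survives (dynTimes lam π ν ω) (healTimes ω) x}

/-- survival probability of the static contact process with infection kernel `lam * π` -/
noncomputable def statTheta (x : V) : ℝ :=
  (noiseLaw V).real {ω | Survives (statTimes lam π ω) (healTimes ω) x}

/-- infimum of the infection rates `λ ≥ 0` with positive survival probability, dynamic process -/
noncomputable def dynCrit (π ν : Sym2 V → ℝ) (x : V) : ℝ≥0∞ :=
  ⨅ (l : ℝ≥0) (_ : 0 < dynTheta l π ν x), (l : ℝ≥0∞)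

/-- infimum of the infection rates `λ ≥ 0` with positive survival probability, static process -/
noncomputable def statCrit (π : Sym2 V → ℝ) (x : V) : ℝ≥0∞ :=
  ⨅ (l : ℝ≥0) (_ : 0 < statTheta l π x), (l : ℝ≥0∞)

end Weights

/-- the weight `f (d x y)` on the pair `{x, y}` -/
noncomputable def distWeight {V : Type*} (G : SimpleGraph V) (f : ℕ → ℝ) : Sym2 V → ℝ :=
  Sym2.lift ⟨fun x y => f (G.dist x y), fun _ _ => congrArg f G.dist_comm⟩

/-- `λ_c(γ, q)`: pairs at distance `k` flip at rates `γ v_k q p_k` (to open) and
`γ v_k (1 - q p_k)` (to closed). -/
noncomputable def lambdaC {V : Type*} (G : SimpleGraph V) (p v : ℕ → ℝ) (x : V) (γ q : ℝ) :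
    ℝ≥0∞ :=
  dynCrit (distWeight G fun k => q * p k) (distWeight G fun k => γ * v k) x

/-- `λ_c^∞(q)`: critical value of the static long-range contact process with infection kernel
`λ q p_k` at distance `k`. -/
noncomputable def lambdaInf {V : Type*} (G : SimpleGraph V) (p : ℕ → ℝ) (x : V) (q : ℝ) :
    ℝ≥0∞ :=
  statCrit (distWeight G fun k => q * p k) x

end Pool.Agent.Helper97.Dyn
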