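import Pool.Agent.Helper90.SlowRefresh.PoissonInv
import Pool.Agent.Helper97.Dyn.Ber
import Pool.Agent.Helper97.Dyn.Defs
import Mathlib

/-!
Poisson clocks given by independent unit exponential gaps: points, time shift, and the joint law
of the flag of `(0, h]` and of the shifted gaps.
-/

open MeasureTheory ProbabilityTheory Filter
open scoped ENNReal Topology

set_option linter.unusedSectionVars false

namespace Pool.Agent.Helper97.Dyn

open Pool.Agent.Helper90.SlowRefresh

instance : IsProbabilityMeasure gapLaw := by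
  unfold gapLaw
  infer_instance

/-- add a dummy coordinate -/
def lif (a : ℕ → ℝ) : EdgeData := fun i => (a i, 0)

/-- forget the dummy coordinate -/
def prj (a : EdgeData) : ℕ → ℝ := fun i => (a i).1

lemma lif_measurable : Measurable lif :=
  measurable_pi_lambda _ fun i => (measurable_pi_apply i).prodMk measurable_const

lemma prj_measurable : Measurable prj :=
  measurable_pi_lambda _ fun i => measurable_fst.comp (measurable_pi_apply i)

lemma lif_mp : MeasurePreserving lif gapLaw (eLaw (Measure.dirac 0)) := by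
  refine ⟨lif_measurable, ?_⟩
  unfold gapLaw eLaw
  have h := Measure.infinitePi_map_pi (μ := fun _ : ℕ => expMeasure 1)
    (f := fun _ : ℕ => fun x : ℝ => (x, (0 : ℝ))) (fun _ => measurable_id.prodMk measurable_const)
  have h2 : lif = fun (x : ℕ → ℝ) (i : ℕ) => (x i, (0 : ℝ)) := rfl
  rw [h2]
  refine h.trans ?_
  congr 1
  funext i
  unfold nu
  rw [Measure.prod_dirac]

lemma prj_mp : MeasurePreserving prj (eLaw (Measure.dirac 0)) gapLaw := by
  refine ⟨prj_measurable, ?_⟩
  rw [← lif_mp.map_eq, Measure.map_map prj_measurable lif_measurable]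
  have : prj ∘ lif = id := by funext a; rfl
  rw [this, Measure.map_id]

/-- gaps seen from time `ρ` -/
noncomputable def res (ρ : ℝ) (a : ℕ → ℝ) : ℕ → ℝ := prj (resid ρ (lif a))

lemma res_measurable (ρ : ℝ) : Measurable (res ρ) :=
  prj_measurable.comp ((resid_measurable.comp (measurable_const.prodMk measurable_id)).comp
    lif_measurable)

lemma res_mp {ρ : ℝ} (h : 0 ≤ ρ) : MeasurePreserving (res ρ) gapLaw gapLaw :=
  prj_mp.comp ((resid_mp _ h).comp lif_mp)

/-- nondegenerate gap sequences -/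
def GGood (a : ℕ → ℝ) : Prop := Good (lif a)

lemma ae_ggood : ∀ᵐ a ∂gapLaw, GGood a :=
  lif_mp.quasiMeasurePreserving.ae (ae_good _)

lemma lif_res (ρ : ℝ) (a : ℕ → ℝ) : lif (res ρ a) = resid ρ (lif a) := by
  funext k
  refine Prod.ext rfl ?_
  rfl

lemma GGood.res {a : ℕ → ℝ} (h : GGood a) {ρ : ℝ} (hρ : 0 ≤ ρ) : GGood (res ρ a) := by
  unfold GGood
  rw [lif_res]
  exact Good.resid h hρ

lemma ps_lif (a : ℕ → ℝ) (k : ℕ) : ps (lif a) k = ∑ i ∈ Finset.range k, a i := rfl

lemma GGood.ps_pos {a : ℕ → ℝ} (h : GGood a) (n : ℕ) : 0 < ps (lif a) (n + 1) := by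
  have h1 : ps (lif a) 1 ≤ ps (lif a) (n + 1) := Good.mono h (by omega)
  have h2 : ps (lif a) 1 = a 0 := by simp [ps_lif]
  have h3 : 0 < a 0 := h.pos 0
  linarith

/-- the points of the shifted clock -/
lemma ring_shift {a : ℕ → ℝ} (hg : GGood a) {r h t : ℝ} (hr : 0 ≤ r) (hh : 0 ≤ h) (ht : 0 < t) :
    t ∈ ringSet r (res (r * h) a) ↔ h + t ∈ ringSet r a := by
  have hrh : 0 ≤ r * h := mul_nonneg hr hh
  have hps : ∀ n, ∑ i ∈ Finset.range (n + 1), res (r * h) a i =
      ps (lif a) (cnt (r * h) (lif a) + n + 1) - r * h := by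
    intro n
    rw [← ps_lif, lif_res, ps_resid]
  constructor
  · rintro ⟨_, n, hn⟩
    refine ⟨by linarith, cnt (r * h) (lif a) + n, ?_⟩
    rw [hps] at hn
    rw [← ps_lif]
    linarith
  · rintro ⟨_, m, hm⟩
    refine ⟨ht, ?_⟩
    rw [← ps_lif] at hm
    have hmc : cnt (r * h) (lif a) ≤ m := by
      by_contra hlt
      push Not at hlt
      have h1 := Good.cnt_min hg hlt
      have h2 := hg.ps_pos m
      rw [← hm] at h1 h2
      have h3 : r * t ≤ 0 := by linarith
      have h4 : 0 ≤ r * t := mul_nonneg hr ht.le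
      have h5 : r * t = 0 := le_antisymm h3 h4
      have h6 : r = 0 := by
        rcases mul_eq_zero.1 h5 with h7 | h7
        · exact h7
        · exact absurd h7 ht.ne'
      rw [h6] at h2
      simp at h2
    refine ⟨m - cnt (r * h) (lif a), ?_⟩
    rw [hps, show cnt (r * h) (lif a) + (m - cnt (r * h) (lif a)) + 1 = m + 1 by omega, ← hm]
    ring

/-- a point in `(0, h]` -/
noncomputable def flg (r h : ℝ) (a : ℕ → ℝ) : Bool := open Classical in decide (a 0 ≤ r * h)

lemma flg_eq_false {r h : ℝ} {a : ℕ → ℝ} : flg r h a = false ↔ r * h < a 0 := by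
  unfold flg
  simp

lemma flg_eq_true {r h : ℝ} {a : ℕ → ℝ} : flg r h a = true ↔ a 0 ≤ r * h := by
  unfold flg
  simp

lemma flg_iff {a : ℕ → ℝ} (hg : GGood a) {r h : ℝ} (hr : 0 ≤ r) :
    flg r h a = true ↔ ∃ t ∈ ringSet r a, t ≤ h := by
  rw [flg_eq_true]
  constructor
  · intro h1
    have h0 : 0 < a 0 := hg.pos 0
    have hr' : 0 < r := by
      rcases hr.lt_or_eq with h2 | h2
      · exact h2
      · rw [← h2] at h1; simp at h1; linarith
    refine ⟨a 0 / r, ⟨div_pos h0 hr', 0, ?_⟩, ?_⟩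
    · simp; field_simp
    · rw [div_le_iff₀ hr']; linarith
  · rintro ⟨t, ⟨_, n, hn⟩, hth⟩
    have h1 : ps (lif a) 1 ≤ ps (lif a) (n + 1) := Good.mono hg (by omega)
    have h2 : ps (lif a) 1 = a 0 := by simp [ps_lif]
    rw [ps_lif _ (n + 1), ← hn, h2] at h1
    exact h1.trans (mul_le_mul_of_nonneg_left hth hr)

lemma measurableSet_flg (r h : ℝ) (b : Bool) : MeasurableSet {a : ℕ → ℝ | flg r h a = b} := by
  cases b
  · simp only [flg_eq_false]
    exact measurableSet_lt measurable_const (measurable_pi_apply 0)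
  · simp only [flg_eq_true]
    exact measurableSet_le (measurable_pi_apply 0) measurable_const

lemma lif_consSeq (z : ℝ) (w : ℕ → ℝ) : lif (consSeq z w) = consSeq (z, 0) (lif w) := by
  funext k
  cases k <;> rfl

lemma res_consSeq {ρ z : ℝ} (w : ℕ → ℝ) (h : ρ < z) : res ρ (consSeq z w) = consSeq (z - ρ) w := by
  unfold res
  rw [lif_consSeq, resid_consSeq_lt _ h]
  funext k
  cases k <;> rfl

/-- no point before time `ρ`: the shifted gaps have the original law -/
lemma no_ring {ρ : ℝ} (hρ : 0 ≤ ρ) {A : Set (ℕ → ℝ)} (hA : MeasurableSet A) :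
    gapLaw ({a | ρ < a 0} ∩ res ρ ⁻¹' A) = ENNReal.ofReal (Real.exp (-ρ)) * gapLaw A := by
  have hm0 : MeasurableSet {a : ℕ → ℝ | ρ < a 0} :=
    measurableSet_lt measurable_const (measurable_pi_apply 0)
  have hmS : MeasurableSet ({a : ℕ → ℝ | ρ < a 0} ∩ res ρ ⁻¹' A) :=
    hm0.inter (res_measurable ρ hA)
  have hind : Measurable fun a : ℕ → ℝ => A.indicator (1 : (ℕ → ℝ) → ℝ≥0∞) a :=
    measurable_one.indicator hA
  have hF := measurable_one.indicator hmS (α := ℕ → ℝ) (f := (1 : (ℕ → ℝ) → ℝ≥0∞))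
  rw [← lintegral_indicator_one hmS]
  have h1 : ∫⁻ a, ({a : ℕ → ℝ | ρ < a 0} ∩ res ρ ⁻¹' A).indicator 1 a ∂gapLaw =
      ∫⁻ z, ∫⁻ w, ({a : ℕ → ℝ | ρ < a 0} ∩ res ρ ⁻¹' A).indicator 1 (consSeq z w) ∂gapLaw
        ∂(expMeasure 1) := lintegral_consSeq (expMeasure 1) hF
  rw [h1]
  have h2 : ∀ z : ℝ, ∫⁻ w, ({a : ℕ → ℝ | ρ < a 0} ∩ res ρ ⁻¹' A).indicator (1 : (ℕ → ℝ) → ℝ≥0∞)
      (consSeq z w) ∂gapLaw =
      (Set.Ioi ρ).indicator (fun x => (fun x => ∫⁻ w, A.indicator (1 : (ℕ → ℝ) → ℝ≥0∞)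
        (consSeq x w) ∂gapLaw) (x - ρ)) z := by
    intro z
    by_cases hz : ρ < z
    · rw [Set.indicator_of_mem (by exact hz)]
      refine lintegral_congr fun w => ?_
      by_cases hw : res ρ (consSeq z w) ∈ A
      · rw [Set.indicator_of_mem, Set.indicator_of_mem]
        · rfl
        · rw [← res_consSeq w hz]; exact hw
        · exact ⟨hz, hw⟩
      · rw [Set.indicator_of_notMem, Set.indicator_of_notMem]
        · rw [← res_consSeq w hz]; exact hw
        · exact fun hh => hw hh.2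
    · rw [Set.indicator_of_notMem (by exact hz)]
      have : ∀ w : ℕ → ℝ, ({a : ℕ → ℝ | ρ < a 0} ∩ res ρ ⁻¹' A).indicator (1 : (ℕ → ℝ) → ℝ≥0∞)
          (consSeq z w) = 0 := by
        intro w
        rw [Set.indicator_of_notMem]
        exact fun hh => hz hh.1
      simp only [this, lintegral_zero]
  rw [lintegral_congr h2]
  have hg : Measurable fun x : ℝ => ∫⁻ w, A.indicator (1 : (ℕ → ℝ) → ℝ≥0∞) (consSeq x w) ∂gapLaw :=
    (hind.comp consSeq_measurable).lintegral_prod_right'
  rw [memoryless hρ hg]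
  congr 1
  rw [← lintegral_indicator_one hA]
  exact (lintegral_consSeq (expMeasure 1) hind).symm

/-- joint law of the flag and of the shifted gaps of one clock -/
lemma flag_law {r h : ℝ} (hr : 0 ≤ r) (hh : 0 ≤ h) (b : Bool) :
    (gapLaw.restrict {a | flg r h a = b}).map (res (r * h)) =
      ENNReal.ofReal (w1 (1 - Real.exp (-(r * h))) b) • gapLaw := by
  have hρ : 0 ≤ r * h := mul_nonneg hr hh
  have hf : ∀ A : Set (ℕ → ℝ), MeasurableSet A → gapLaw (res (r * h) ⁻¹' A ∩ {a | flg r h a = false})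
      = ENNReal.ofReal (Real.exp (-(r * h))) * gapLaw A := by
    intro A hA
    have := no_ring hρ hA
    simp only [flg_eq_false]
    rw [Set.inter_comm]
    exact this
  ext A hA
  rw [Measure.map_apply (res_measurable _) hA, Measure.restrict_apply (res_measurable _ hA),
    Measure.smul_apply, smul_eq_mul]
  cases b
  · rw [hf A hA, w1_false, sub_sub_cancel]
  · rw [w1_true]
    have h1 : gapLaw (res (r * h) ⁻¹' A) = gapLaw A := (res_mp hρ).measure_preimage hA.nullMeasurableSet
    have h2 : res (r * h) ⁻¹' A ∩ {a | flg r h a = true} =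
        res (r * h) ⁻¹' A \ {a | flg r h a = false} := by
      ext a
      simp
    have h3 : gapLaw (res (r * h) ⁻¹' A ∩ {a | flg r h a = true}) =
        gapLaw (res (r * h) ⁻¹' A) - gapLaw (res (r * h) ⁻¹' A ∩ {a | flg r h a = false}) := by
      rw [h2]
      have h4 := measure_sdiff_add_inter (μ := gapLaw) (res (r * h) ⁻¹' A) (measurableSet_flg r h false)
      rw [← h4]
      exact (ENNReal.add_sub_cancel_right (measure_ne_top _ _)).symm
    rw [h3, hf A hA, h1]
    have h5 : ENNReal.ofReal (1 - Real.exp (-(r * h))) = 1 - ENNReal.ofReal (Real.exp (-(r * h))) := by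
      rw [ENNReal.ofReal_sub _ (Real.exp_pos _).le, ENNReal.ofReal_one]
    rw [h5, ENNReal.sub_mul (fun _ _ => measure_ne_top _ _), one_mul]

end Pool.Agent.Helper97.Dyn
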