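import Pool.Agent.Helper97.Dyn.Clk
import Pool.Agent.Helper97.Dyn.Dct
import Pool.Agent.Helper97.Dyn.Gen
import Mathlib

/-!
A finite family of Poisson clocks observed on a time grid; state processes driven by the clocks
have one-time laws which are limits of iterated Euler steps.
-/

open MeasureTheory ProbabilityTheory Filter
open scoped ENNReal Topology

set_option linter.unusedSectionVars false

namespace Pool.Agent.Helper97.Dyn

variable {J : Type*} [Fintype J] [DecidableEq J]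

/-- law of a finite family of gap sequences -/
noncomputable def gpi (J : Type*) [Fintype J] : Measure (J → ℕ → ℝ) := Measure.pi fun _ => gapLaw

instance : IsProbabilityMeasure (gpi J) := by unfold gpi; infer_instance

/-- which clocks ring in `(0, h]` -/
noncomputable def flags (r : J → ℝ) (h : ℝ) (a : J → ℕ → ℝ) : J → Bool :=
  fun j => flg (r j) h (a j)

/-- gap sequences seen from time `h` -/
noncomputable def resA (r : J → ℝ) (h : ℝ) (a : J → ℕ → ℝ) : J → ℕ → ℝ :=
  fun j => res (r j * h) (a j)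

lemma resA_mp {r : J → ℝ} (hr : ∀ j, 0 ≤ r j) {h : ℝ} (hh : 0 ≤ h) :
    MeasurePreserving (resA r h) (gpi J) (gpi J) :=
  measurePreserving_pi _ _ fun j => res_mp (mul_nonneg (hr j) hh)

lemma flags_eq (r : J → ℝ) (h : ℝ) (ω : J → Bool) :
    {a : J → ℕ → ℝ | flags r h a = ω} = Set.univ.pi fun j => {x | flg (r j) h x = ω j} := by
  ext a
  simp only [Set.mem_ofPred_eq, Set.mem_univ_pi]
  constructor
  · intro h j; rw [← h]; rfl
  · intro h; funext j; exact h j

lemma measurableSet_flags (r : J → ℝ) (h : ℝ) (ω : J → Bool) :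
    MeasurableSet {a : J → ℕ → ℝ | flags r h a = ω} := by
  rw [flags_eq]
  exact MeasurableSet.univ_pi fun j => measurableSet_flg _ _ _

/-- probability of a flag vector -/
noncomputable def pf (r : J → ℝ) (h : ℝ) : J → ℝ := fun j => 1 - Real.exp (-(r j * h))

lemma pf_nonneg {r : J → ℝ} (hr : ∀ j, 0 ≤ r j) {h : ℝ} (hh : 0 ≤ h) (j : J) : 0 ≤ pf r h j :=
  one_sub_exp_nonneg (mul_nonneg (hr j) hh)

lemma pf_le_one (r : J → ℝ) (h : ℝ) (j : J) : pf r h j ≤ 1 := one_sub_exp_le_one _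

lemma flags_law {r : J → ℝ} (hr : ∀ j, 0 ≤ r j) {h : ℝ} (hh : 0 ≤ h) (ω : J → Bool)
    {A : Set (J → ℕ → ℝ)} (hA : MeasurableSet A) :
    gpi J ({a | flags r h a = ω} ∩ resA r h ⁻¹' A) = ENNReal.ofReal (wt (pf r h) ω) * gpi J A := by
  have hm : Measurable (resA (J := J) r h) := (resA_mp hr hh).measurable
  have h1 : ((gpi J).restrict {a | flags r h a = ω}).map (resA r h) =
      ENNReal.ofReal (wt (pf r h) ω) • gpi J := by
    rw [flags_eq]
    unfold gpi
    rw [Measure.restrict_pi_pi]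
    have h2 : ∀ j, ((gapLaw).restrict {x | flg (r j) h x = ω j}).map (res (r j * h)) =
        ENNReal.ofReal (w1 (pf r h j) (ω j)) • gapLaw := fun j => flag_law (hr j) hh (ω j)
    have h3 : ∀ j, IsFiniteMeasure (((gapLaw).restrict {x | flg (r j) h x = ω j}).map
        (res (r j * h))) := by
      intro j
      rw [h2 j]
      exact Measure.smul_finite _ (by simp)
    have h4 := Measure.pi_map_pi (μ := fun j : J => (gapLaw).restrict {x | flg (r j) h x = ω j})
      (f := fun j => res (r j * h)) (fun j => (res_measurable _).aemeasurable)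
    have h5 : (resA (J := J) r h) = fun x j => res (r j * h) (x j) := rfl
    rw [h5, h4]
    have h6 : (fun j : J => ((gapLaw).restrict {x | flg (r j) h x = ω j}).map (res (r j * h))) =
        fun j => ENNReal.ofReal (w1 (pf r h j) (ω j)) • gapLaw := funext h2
    rw [h6]
    have h7 : ∀ j : J, IsFiniteMeasure (ENNReal.ofReal (w1 (pf r h j) (ω j)) • gapLaw) :=
      fun j => Measure.smul_finite _ (by simp)
    refine Measure.pi_eq fun s hs => ?_
    rw [Measure.smul_apply, Measure.pi_pi, smul_eq_mul]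
    simp only [Measure.smul_apply, smul_eq_mul]
    rw [Finset.prod_mul_distrib, wt, ENNReal.ofReal_prod_of_nonneg]
    intro j _
    exact w1_nonneg (pf_nonneg hr hh j) (pf_le_one r h j) _
  have h8 : gpi J ({a | flags r h a = ω} ∩ resA r h ⁻¹' A) =
      ((gpi J).restrict {a | flags r h a = ω}).map (resA r h) A := by
    rw [Measure.map_apply hm hA, Measure.restrict_apply (hm hA), Set.inter_comm]
  rw [h8, h1, Measure.smul_apply, smul_eq_mul]

variable {S : Type*}

/-- state after `n` cells of length `h` -/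
noncomputable def grd (r : J → ℝ) (F : S → (J → Bool) → S) (h : ℝ) :
    ℕ → (J → ℕ → ℝ) → S → S
  | 0, _, s => s
  | n + 1, a, s => grd r F h n (resA r h a) (F s (flags r h a))

/-- decomposition of an event along the flags -/
lemma flags_split (r : J → ℝ) (h : ℝ) (P : (J → Bool) → (J → ℕ → ℝ) → Prop) :
    {a : J → ℕ → ℝ | P (flags r h a) (resA r h a)} =
      ⋃ ω ∈ (Finset.univ : Finset (J → Bool)), ({a | flags r h a = ω} ∩ resA r h ⁻¹' {a | P ω a}) := by
  ext a
  simp only [Set.mem_ofPred_eq, Finset.mem_univ, Set.iUnion_true, Set.mem_iUnion, Set.mem_inter_iff,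
    Set.mem_preimage]
  constructor
  · intro hP; exact ⟨_, rfl, hP⟩
  · rintro ⟨ω, rfl, hP⟩; exact hP

lemma flags_split_measure {r : J → ℝ} (hr : ∀ j, 0 ≤ r j) {h : ℝ} (hh : 0 ≤ h)
    {P : (J → Bool) → (J → ℕ → ℝ) → Prop} (hP : ∀ ω, MeasurableSet {a | P ω a}) :
    gpi J {a | P (flags r h a) (resA r h a)} =
      ∑ ω, ENNReal.ofReal (wt (pf r h) ω) * gpi J {a | P ω a} := by
  rw [flags_split, measure_biUnion_finset]
  · exact Finset.sum_congr rfl fun ω _ => flags_law hr hh ω (hP ω)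
  · intro ω _ ω' _ hne
    refine Set.disjoint_left.2 fun a h1 h2 => hne ?_
    exact h1.1.symm.trans h2.1
  · intro ω _
    exact (measurableSet_flags r h ω).inter ((resA_mp hr hh).measurable (hP ω))

lemma flags_split_measurable {r : J → ℝ} (hr : ∀ j, 0 ≤ r j) {h : ℝ} (hh : 0 ≤ h)
    {P : (J → Bool) → (J → ℕ → ℝ) → Prop} (hP : ∀ ω, MeasurableSet {a | P ω a}) :
    MeasurableSet {a | P (flags r h a) (resA r h a)} := by
  rw [flags_split]
  exact Finset.measurableSet_biUnion _ fun ω _ =>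
    (measurableSet_flags r h ω).inter ((resA_mp hr hh).measurable (hP ω))

lemma measurableSet_grd {r : J → ℝ} (hr : ∀ j, 0 ≤ r j) {h : ℝ} (hh : 0 ≤ h)
    (F : S → (J → Bool) → S) (Q : S → Prop) : ∀ (n : ℕ) (s : S),
    MeasurableSet {a : J → ℕ → ℝ | Q (grd r F h n a s)}
  | 0, s => by
    unfold grd
    exact MeasurableSet.const _
  | n + 1, s => by
    have := flags_split_measurable hr hh (P := fun ω a => Q (grd r F h n a (F s ω)))
      (fun ω => measurableSet_grd hr hh F Q n (F s ω))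
    exact this

lemma grd_law {r : J → ℝ} (hr : ∀ j, 0 ≤ r j) {h : ℝ} (hh : 0 ≤ h)
    (F : S → (J → Bool) → S) (Q : S → Prop) : ∀ (n : ℕ) (s : S),
    gpi J {a : J → ℕ → ℝ | Q (grd r F h n a s)} =
      ENNReal.ofReal ((rk (pf r h) F)^[n] (fun s => ind (Q s)) s)
  | 0, s => by
    by_cases hQ : Q s
    · have : {a : J → ℕ → ℝ | Q (grd r F h 0 a s)} = Set.univ := by
        ext a; simp [grd, hQ]
      rw [this, measure_univ]
      simp [ind_pos hQ]
    · have : {a : J → ℕ → ℝ | Q (grd r F h 0 a s)} = ∅ := by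
        ext a; simp [grd, hQ]
      rw [this, measure_empty]
      simp [ind_neg hQ]
  | n + 1, s => by
    have h1 := flags_split_measure hr hh (P := fun ω a => Q (grd r F h n a (F s ω)))
      (fun ω => measurableSet_grd hr hh F Q n (F s ω))
    have h2 : {a : J → ℕ → ℝ | Q (grd r F h (n + 1) a s)} =
      {a | Q (grd r F h n (resA r h a) (F s (flags r h a)))} := rfl
    rw [h2, h1, Function.iterate_succ_apply']
    simp only [rk, Ex]
    have h3 : ∀ t, 0 ≤ (rk (pf r h) F)^[n] (fun s => ind (Q s)) t := by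
      clear h1 h2
      induction n with
      | zero => intro t; exact ind_nonneg _
      | succ n ih =>
        intro t
        rw [Function.iterate_succ_apply']
        exact Ex_nonneg (pf_nonneg hr hh) (pf_le_one r h) fun ω => ih _
    rw [ENNReal.ofReal_sum_of_nonneg fun ω _ =>
      mul_nonneg (wt_nonneg (pf_nonneg hr hh) (pf_le_one r h) ω) (h3 _)]
    refine Finset.sum_congr rfl fun ω _ => ?_
    rw [grd_law hr hh F Q n (F s ω),
      ENNReal.ofReal_mul (wt_nonneg (pf_nonneg hr hh) (pf_le_one r h) ω)]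

/-- at most one clock rings -/
def FlagOK (ω : J → Bool) : Prop := ω = zer ∨ ∃ j, ω = one1 j

/-- some cell has two ringing clocks -/
def BadG (r : J → ℝ) (h : ℝ) : ℕ → (J → ℕ → ℝ) → Prop
  | 0, _ => False
  | n + 1, a => ¬ FlagOK (flags r h a) ∨ BadG r h n (resA r h a)

lemma measurableSet_badG {r : J → ℝ} (hr : ∀ j, 0 ≤ r j) {h : ℝ} (hh : 0 ≤ h) : ∀ (n : ℕ),
    MeasurableSet {a : J → ℕ → ℝ | BadG r h n a}
  | 0 => MeasurableSet.const _
  | n + 1 => by
    refine flags_split_measurable hr hh (P := fun ω a => ¬ FlagOK ω ∨ BadG r h n a) (fun ω => ?_)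
    exact MeasurableSet.union (s₁ := {a | ¬ FlagOK ω}) (s₂ := {a | BadG r h n a})
      (MeasurableSet.const _) (measurableSet_badG hr hh n)

lemma flagOK_law {r : J → ℝ} (hr : ∀ j, 0 ≤ r j) {h : ℝ} (hh : 0 ≤ h)
    (h1 : (∑ j, r j) * h ≤ 1) :
    gpi J {a : J → ℕ → ℝ | ¬ FlagOK (flags r h a)} ≤ ENNReal.ofReal (smallC r * h ^ 2) := by
  have h2 := flags_split_measure hr hh (P := fun ω _ => ¬ FlagOK ω) (fun ω => MeasurableSet.const _)
  rw [h2]
  have h3 : ∀ ω : J → Bool, gpi J {a : J → ℕ → ℝ | ¬ FlagOK ω} =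
      ENNReal.ofReal (ind (¬ FlagOK ω)) := by
    intro ω
    by_cases hω : FlagOK ω
    · simp [hω, ind_neg]
    · simp [hω, ind_pos]
  simp only [h3]
  have h4 : ∀ ω : J → Bool, ENNReal.ofReal (wt (pf r h) ω) * ENNReal.ofReal (ind (¬ FlagOK ω)) =
      ENNReal.ofReal (wt (pf r h) ω * ind (¬ FlagOK ω)) := fun ω =>
    (ENNReal.ofReal_mul (wt_nonneg (pf_nonneg hr hh) (pf_le_one r h) ω)).symm
  simp only [h4]
  rw [← ENNReal.ofReal_sum_of_nonneg fun ω _ =>
    mul_nonneg (wt_nonneg (pf_nonneg hr hh) (pf_le_one r h) ω) (ind_nonneg _)]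
  refine ENNReal.ofReal_le_ofReal ?_
  have h5 := Ex_small r hr hh h1 (f := fun ω => ind (¬ FlagOK ω)) (B := 1)
    (fun ω => by rw [abs_of_nonneg (ind_nonneg _)]; exact ind_le_one _)
  have h6 : ind (¬ FlagOK (zer : J → Bool)) = 0 := ind_neg (not_not.2 (Or.inl rfl))
  have h7 : ∀ j : J, ind (¬ FlagOK (one1 j)) = 0 := fun j => ind_neg (not_not.2 (Or.inr ⟨j, rfl⟩))
  simp only [h6, h7, sub_zero, mul_zero, Finset.sum_const_zero, mul_one] at h5
  exact (le_abs_self _).trans h5

lemma badG_law {r : J → ℝ} (hr : ∀ j, 0 ≤ r j) {h : ℝ} (hh : 0 ≤ h)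
    (h1 : (∑ j, r j) * h ≤ 1) : ∀ n : ℕ,
    gpi J {a : J → ℕ → ℝ | BadG r h n a} ≤ n * ENNReal.ofReal (smallC r * h ^ 2)
  | 0 => by simp [BadG]
  | n + 1 => by
    have h2 : {a : J → ℕ → ℝ | BadG r h (n + 1) a} ⊆
      {a | ¬ FlagOK (flags r h a)} ∪ resA r h ⁻¹' {a | BadG r h n a} := fun a ha => ha
    refine (measure_mono h2).trans ((measure_union_le _ _).trans ?_)
    rw [(resA_mp hr hh).measure_preimage (measurableSet_badG hr hh n).nullMeasurableSet]
    calc _ ≤ ENNReal.ofReal (smallC r * h ^ 2) + n * ENNReal.ofReal (smallC r * h ^ 2) :=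
          add_le_add (flagOK_law hr hh h1) (badG_law hr hh h1 n)
      _ = _ := by push_cast; ring

/-- all gap sequences are nondegenerate -/
def AGood (a : J → ℕ → ℝ) : Prop := ∀ j, GGood (a j)

lemma ae_aGood : ∀ᵐ a ∂(gpi J), AGood a := by
  refine ae_all_iff.2 fun j => ?_
  exact (measurePreserving_eval (fun _ : J => gapLaw) j).quasiMeasurePreserving.ae ae_ggood

lemma AGood.resA {a : J → ℕ → ℝ} (ha : AGood a) {r : J → ℝ} (hr : ∀ j, 0 ≤ r j) {h : ℝ}
    (hh : 0 ≤ h) : AGood (resA r h a) := fun j => (ha j).res (mul_nonneg (hr j) hh)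

/-- a state process driven by the clocks -/
structure Driven (r : J → ℝ) (φ : J → S → S) (St : (J → ℕ → ℝ) → ℝ → S → S) : Prop where
  zero : ∀ a, AGood a → ∀ s, St a 0 s = s
  flow : ∀ a, AGood a → ∀ h t, 0 ≤ h → 0 ≤ t → ∀ s,
    St a (h + t) s = St (resA r h a) t (St a h s)
  none : ∀ a, AGood a → ∀ h, 0 ≤ h → flags r h a = zer → ∀ s, St a h s = s
  one : ∀ a, AGood a → ∀ h, 0 ≤ h → ∀ j, flags r h a = one1 j → ∀ s, St a h s = φ j s

open Classical in
/-- apply the map of the ringing clock -/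
noncomputable def fmap (φ : J → S → S) (s : S) (ω : J → Bool) : S :=
  if h : ∃ j, ω = one1 j then φ h.choose s else s

lemma fmap_zer (φ : J → S → S) (s : S) : fmap φ s zer = s := by
  unfold fmap
  rw [dif_neg]
  rintro ⟨j, hj⟩
  exact one1_ne_zer j hj.symm

lemma fmap_one (φ : J → S → S) (s : S) (j : J) : fmap φ s (one1 j) = φ j s := by
  unfold fmap
  have h : ∃ j', (one1 j : J → Bool) = one1 j' := ⟨j, rfl⟩
  rw [dif_pos h, ← one1_inj h.choose_spec]

lemma grd_eq {r : J → ℝ} (hr : ∀ j, 0 ≤ r j) {φ : J → S → S}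
    {St : (J → ℕ → ℝ) → ℝ → S → S} (hSt : Driven r φ St) {h : ℝ} (hh : 0 ≤ h) :
    ∀ (n : ℕ) (a : J → ℕ → ℝ), AGood a → ¬ BadG r h n a → ∀ s,
      grd r (fmap φ) h n a s = St a (n * h) s
  | 0, a, ha, _, s => by
    simp only [Nat.cast_zero, zero_mul]
    rw [hSt.zero a ha]
    rfl
  | n + 1, a, ha, hb, s => by
    have hb' : FlagOK (flags r h a) ∧ ¬ BadG r h n (resA r h a) := by
      have : ¬ (¬ FlagOK (flags r h a) ∨ BadG r h n (resA r h a)) := hb
      push Not at this
      exact this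
    have ih := grd_eq hr hSt hh n (resA r h a) (ha.resA hr hh) hb'.2
    have h1 : ((n + 1 : ℕ) : ℝ) * h = h + n * h := by push_cast; ring
    rw [h1, hSt.flow a ha h (n * h) hh (by positivity)]
    have h2 : grd r (fmap φ) h (n + 1) a s =
      grd r (fmap φ) h n (resA r h a) (fmap φ s (flags r h a)) := rfl
    rw [h2, ih]
    congr 1
    rcases hb'.1 with h3 | ⟨j, hj⟩
    · rw [h3, fmap_zer, hSt.none a ha h hh h3]
    · rw [hj, fmap_one, hSt.one a ha h hh j hj]

section Main

variable {r : J → ℝ} {φ : J → S → S} {St : (J → ℕ → ℝ) → ℝ → S → S}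

lemma small_h (hr : ∀ j, 0 ≤ r j) {t : ℝ} (ht : 0 ≤ t) {n : ℕ} (hn : (∑ j, r j) * t ≤ n)
    (hn0 : 0 < n) : (∑ j, r j) * (t / n) ≤ 1 := by
  have : (0 : ℝ) < n := by exact_mod_cast hn0
  rw [← mul_div_assoc, div_le_one this]
  exact hn

lemma bad_small (hr : ∀ j, 0 ≤ r j) {t : ℝ} (ht : 0 ≤ t) {n : ℕ}
    (hn : (∑ j, r j) * t ≤ n) (hn0 : 0 < n) :
    gpi J {a : J → ℕ → ℝ | BadG r (t / n) n a} ≤ ENNReal.ofReal (smallC r * t ^ 2 / n) := by
  have h0 : (0 : ℝ) < n := by exact_mod_cast hn0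
  have hh : 0 ≤ t / n := by positivity
  refine (badG_law hr hh (small_h hr ht hn hn0) n).trans ?_
  rw [← ENNReal.ofReal_natCast, ← ENNReal.ofReal_mul h0.le]
  refine ENNReal.ofReal_le_ofReal (le_of_eq ?_)
  field_simp

/-- the state event agrees almost surely with a measurable event -/
lemma driven_null (hr : ∀ j, 0 ≤ r j) (hSt : Driven r φ St) {t : ℝ} (ht : 0 ≤ t)
    (Q : S → Prop) (s : S) : NullMeasurableSet {a : J → ℕ → ℝ | Q (St a t s)} (gpi J) := by
  set D : Set (J → ℕ → ℝ) := ⋃ n : ℕ, ({a | ¬ BadG r (t / (n + 1 : ℕ)) (n + 1) a} ∩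
    {a | Q (grd r (fmap φ) (t / (n + 1 : ℕ)) (n + 1) a s)}) with hD
  have hh : ∀ n : ℕ, 0 ≤ t / ((n + 1 : ℕ) : ℝ) := fun n => by positivity
  have hDm : MeasurableSet D := by
    refine MeasurableSet.iUnion fun n => MeasurableSet.inter ?_ ?_
    · exact (measurableSet_badG hr (hh n) (n + 1)).compl
    · exact measurableSet_grd hr (hh n) _ Q (n + 1) s
  have hnull : gpi J {a : J → ℕ → ℝ | ∀ n : ℕ, BadG r (t / (n + 1 : ℕ)) (n + 1) a} = 0 := by
    refine le_antisymm ?_ (zero_le)
    have hlim : Tendsto (fun n : ℕ => ENNReal.ofReal (smallC r * t ^ 2 / ((n + 1 : ℕ) : ℝ)))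
        atTop (𝓝 0) := by
      have h1 : Tendsto (fun n : ℕ => smallC r * t ^ 2 / ((n + 1 : ℕ) : ℝ)) atTop (𝓝 0) :=
        (tendsto_const_div_atTop_nhds_zero_nat (smallC r * t ^ 2)).comp (tendsto_add_atTop_nat 1)
      have h2 := ENNReal.tendsto_ofReal h1
      rwa [ENNReal.ofReal_zero] at h2
    refine ge_of_tendsto hlim ?_
    filter_upwards [eventually_ge_atTop ⌈(∑ j, r j) * t⌉₊] with n hn
    refine (measure_mono ?_).trans (bad_small hr ht (n := n + 1) ?_ (Nat.succ_pos n))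
    · exact fun a ha => ha n
    · refine (Nat.le_ceil _).trans ?_
      exact_mod_cast hn.trans (Nat.le_succ n)
  refine hDm.nullMeasurableSet.congr ?_
  have hae : ∀ᵐ a ∂(gpi J), ¬ ∀ n : ℕ, BadG r (t / (n + 1 : ℕ)) (n + 1) a := by
    rw [ae_iff]
    simpa only [not_not] using hnull
  filter_upwards [hae, ae_aGood] with a ha hg
  have key : ∀ n : ℕ, ¬ BadG r (t / (n + 1 : ℕ)) (n + 1) a →
      grd r (fmap φ) (t / (n + 1 : ℕ)) (n + 1) a s = St a t s := by
    intro n hn
    rw [grd_eq hr hSt (hh n) (n + 1) a hg hn]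
    congr 1
    have : ((n + 1 : ℕ) : ℝ) ≠ 0 := by positivity
    field_simp
  refine propext ⟨?_, ?_⟩
  · intro h
    obtain ⟨n, h1, h2⟩ := Set.mem_iUnion.1 h
    have h3 : Q (grd r (fmap φ) (t / (n + 1 : ℕ)) (n + 1) a s) := h2
    rw [key n h1] at h3
    exact h3
  · intro h
    push Not at ha
    obtain ⟨n, hn⟩ := ha
    refine Set.mem_iUnion.2 ⟨n, hn, ?_⟩
    have h3 : Q (St a t s) := h
    rw [← key n hn] at h3
    exact h3

/-- the one-time law is approximated by iterated Euler steps -/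
lemma driven_approx (hr : ∀ j, 0 ≤ r j) (hSt : Driven r φ St) {t : ℝ} (ht : 0 ≤ t)
    (Q : S → Prop) (s : S) {n : ℕ} (hn : (∑ j, r j) * t ≤ n) (hn0 : 0 < n) :
    |(gpi J).real {a : J → ℕ → ℝ | Q (St a t s)} -
      (stp r φ (t / n))^[n] (fun s => ind (Q s)) s| ≤ 2 * (smallC r * t ^ 2 / n) := by
  have h0 : (0 : ℝ) < n := by exact_mod_cast hn0
  have hh : 0 ≤ t / n := by positivity
  have h1 := small_h hr ht hn hn0
  have hp0 := pf_nonneg (h := t / n) hr hh
  have hp1 := pf_le_one (r := r) (h := t / n)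
  -- grid versus Euler steps
  have h2 : |(rk (pf r (t / n)) (fmap φ))^[n] (fun s => ind (Q s)) s -
      (stp r φ (t / n))^[n] (fun s => ind (Q s)) s| ≤ n * (smallC r * 1 * (t / n) ^ 2) := by
    refine Ctr.compare (B := 1) (rk_ctr hp0 hp1 (fmap φ)) (stp_ctr hr hh h1) (fun f hf s => ?_)
      (fun s => ?_) n s
    · exact rk_small hr (fmap_zer φ) (fmap_one φ) hh h1 hf s
    · rw [abs_of_nonneg (ind_nonneg _)]; exact ind_le_one _
  have h3 : (gpi J).real {a : J → ℕ → ℝ | Q (grd r (fmap φ) (t / n) n a s)} =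
      (rk (pf r (t / n)) (fmap φ))^[n] (fun s => ind (Q s)) s := by
    unfold Measure.real
    rw [grd_law hr hh, ENNReal.toReal_ofReal]
    clear h2
    have : ∀ k t', 0 ≤ (rk (pf r (t / n)) (fmap φ))^[k] (fun s => ind (Q s)) t' := by
      intro k
      induction k with
      | zero => intro t'; exact ind_nonneg _
      | succ k ih =>
        intro t'
        rw [Function.iterate_succ_apply']
        exact Ex_nonneg hp0 hp1 fun ω => ih _
    exact this n s
  have hbad : (gpi J).real {a : J → ℕ → ℝ | BadG r (t / n) n a} ≤ smallC r * t ^ 2 / n := by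
    have h4 := bad_small hr ht hn hn0
    unfold Measure.real
    refine ENNReal.toReal_le_of_le_ofReal ?_ h4
    have := smallC_nonneg r
    positivity
  have heq : ∀ᵐ a ∂(gpi J), a ∉ {a : J → ℕ → ℝ | BadG r (t / n) n a} →
      (Q (grd r (fmap φ) (t / n) n a s) ↔ Q (St a t s)) := by
    filter_upwards [ae_aGood] with a ha hb
    rw [grd_eq hr hSt hh n a ha hb]
    have : (n : ℝ) * (t / n) = t := by field_simp
    rw [this]
  have h5 : |(gpi J).real {a : J → ℕ → ℝ | Q (St a t s)} -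
      (gpi J).real {a : J → ℕ → ℝ | Q (grd r (fmap φ) (t / n) n a s)}| ≤
      (gpi J).real {a : J → ℕ → ℝ | BadG r (t / n) n a} := by
    rw [abs_le]
    have hA : (gpi J).real {a : J → ℕ → ℝ | Q (St a t s)} ≤
        (gpi J).real {a : J → ℕ → ℝ | Q (grd r (fmap φ) (t / n) n a s)} +
        (gpi J).real {a : J → ℕ → ℝ | BadG r (t / n) n a} := by
      refine le_trans ?_ (measureReal_union_le _ _)
      unfold Measure.real
      refine ENNReal.toReal_mono (measure_ne_top _ _) (measure_mono_ae ?_)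
      filter_upwards [heq] with a ha hQ
      by_cases hb : BadG r (t / n) n a
      · exact Or.inr hb
      · exact Or.inl ((ha hb).2 hQ)
    have hB : (gpi J).real {a : J → ℕ → ℝ | Q (grd r (fmap φ) (t / n) n a s)} ≤
        (gpi J).real {a : J → ℕ → ℝ | Q (St a t s)} +
        (gpi J).real {a : J → ℕ → ℝ | BadG r (t / n) n a} := by
      refine le_trans ?_ (measureReal_union_le _ _)
      unfold Measure.real
      refine ENNReal.toReal_mono (measure_ne_top _ _) (measure_mono_ae ?_)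
      filter_upwards [heq] with a ha hQ
      by_cases hb : BadG r (t / n) n a
      · exact Or.inr hb
      · exact Or.inl ((ha hb).1 hQ)
    constructor <;> linarith
  rw [h3] at h5
  have h6 : (n : ℝ) * (smallC r * 1 * (t / n) ^ 2) = smallC r * t ^ 2 / n := by field_simp
  rw [h6] at h2
  calc _ = |((gpi J).real {a : J → ℕ → ℝ | Q (St a t s)} -
        (rk (pf r (t / n)) (fmap φ))^[n] (fun s => ind (Q s)) s) +
        ((rk (pf r (t / n)) (fmap φ))^[n] (fun s => ind (Q s)) s -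
        (stp r φ (t / n))^[n] (fun s => ind (Q s)) s)| := by ring_nf
    _ ≤ _ := (abs_add_le _ _).trans (add_le_add (h5.trans hbad) h2)
    _ = _ := by ring

/-- the one-time law is the limit of iterated Euler steps -/
theorem driven_tendsto (hr : ∀ j, 0 ≤ r j) (hSt : Driven r φ St) {t : ℝ} (ht : 0 ≤ t)
    (Q : S → Prop) (s : S) :
    Tendsto (fun n : ℕ => (stp r φ (t / n))^[n] (fun s => ind (Q s)) s) atTop
      (𝓝 ((gpi J).real {a : J → ℕ → ℝ | Q (St a t s)})) := by
  rw [tendsto_iff_norm_sub_tendsto_zero]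
  have hlim : Tendsto (fun n : ℕ => 2 * (smallC r * t ^ 2 / n)) atTop (𝓝 0) := by
    have h1 : Tendsto (fun n : ℕ => smallC r * t ^ 2 / (n : ℝ)) atTop (𝓝 0) :=
      tendsto_const_div_atTop_nhds_zero_nat (smallC r * t ^ 2)
    simpa using h1.const_mul 2
  refine squeeze_zero_norm' ?_ hlim
  filter_upwards [eventually_ge_atTop ⌈(∑ j, r j) * t⌉₊, eventually_gt_atTop 0] with n hn hn0
  have h2 : (∑ j, r j) * t ≤ n := (Nat.le_ceil _).trans (by exact_mod_cast hn)
  have := driven_approx hr hSt ht Q s h2 hn0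
  rw [norm_norm, Real.norm_eq_abs, abs_sub_comm]
  exact this

end Main

end Pool.Agent.Helper97.Dyn
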