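import Pool.Agent.Helper97.Dyn.Chain
import Pool.Agent.Helper97.Dyn.Grid
import Mathlib

/-!
Infection paths: splitting and joining in time, and the finite-volume processes as clock-driven
systems.
-/

open MeasureTheory ProbabilityTheory Filter
open scoped ENNReal Topology

set_option linter.unusedSectionVars false

namespace Pool.Agent.Helper97.Dyn

/-- the set of times seen from time `h` -/
def shs (h : ℝ) (A : Set ℝ) : Set ℝ := {t | 0 < t ∧ h + t ∈ A}

section General

variable {V : Type*} {arr : Sym2 V → Set ℝ} {heal : V → Set ℝ} {x : V}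

lemma Reach.nonneg {y : V} {t : ℝ} (h : Reach arr heal x y t) : 0 ≤ t := by
  induction h with
  | start => exact le_refl _
  | wait _ hst _ ih => exact ih.trans hst
  | jump _ _ _ ih => exact ih

lemma Reach.mono {arr' : Sym2 V → Set ℝ} {heal' : V → Set ℝ}
    (ha : ∀ y z, y ≠ z → arr s(y, z) ⊆ arr' s(y, z)) (hh : ∀ y, heal' y ⊆ heal y) {y : V} {t : ℝ}
    (h : Reach arr heal x y t) : Reach arr' heal' x y t := by
  induction h with
  | start => exact Reach.start
  | wait _ hst hu ih => exact ih.wait hst fun u hu' => hu u (hh _ hu')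
  | jump _ hne ht ih => exact ih.jump hne (ha _ _ hne ht)

lemma Reach.congr {arr' : Sym2 V → Set ℝ} {heal' : V → Set ℝ}
    (ha : ∀ y z, y ≠ z → arr s(y, z) = arr' s(y, z)) (hh : ∀ y, heal' y = heal y) {y : V} {t : ℝ} :
    Reach arr heal x y t ↔ Reach arr' heal' x y t :=
  ⟨fun h => h.mono (fun y z hne => (ha y z hne).subset) fun y => (hh y).subset,
    fun h => h.mono (fun y z hne => (ha y z hne).symm.subset) fun y => (hh y).symm.subset⟩

lemma Reach.split {y : V} {T h : ℝ} (hr : Reach arr heal x y T) (h0 : 0 ≤ h) (hT : h ≤ T) :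
    ∃ z, Reach arr heal x z h ∧ Reach (fun e => shs h (arr e)) (fun y => shs h (heal y)) z y (T - h) := by
  induction hr with
  | start =>
    have : h = 0 := le_antisymm hT h0
    subst this
    refine ⟨x, Reach.start, ?_⟩
    rw [sub_zero]
    exact Reach.start
  | @wait y s t hy hst hu ih =>
    by_cases hs : h ≤ s
    · obtain ⟨z, hz1, hz2⟩ := ih hs
      refine ⟨z, hz1, hz2.wait (by linarith) ?_⟩
      rintro u ⟨hu0, hu1⟩ ⟨hu2, hu3⟩
      exact hu _ hu1 ⟨by linarith, by linarith⟩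
    · push Not at hs
      refine ⟨y, hy.wait hs.le fun u hu' hu2 => hu u hu' ⟨hu2.1, hu2.2.trans hT⟩, ?_⟩
      refine Reach.start.wait (by linarith) ?_
      rintro u ⟨hu0, hu1⟩ ⟨_, hu3⟩
      exact hu _ hu1 ⟨by linarith, by linarith⟩
  | @jump y z t hy hne ht ih =>
    rcases hT.lt_or_eq with hlt | heq
    · obtain ⟨w, hw1, hw2⟩ := ih hT
      refine ⟨w, hw1, hw2.jump hne ⟨by linarith, ?_⟩⟩
      rw [add_sub_cancel]
      exact ht
    · subst heq
      refine ⟨z, hy.jump hne ht, ?_⟩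
      rw [sub_self]
      exact Reach.start

lemma Reach.join {y z : V} {h t : ℝ} (h1 : Reach arr heal x z h)
    (h2 : Reach (fun e => shs h (arr e)) (fun y => shs h (heal y)) z y t) :
    Reach arr heal x y (h + t) := by
  induction h2 with
  | start => rw [add_zero]; exact h1
  | @wait y s t hy hst hu ih =>
    refine ih.wait (by linarith) fun u hu' hu2 => hu (u - h) ⟨?_, ?_⟩ ⟨by linarith [hu2.1], by linarith [hu2.2]⟩
    · have := hy.nonneg
      linarith [hu2.1]
    · rw [add_sub_cancel]; exact hu'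
  | jump _ hne ht ih => exact ih.jump hne ht.2

lemma reach_flow {y : V} {h t : ℝ} (h0 : 0 ≤ h) (ht : 0 ≤ t) :
    Reach arr heal x y (h + t) ↔
      ∃ z, Reach arr heal x z h ∧ Reach (fun e => shs h (arr e)) (fun y => shs h (heal y)) z y t := by
  constructor
  · intro hr
    have := hr.split h0 (by linarith)
    rwa [add_sub_cancel_left] at this
  · rintro ⟨z, h1, h2⟩
    exact h1.join h2

lemma Reach.before {y : V} {T h : ℝ} (hr : Reach arr heal x y T) (h0 : 0 ≤ h) (hT : h ≤ T) :
    ∃ z, Reach arr heal x z h := by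
  obtain ⟨z, hz, _⟩ := hr.split h0 hT
  exact ⟨z, hz⟩

/-- no crossing: the infection stays -/
lemma reach_stay {y : V} {t : ℝ} (hr : Reach arr heal x y t) {h : ℝ} (hth : t ≤ h)
    (ha : ∀ y z, y ≠ z → ∀ u ∈ arr s(y, z), ¬ u ≤ h) :
    y = x ∧ ∀ u ∈ heal x, ¬ (0 < u ∧ u ≤ t) := by
  induction hr with
  | start => exact ⟨rfl, fun u _ hu => absurd hu.1 (not_lt.2 hu.2)⟩
  | @wait y s t hy hst hu ih =>
    obtain ⟨h1, h2⟩ := ih (hst.trans hth)
    subst h1
    refine ⟨rfl, fun u hu' hu2 => ?_⟩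
    by_cases hus : u ≤ s
    · exact h2 u hu' ⟨hu2.1, hus⟩
    · exact hu u hu' ⟨not_le.1 hus, hu2.2⟩
  | @jump y z t hy hne ht ih => exact absurd hth (ha y z hne t ht)

/-- crossings of one pair only -/
lemma reach_one {y : V} {t : ℝ} (hr : Reach arr heal x y t) {h : ℝ} (hth : t ≤ h) {e : Sym2 V}
    (ha : ∀ y z, y ≠ z → s(y, z) ≠ e → ∀ u ∈ arr s(y, z), ¬ u ≤ h) :
    y = x ∨ (y ∈ e ∧ x ∈ e) := by
  induction hr with
  | start => exact Or.inl rfl
  | wait _ hst _ ih => exact ih (hst.trans hth)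
  | @jump y z t hy hne ht ih =>
    by_cases he : s(y, z) = e
    · right
      rw [← he]
      rcases ih hth with h1 | h1
      · subst h1
        exact ⟨Sym2.mem_mk_right _ _, Sym2.mem_mk_left _ _⟩
      · rw [← he] at h1
        exact ⟨Sym2.mem_mk_right _ _, h1.2⟩
    · exact absurd hth (ha y z hne he t ht)

lemma openAt_shift {up down : Set ℝ} {init : Prop} {h t : ℝ} (h0 : 0 ≤ h) (ht : 0 ≤ t)
    (hu : ∀ u ∈ up, 0 < u) (hd : ∀ u ∈ down, 0 < u) :
    OpenAt (shs h up) (shs h down) (OpenAt up down init h) t ↔ OpenAt up down init (h + t) := by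
  unfold OpenAt
  constructor
  · rintro (⟨u, ⟨hu0, hu1⟩, hut, hud⟩ | ⟨h1, hud⟩)
    · refine Or.inl ⟨h + u, hu1, by linarith, fun d hd' hd2 => hud (d - h) ⟨by linarith [hd2.1], ?_⟩
        ⟨by linarith [hd2.1], by linarith [hd2.2]⟩⟩
      rw [add_sub_cancel]; exact hd'
    · have key : ∀ d ∈ down, ¬ (h < d ∧ d ≤ h + t) := by
        intro d hd' hd2
        refine hud (d - h) ⟨by linarith [hd2.1], ?_⟩ (by linarith [hd2.2])
        rw [add_sub_cancel]; exact hd'
      rcases h1 with ⟨u, hu1, huh, hud'⟩ | ⟨hi, hud'⟩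
      · refine Or.inl ⟨u, hu1, by linarith, fun d hd' hd2 => ?_⟩
        by_cases hdh : d ≤ h
        · exact hud' d hd' ⟨hd2.1, hdh⟩
        · exact key d hd' ⟨not_le.1 hdh, hd2.2⟩
      · refine Or.inr ⟨hi, fun d hd' hd2 => ?_⟩
        by_cases hdh : d ≤ h
        · exact hud' d hd' hdh
        · exact key d hd' ⟨not_le.1 hdh, hd2⟩
  · rintro (⟨u, hu1, hut, hud⟩ | ⟨hi, hud⟩)
    · by_cases huh : u ≤ h
      · refine Or.inr ⟨Or.inl ⟨u, hu1, huh, fun d hd' hd2 => hud d hd' ⟨hd2.1, by linarith [hd2.2]⟩⟩,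
          ?_⟩
        rintro d ⟨hd0, hd1⟩ hd2
        exact hud _ hd1 ⟨by linarith, by linarith⟩
      · push Not at huh
        refine Or.inl ⟨u - h, ⟨by linarith, ?_⟩, by linarith, ?_⟩
        · rw [add_sub_cancel]; exact hu1
        · rintro d ⟨hd0, hd1⟩ ⟨hd2, hd3⟩
          exact hud _ hd1 ⟨by linarith, by linarith⟩
    · refine Or.inr ⟨Or.inr ⟨hi, fun d hd' hd2 => hud d hd' (by linarith)⟩, ?_⟩
      rintro d ⟨hd0, hd1⟩ hd2
      exact hud _ hd1 (by linarith)

end General

lemma ringSet_pos {r : ℝ} {a : ℕ → ℝ} {t : ℝ} (h : t ∈ ringSet r a) : 0 < t := h.1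

lemma ringSet_res {a : ℕ → ℝ} (hg : GGood a) {r h : ℝ} (hr : 0 ≤ r) (hh : 0 ≤ h) :
    ringSet r (res (r * h) a) = shs h (ringSet r a) := by
  ext t
  constructor
  · intro ht
    exact ⟨ht.1, (ring_shift hg hr hh ht.1).1 ht⟩
  · rintro ⟨ht, h1⟩
    exact (ring_shift hg hr hh ht).2 h1

section Finite

variable {W : Type*} [Fintype W] [DecidableEq W]

/-- recovery times in finite volume -/
def fheal {J : Type*} (r : W ⊕ J → ℝ) (a : W ⊕ J → ℕ → ℝ) (x : W) : Set ℝ :=
  ringSet (r (.inl x)) (a (.inl x))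

/-- crossing times of the static process in finite volume -/
def sarr (r : W ⊕ Sym2 W → ℝ) (a : W ⊕ Sym2 W → ℕ → ℝ) (e : Sym2 W) : Set ℝ :=
  ringSet (r (.inr e)) (a (.inr e))

open Classical in
/-- static process in finite volume -/
noncomputable def SSt (r : W ⊕ Sym2 W → ℝ) (a : W ⊕ Sym2 W → ℕ → ℝ) (t : ℝ) (C : Finset W) :
    Finset W :=
  Finset.univ.filter fun y => ∃ x ∈ C, Reach (sarr r a) (fheal r a) x y t

lemma mem_SSt {r : W ⊕ Sym2 W → ℝ} {a : W ⊕ Sym2 W → ℕ → ℝ} {t : ℝ} {C : Finset W} {y : W} :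
    y ∈ SSt r a t C ↔ ∃ x ∈ C, Reach (sarr r a) (fheal r a) x y t := by simp [SSt]

/-- a path of waiting -/
lemma Reach.rest {V : Type*} {arr : Sym2 V → Set ℝ} {heal : V → Set ℝ} {x : V} {h : ℝ}
    (hh : 0 ≤ h) (hx : ∀ u ∈ heal x, ¬ u ≤ h) : Reach arr heal x x h :=
  Reach.start.wait hh fun u hu hu2 => hx u hu hu2.2

/-- a path crossing once -/
lemma Reach.cross {V : Type*} {arr : Sym2 V → Set ℝ} {heal : V → Set ℝ} {x y : V} {h u : ℝ}
    (hu0 : 0 ≤ u) (huh : u ≤ h) (hne : x ≠ y) (hu : u ∈ arr s(x, y))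
    (hx : ∀ u ∈ heal x, ¬ u ≤ h) (hy : ∀ u ∈ heal y, ¬ u ≤ h) : Reach arr heal x y h :=
  ((Reach.rest hu0 fun v hv hv2 => hx v hv (hv2.trans huh)).jump hne hu).wait huh
    fun v hv hv2 => hy v hv hv2.2

lemma flags_false {J : Type*} [Fintype J] [DecidableEq J] {r : J → ℝ} (hr : ∀ j, 0 ≤ r j)
    {a : J → ℕ → ℝ} (ha : AGood a) {h : ℝ} {j : J} (hj : flags r h a j = false) :
    ∀ u ∈ ringSet (r j) (a j), ¬ u ≤ h := by
  intro u hu huh
  have : flg (r j) h (a j) = true := (flg_iff (ha j) (hr j)).2 ⟨u, hu, huh⟩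
  rw [flags] at hj
  rw [this] at hj
  exact absurd hj (by simp)

lemma flags_true {J : Type*} [Fintype J] [DecidableEq J] {r : J → ℝ} (hr : ∀ j, 0 ≤ r j)
    {a : J → ℕ → ℝ} (ha : AGood a) {h : ℝ} {j : J} (hj : flags r h a j = true) :
    ∃ u ∈ ringSet (r j) (a j), u ≤ h := (flg_iff (ha j) (hr j)).1 hj

lemma one1_same {J : Type*} [Fintype J] [DecidableEq J] (j : J) : one1 j j = true := by
  simp [one1, upd_same]

lemma one1_ne {J : Type*} [Fintype J] [DecidableEq J] {i j : J} (h : i ≠ j) : one1 j i = false := by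
  rw [one1, upd_ne _ h]
  rfl

/-- the static process is driven by its clocks -/
lemma static_driven {r : W ⊕ Sym2 W → ℝ} (hr : ∀ j, 0 ≤ r j) :
    Driven r (smap (W := W)) (SSt r) := by
  refine ⟨fun a ha C => ?_, fun a ha h t hh ht C => ?_, fun a ha h hh hf C => ?_,
    fun a ha h hh j hf C => ?_⟩
  · ext y
    rw [mem_SSt]
    constructor
    · rintro ⟨x, hx, hR⟩
      have h1 := reach_stay hR (h := 0) (le_refl _) (fun y z _ u hu huh => by
        have := ringSet_pos hu
        linarith)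
      rw [h1.1]; exact hx
    · intro hy
      exact ⟨y, hy, Reach.start⟩
  · ext y
    rw [mem_SSt]
    have e1 : sarr r (resA r h a) = fun e => shs h (sarr r a e) := by
      funext e
      exact ringSet_res (ha _) (hr _) hh
    have e2 : fheal r (resA r h a) = fun y => shs h (fheal r a y) := by
      funext y
      exact ringSet_res (ha _) (hr _) hh
    constructor
    · rintro ⟨x, hx, hR⟩
      obtain ⟨z, h1, h2⟩ := (reach_flow hh ht).1 hR
      rw [mem_SSt]
      refine ⟨z, ?_, ?_⟩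
      · rw [mem_SSt]; exact ⟨x, hx, h1⟩
      · rw [e1, e2]; exact h2
    · intro hy
      rw [mem_SSt] at hy
      obtain ⟨z, hz, h2⟩ := hy
      rw [mem_SSt] at hz
      obtain ⟨x, hx, h1⟩ := hz
      rw [e1, e2] at h2
      exact ⟨x, hx, h1.join h2⟩
  · have hno : ∀ j, ∀ u ∈ ringSet (r j) (a j), ¬ u ≤ h := fun j =>
      flags_false hr ha (by rw [hf]; rfl)
    ext y
    rw [mem_SSt]
    constructor
    · rintro ⟨x, hx, hR⟩
      have h1 := reach_stay hR (le_refl h) (fun y z _ u hu => hno _ u hu)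
      rw [h1.1]; exact hx
    · intro hy
      exact ⟨y, hy, Reach.rest hh fun u hu => hno _ u hu⟩
  · have hno : ∀ i, i ≠ j → ∀ u ∈ ringSet (r i) (a i), ¬ u ≤ h := fun i hi =>
      flags_false hr ha (by rw [hf]; exact one1_ne hi)
    have hyes : ∃ u ∈ ringSet (r j) (a j), u ≤ h :=
      flags_true hr ha (by rw [hf]; exact one1_same j)
    rcases j with w | e
    · -- recovery of `w`
      ext y
      rw [mem_SSt]
      simp only [smap, Sum.elim_inl, Finset.mem_erase]
      constructor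
      · rintro ⟨x, hx, hR⟩
        have h1 := reach_stay hR (le_refl h) (fun y z _ u hu => hno (.inr s(y, z)) (by simp) u hu)
        obtain ⟨h2, h3⟩ := h1
        subst h2
        refine ⟨?_, hx⟩
        rintro rfl
        obtain ⟨u, hu, huh⟩ := hyes
        exact h3 u hu ⟨ringSet_pos hu, huh⟩
      · rintro ⟨hne, hy⟩
        exact ⟨y, hy, Reach.rest hh fun u hu => hno (.inl y) (by simpa using hne) u hu⟩
    · ext y
      rw [mem_SSt]
      simp only [smap, Sum.elim_inr, mem_infect]
      have hheal : ∀ y : W, ∀ u ∈ fheal r a y, ¬ u ≤ h := fun y u hu => hno (.inl y) (by simp) u hu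
      constructor
      · rintro ⟨x, hx, hR⟩
        have h1 := reach_one hR (le_refl h) (e := e)
          (fun y z _ hne u hu => hno (.inr s(y, z)) (by simpa using hne) u hu)
        rcases h1 with h1 | ⟨h1, h2⟩
        · subst h1; exact Or.inl hx
        · exact Or.inr ⟨h1, x, hx, h2⟩
      · rintro (hy | ⟨hy, x, hx, hxe⟩)
        · exact ⟨y, hy, Reach.rest hh (hheal y)⟩
        · by_cases hxy : x = y
          · subst hxy; exact ⟨x, hx, Reach.rest hh (hheal x)⟩
          · have he : e = s(x, y) := (Sym2.mem_and_mem_iff hxy).1 ⟨hxe, hy⟩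
            obtain ⟨u, hu, huh⟩ := hyes
            refine ⟨x, hx, Reach.cross (ringSet_pos hu).le huh hxy ?_ (hheal x) (hheal y)⟩
            rw [← he]; exact hu

/-- index of the infection clock -/
abbrev jA (e : Sym2 W) : W ⊕ (Sym2 W ⊕ (Sym2 W ⊕ Sym2 W)) := .inr (.inl e)
/-- index of the opening clock -/
abbrev jU (e : Sym2 W) : W ⊕ (Sym2 W ⊕ (Sym2 W ⊕ Sym2 W)) := .inr (.inr (.inl e))
/-- index of the closing clock -/
abbrev jD (e : Sym2 W) : W ⊕ (Sym2 W ⊕ (Sym2 W ⊕ Sym2 W)) := .inr (.inr (.inr e))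

/-- status of an edge in finite volume -/
def fopen (r : W ⊕ (Sym2 W ⊕ (Sym2 W ⊕ Sym2 W)) → ℝ)
    (a : W ⊕ (Sym2 W ⊕ (Sym2 W ⊕ Sym2 W)) → ℕ → ℝ) (B : Sym2 W → Bool) (e : Sym2 W) (t : ℝ) :
    Prop :=
  OpenAt (ringSet (r (jU e)) (a (jU e))) (ringSet (r (jD e)) (a (jD e))) (B e = true) t

/-- crossing times of the dynamic process in finite volume -/
def darr (r : W ⊕ (Sym2 W ⊕ (Sym2 W ⊕ Sym2 W)) → ℝ)
    (a : W ⊕ (Sym2 W ⊕ (Sym2 W ⊕ Sym2 W)) → ℕ → ℝ) (B : Sym2 W → Bool) (e : Sym2 W) : Set ℝ :=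
  {t | t ∈ ringSet (r (jA e)) (a (jA e)) ∧ fopen r a B e t}

open Classical in
/-- dynamic process in finite volume -/
noncomputable def DStt (r : W ⊕ (Sym2 W ⊕ (Sym2 W ⊕ Sym2 W)) → ℝ)
    (a : W ⊕ (Sym2 W ⊕ (Sym2 W ⊕ Sym2 W)) → ℕ → ℝ) (t : ℝ) (s : DSt W) : DSt W :=
  (Finset.univ.filter fun y => ∃ x ∈ s.1, Reach (darr r a s.2) (fheal r a) x y t,
    fun e => decide (fopen r a s.2 e t))

lemma mem_DStt {r : W ⊕ (Sym2 W ⊕ (Sym2 W ⊕ Sym2 W)) → ℝ}
    {a : W ⊕ (Sym2 W ⊕ (Sym2 W ⊕ Sym2 W)) → ℕ → ℝ} {t : ℝ} {s : DSt W} {y : W} :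
    y ∈ (DStt r a t s).1 ↔ ∃ x ∈ s.1, Reach (darr r a s.2) (fheal r a) x y t := by simp [DStt]

lemma DStt_snd {r : W ⊕ (Sym2 W ⊕ (Sym2 W ⊕ Sym2 W)) → ℝ}
    {a : W ⊕ (Sym2 W ⊕ (Sym2 W ⊕ Sym2 W)) → ℕ → ℝ} {t : ℝ} {s : DSt W} {e : Sym2 W} :
    (DStt r a t s).2 e = true ↔ fopen r a s.2 e t := by simp [DStt]

lemma fopen_noflip {r : W ⊕ (Sym2 W ⊕ (Sym2 W ⊕ Sym2 W)) → ℝ}
    {a : W ⊕ (Sym2 W ⊕ (Sym2 W ⊕ Sym2 W)) → ℕ → ℝ} {B : Sym2 W → Bool} {e : Sym2 W} {h t : ℝ}
    (hth : t ≤ h) (hU : ∀ u ∈ ringSet (r (jU e)) (a (jU e)), ¬ u ≤ h)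
    (hD : ∀ u ∈ ringSet (r (jD e)) (a (jD e)), ¬ u ≤ h) : fopen r a B e t ↔ B e = true := by
  constructor
  · rintro (⟨u, hu, hut, _⟩ | ⟨h1, _⟩)
    · exact absurd (hut.trans hth) (hU u hu)
    · exact h1
  · intro h1
    exact Or.inr ⟨h1, fun d hd hdt => hD d hd (hdt.trans hth)⟩

/-- the dynamic process is driven by its clocks -/
lemma dynamic_driven {r : W ⊕ (Sym2 W ⊕ (Sym2 W ⊕ Sym2 W)) → ℝ} (hr : ∀ j, 0 ≤ r j) :
    Driven r (dmap (W := W)) (DStt r) := by
  refine ⟨fun a ha s => ?_, fun a ha h t hh ht s => ?_, fun a ha h hh hf s => ?_,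
    fun a ha h hh j hf s => ?_⟩
  · refine Prod.ext ?_ ?_
    · ext y
      rw [mem_DStt]
      constructor
      · rintro ⟨x, hx, hR⟩
        have h1 := reach_stay hR (h := 0) (le_refl _) (fun y z _ u hu huh => by
          have := ringSet_pos hu.1
          linarith)
        rw [h1.1]; exact hx
      · intro hy
        exact ⟨y, hy, Reach.start⟩
    · funext e
      rw [Bool.eq_iff_iff, DStt_snd]
      exact fopen_noflip (h := 0) (le_refl _) (fun u hu => not_le.2 (ringSet_pos hu))
        (fun u hu => not_le.2 (ringSet_pos hu))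
  · have e2 : fheal r (resA r h a) = fun y => shs h (fheal r a y) := by
      funext y
      exact ringSet_res (ha _) (hr _) hh
    have e3 : ∀ e t, 0 ≤ t → (fopen r (resA r h a) (DStt r a h s).2 e t ↔ fopen r a s.2 e (h + t)) := by
      intro e t ht
      have h1 : ringSet (r (jU e)) (resA r h a (jU e)) = shs h (ringSet (r (jU e)) (a (jU e))) :=
        ringSet_res (ha _) (hr _) hh
      have h2 : ringSet (r (jD e)) (resA r h a (jD e)) = shs h (ringSet (r (jD e)) (a (jD e))) :=
        ringSet_res (ha _) (hr _) hh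
      unfold fopen
      rw [h1, h2, DStt_snd]
      exact openAt_shift hh ht (fun u hu => ringSet_pos hu) (fun u hu => ringSet_pos hu)
    have e1 : darr r (resA r h a) (DStt r a h s).2 = fun e => shs h (darr r a s.2 e) := by
      funext e
      ext u
      have h1 : ringSet (r (jA e)) (resA r h a (jA e)) = shs h (ringSet (r (jA e)) (a (jA e))) :=
        ringSet_res (ha _) (hr _) hh
      constructor
      · rintro ⟨hu1, hu2⟩
        rw [h1] at hu1
        exact ⟨hu1.1, hu1.2, (e3 e u hu1.1.le).1 hu2⟩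
      · rintro ⟨hu0, hu1, hu2⟩
        refine ⟨?_, (e3 e u hu0.le).2 hu2⟩
        rw [h1]
        exact ⟨hu0, hu1⟩
    refine Prod.ext ?_ ?_
    · ext y
      rw [mem_DStt]
      constructor
      · rintro ⟨x, hx, hR⟩
        obtain ⟨z, h1, h2⟩ := (reach_flow hh ht).1 hR
        rw [mem_DStt]
        refine ⟨z, ?_, ?_⟩
        · rw [mem_DStt]; exact ⟨x, hx, h1⟩
        · rw [e1, e2]; exact h2
      · intro hy
        rw [mem_DStt] at hy
        obtain ⟨z, hz, h2⟩ := hy
        rw [mem_DStt] at hz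
        obtain ⟨x, hx, h1⟩ := hz
        rw [e1, e2] at h2
        exact ⟨x, hx, h1.join h2⟩
    · funext e
      rw [Bool.eq_iff_iff, DStt_snd, DStt_snd]
      exact (e3 e t ht).symm
  · have hno : ∀ j, ∀ u ∈ ringSet (r j) (a j), ¬ u ≤ h := fun j =>
      flags_false hr ha (by rw [hf]; rfl)
    refine Prod.ext ?_ ?_
    · ext y
      rw [mem_DStt]
      constructor
      · rintro ⟨x, hx, hR⟩
        have h1 := reach_stay hR (le_refl h) (fun y z _ u hu => hno _ u hu.1)
        rw [h1.1]; exact hx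
      · intro hy
        exact ⟨y, hy, Reach.rest hh fun u hu => hno _ u hu⟩
    · funext e
      rw [Bool.eq_iff_iff, DStt_snd]
      exact fopen_noflip (le_refl h) (hno _) (hno _)
  · have hno : ∀ i, i ≠ j → ∀ u ∈ ringSet (r i) (a i), ¬ u ≤ h := fun i hi =>
      flags_false hr ha (by rw [hf]; exact one1_ne hi)
    have hyes : ∃ u ∈ ringSet (r j) (a j), u ≤ h :=
      flags_true hr ha (by rw [hf]; exact one1_same j)
    rcases j with w | e | e | e
    · -- recovery of `w`
      refine Prod.ext ?_ ?_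
      · ext y
        rw [mem_DStt]
        simp only [dmap, Sum.elim_inl, Finset.mem_erase]
        constructor
        · rintro ⟨x, hx, hR⟩
          have h1 := reach_stay hR (le_refl h) (fun y z _ u hu => hno (jA s(y, z)) (by simp) u hu.1)
          obtain ⟨h2, h3⟩ := h1
          subst h2
          refine ⟨?_, hx⟩
          rintro rfl
          obtain ⟨u, hu, huh⟩ := hyes
          exact h3 u hu ⟨ringSet_pos hu, huh⟩
        · rintro ⟨hne, hy⟩
          exact ⟨y, hy, Reach.rest hh fun u hu => hno (.inl y) (by simpa using hne) u hu⟩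
      · funext e
        rw [Bool.eq_iff_iff, DStt_snd]
        exact fopen_noflip (le_refl h) (hno _ (by simp)) (hno _ (by simp))
    · -- infection clock
      have hheal : ∀ y : W, ∀ u ∈ fheal r a y, ¬ u ≤ h := fun y u hu => hno (.inl y) (by simp) u hu
      have hB : ∀ e' t, t ≤ h → (fopen r a s.2 e' t ↔ s.2 e' = true) := fun e' t ht =>
        fopen_noflip ht (hno _ (by simp)) (hno _ (by simp))
      refine Prod.ext ?_ ?_
      · ext y
        rw [mem_DStt]
        simp only [dmap, Sum.elim_inr, Sum.elim_inl]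
        constructor
        · rintro ⟨x, hx, hR⟩
          by_cases hBe : s.2 e = true
          · rw [if_pos hBe, mem_infect]
            have h1 := reach_one hR (le_refl h) (e := e)
              (fun y z _ hne u hu => hno (jA s(y, z)) (by simpa using hne) u hu.1)
            rcases h1 with h1 | ⟨h1, h2⟩
            · subst h1; exact Or.inl hx
            · exact Or.inr ⟨h1, x, hx, h2⟩
          · rw [if_neg hBe]
            have h1 := reach_stay hR (le_refl h) (fun y z _ u hu huh => by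
              by_cases he : s(y, z) = e
              · rw [he] at hu
                exact hBe ((hB e u huh).1 hu.2)
              · exact hno (jA s(y, z)) (by simpa using he) u hu.1 huh)
            rw [h1.1]; exact hx
        · intro hy
          by_cases hBe : s.2 e = true
          · rw [if_pos hBe, mem_infect] at hy
            rcases hy with hy | ⟨hy, x, hx, hxe⟩
            · exact ⟨y, hy, Reach.rest hh (hheal y)⟩
            · by_cases hxy : x = y
              · subst hxy; exact ⟨x, hx, Reach.rest hh (hheal x)⟩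
              · have he : e = s(x, y) := (Sym2.mem_and_mem_iff hxy).1 ⟨hxe, hy⟩
                obtain ⟨u, hu, huh⟩ := hyes
                refine ⟨x, hx, Reach.cross (ringSet_pos hu).le huh hxy ?_ (hheal x) (hheal y)⟩
                rw [← he]
                exact ⟨hu, (hB e u huh).2 hBe⟩
          · rw [if_neg hBe] at hy
            exact ⟨y, hy, Reach.rest hh (hheal y)⟩
      · funext e'
        rw [Bool.eq_iff_iff, DStt_snd]
        exact hB e' h (le_refl h)
    · -- opening clock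
      refine Prod.ext ?_ ?_
      · ext y
        rw [mem_DStt]
        constructor
        · rintro ⟨x, hx, hR⟩
          have h1 := reach_stay hR (le_refl h) (fun y z _ u hu => hno (jA s(y, z)) (by simp) u hu.1)
          rw [h1.1]; exact hx
        · intro hy
          exact ⟨y, hy, Reach.rest hh fun u hu => hno (.inl y) (by simp) u hu⟩
      · funext e'
        rw [Bool.eq_iff_iff, DStt_snd]
        by_cases hee : e' = e
        · subst hee
          simp only [dmap, Sum.elim_inr, Sum.elim_inl, upd_same, iff_true]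
          obtain ⟨u, hu, huh⟩ := hyes
          exact Or.inl ⟨u, hu, huh, fun d hd hd2 => hno (jD e') (by simp) d hd hd2.2⟩
        · simp only [dmap, Sum.elim_inr, Sum.elim_inl, upd_ne _ hee]
          exact fopen_noflip (le_refl h) (hno _ (by simpa using hee)) (hno _ (by simp))
    · -- closing clock
      refine Prod.ext ?_ ?_
      · ext y
        rw [mem_DStt]
        constructor
        · rintro ⟨x, hx, hR⟩
          have h1 := reach_stay hR (le_refl h) (fun y z _ u hu => hno (jA s(y, z)) (by simp) u hu.1)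
          rw [h1.1]; exact hx
        · intro hy
          exact ⟨y, hy, Reach.rest hh fun u hu => hno (.inl y) (by simp) u hu⟩
      · funext e'
        rw [Bool.eq_iff_iff, DStt_snd]
        by_cases hee : e' = e
        · subst hee
          simp only [dmap, Sum.elim_inr, upd_same]
          constructor
          · rintro (⟨u, hu, huh, _⟩ | ⟨_, h1⟩)
            · exact absurd huh (hno (jU e') (by simp) u hu)
            · obtain ⟨u, hu, huh⟩ := hyes
              exact absurd huh (h1 u hu)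
          · intro h1
            exact absurd h1 (by simp)
        · simp only [dmap, Sum.elim_inr, upd_ne _ hee]
          exact fopen_noflip (le_refl h) (hno _ (by simp)) (hno _ (by simpa using hee))

end Finite

end Pool.Agent.Helper97.Dyn
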