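import Mathlib
import Pool.Agent.Helper97.Dyn.Path

/-!
From the infinite graph to finite volumes: survival up to time `T` is the increasing union over
finite volumes, and the finite-volume probabilities are limits of iterated Euler steps.
-/

open MeasureTheory ProbabilityTheory Filter
open scoped ENNReal Topology

set_option linter.unusedSectionVars false

namespace Pool.Agent.Helper97.Dyn

section Paths

variable {V : Type*} {arr : Sym2 V → Set ℝ} {heal : V → Set ℝ} {x : V}

/-- crossing times inside a finite volume -/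
def arrIn (Λ : Finset V) (arr : Sym2 V → Set ℝ) (e : Sym2 ↥Λ) : Set ℝ := arr (e.map Subtype.val)

/-- recovery times inside a finite volume -/
def healIn (Λ : Finset V) (heal : V → Set ℝ) (z : ↥Λ) : Set ℝ := heal z.1

/-- infected at time `T` using only vertices of `Λ` -/
def AliveIn (Λ : Finset V) (arr : Sym2 V → Set ℝ) (heal : V → Set ℝ) (x : V) (T : ℝ) : Prop :=
  ∃ (hx : x ∈ Λ) (y : ↥Λ), Reach (arrIn Λ arr) (healIn Λ heal) ⟨x, hx⟩ y T

lemma Reach.ofIn {Λ : Finset V} {x y : ↥Λ} {t : ℝ}
    (h : Reach (arrIn Λ arr) (healIn Λ heal) x y t) : Reach arr heal x.1 y.1 t := by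
  induction h with
  | start => exact Reach.start
  | wait _ hst hu ih => exact ih.wait hst hu
  | jump _ hne ht ih => exact ih.jump (fun hh => hne (Subtype.ext hh)) ht

lemma Reach.inMono {Λ Λ' : Finset V} (hΛ : Λ ⊆ Λ') {x y : ↥Λ} {t : ℝ}
    (h : Reach (arrIn Λ arr) (healIn Λ heal) x y t) :
    Reach (arrIn Λ' arr) (healIn Λ' heal) ⟨x.1, hΛ x.2⟩ ⟨y.1, hΛ y.2⟩ t := by
  induction h with
  | start => exact Reach.start
  | wait _ hst hu ih => exact ih.wait hst hu
  | jump _ hne ht ih =>
    refine ih.jump (fun hh => hne (Subtype.ext ?_)) ht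
    exact congrArg (fun z : ↥Λ' => z.1) hh

lemma AliveIn.mono {Λ Λ' : Finset V} (hΛ : Λ ⊆ Λ') {T : ℝ} (h : AliveIn Λ arr heal x T) :
    AliveIn Λ' arr heal x T := by
  obtain ⟨hx, y, hy⟩ := h
  exact ⟨hΛ hx, ⟨y.1, hΛ y.2⟩, hy.inMono hΛ⟩

lemma Reach.exhaust {y : V} {t : ℝ} (h : Reach arr heal x y t) :
    ∃ (Λ : Finset V) (hx : x ∈ Λ) (hy : y ∈ Λ),
      Reach (arrIn Λ arr) (healIn Λ heal) ⟨x, hx⟩ ⟨y, hy⟩ t := by
  classical
  induction h with
  | start => exact ⟨{x}, by simp, by simp, Reach.start⟩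
  | wait _ hst hu ih =>
    obtain ⟨Λ, hx, hy, hR⟩ := ih
    exact ⟨Λ, hx, hy, hR.wait hst hu⟩
  | @jump y z t _ hne ht ih =>
    obtain ⟨Λ, hx, hy, hR⟩ := ih
    have hsub : Λ ⊆ insert z Λ := Finset.subset_insert _ _
    refine ⟨insert z Λ, hsub hx, Finset.mem_insert_self _ _, ?_⟩
    refine (hR.inMono hsub).jump (fun hh => hne ?_) ht
    exact congrArg (fun z : ↥(insert z Λ) => z.1) hh

lemma alive_iff {T : ℝ} : (∃ y, Reach arr heal x y T) ↔ ∃ Λ : Finset V, AliveIn Λ arr heal x T := by
  constructor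
  · rintro ⟨y, hy⟩
    obtain ⟨Λ, hx, hyΛ, hR⟩ := hy.exhaust
    exact ⟨Λ, hx, ⟨y, hyΛ⟩, hR⟩
  · rintro ⟨Λ, hx, y, hy⟩
    exact ⟨y.1, hy.ofIn⟩

lemma survives_iff : Survives arr heal x ↔ ∀ n : ℕ, ∃ y, Reach arr heal x y n := by
  constructor
  · intro h n
    exact h n (Nat.cast_nonneg n)
  · intro h t ht
    obtain ⟨n, hn⟩ := exists_nat_ge t
    obtain ⟨y, hy⟩ := h n
    exact hy.before ht hn

end Paths

section Measure

variable {V : Type*}

instance unifProb : IsProbabilityMeasure ((volume : Measure ℝ).restrict (Set.Icc (0 : ℝ) 1)) := by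
  refine ⟨?_⟩
  rw [Measure.restrict_apply MeasurableSet.univ, Set.univ_inter, Real.volume_Icc]
  simp

instance : IsProbabilityMeasure (noiseLaw V) := by
  unfold noiseLaw
  infer_instance

/-- clocks used in a finite volume by the dynamic process -/
def embD (Λ : Finset V) : ↥Λ ⊕ (Sym2 ↥Λ ⊕ (Sym2 ↥Λ ⊕ Sym2 ↥Λ)) → Clock V
  | .inl x => .heal x.1
  | .inr (.inl e) => .arrow (e.map Subtype.val)
  | .inr (.inr (.inl e)) => .up (e.map Subtype.val)
  | .inr (.inr (.inr e)) => .down (e.map Subtype.val)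

/-- clocks used in a finite volume by the static process -/
def embS (Λ : Finset V) : ↥Λ ⊕ Sym2 ↥Λ → Clock V
  | .inl x => .heal x.1
  | .inr e => .arrow (e.map Subtype.val)

lemma map_val_inj (Λ : Finset V) : Function.Injective (Sym2.map (Subtype.val : ↥Λ → V)) :=
  Sym2.map.injective Subtype.val_injective

lemma embD_inj (Λ : Finset V) : Function.Injective (embD Λ) := by
  intro i j h
  rcases i with x | e | e | e <;> rcases j with y | f | f | f <;> simp only [embD] at h <;>
    first
    | rw [Subtype.ext (Clock.heal.inj h)]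
    | rw [map_val_inj Λ (Clock.arrow.inj h)]
    | rw [map_val_inj Λ (Clock.up.inj h)]
    | rw [map_val_inj Λ (Clock.down.inj h)]
    | cases h

lemma embS_inj (Λ : Finset V) : Function.Injective (embS Λ) := by
  intro i j h
  rcases i with x | e <;> rcases j with y | f <;> simp only [embS] at h <;>
    first
    | rw [Subtype.ext (Clock.heal.inj h)]
    | rw [map_val_inj Λ (Clock.arrow.inj h)]
    | rw [map_val_inj Λ (Clock.up.inj h)]
    | rw [map_val_inj Λ (Clock.down.inj h)]
    | cases h

variable [DecidableEq V]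

lemma emb_mp {J I : Type*} [Fintype J] {f : J → I} (hf : Function.Injective f) :
    MeasurePreserving (fun (a : I → ℕ → ℝ) (j : J) => a (f j))
      (Measure.infinitePi fun _ : I => gapLaw) (gpi J) := by
  refine ⟨by fun_prop, ?_⟩
  rw [Measure.map_infinitePi_infinitePi_of_inj (P := fun _ : I => gapLaw) hf]
  unfold gpi
  exact Measure.infinitePi_eq_pi (μ := fun _ : J => gapLaw)

/-- law of finitely many uniform numbers -/
noncomputable def ulaw (J : Type*) [Fintype J] : Measure (J → ℝ) :=
  Measure.pi fun _ => volume.restrict (Set.Icc (0 : ℝ) 1)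

instance {J : Type*} [Fintype J] : IsProbabilityMeasure (ulaw J) := by
  unfold ulaw; infer_instance

lemma embU_mp {J I : Type*} [Fintype J] {f : J → I} (hf : Function.Injective f) :
    MeasurePreserving (fun (a : I → ℝ) (j : J) => a (f j))
      (Measure.infinitePi fun _ : I => volume.restrict (Set.Icc (0 : ℝ) 1)) (ulaw J) := by
  refine ⟨by fun_prop, ?_⟩
  rw [Measure.map_infinitePi_infinitePi_of_inj
    (P := fun _ : I => volume.restrict (Set.Icc (0 : ℝ) 1)) hf]
  unfold ulaw
  exact Measure.infinitePi_eq_pi (μ := fun _ : J => volume.restrict (Set.Icc (0 : ℝ) 1))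

/-- open pairs at time zero -/
noncomputable def binit {J : Type*} (π : J → ℝ) (U : J → ℝ) : J → Bool :=
  open Classical in fun e => decide (U e < π e)

lemma unif_lt {q : ℝ} (h0 : 0 ≤ q) (h1 : q ≤ 1) :
    (volume.restrict (Set.Icc (0 : ℝ) 1)) {u | u < q} = ENNReal.ofReal q := by
  have hm : MeasurableSet {u : ℝ | u < q} := measurableSet_lt measurable_id measurable_const
  rw [Measure.restrict_apply hm]
  have : {u : ℝ | u < q} ∩ Set.Icc 0 1 = Set.Ico 0 q := by
    ext u
    simp only [Set.mem_inter_iff, Set.mem_ofPred_eq, Set.mem_Icc, Set.mem_Ico]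
    constructor
    · rintro ⟨h2, h3, _⟩; exact ⟨h3, h2⟩
    · rintro ⟨h2, h3⟩; exact ⟨h3, h2, by linarith⟩
  rw [this, Real.volume_Ico, sub_zero]

lemma measurableSet_binit {J : Type*} [Fintype J] (π : J → ℝ) (b : J → Bool) :
    MeasurableSet {U : J → ℝ | binit π U = b} := by
  have : {U : J → ℝ | binit π U = b} = Set.univ.pi fun e => {u | decide (u < π e) = b e} := by
    ext U
    simp only [Set.mem_ofPred_eq, Set.mem_univ_pi]
    constructor
    · intro h e; rw [← h]; unfold binit; simp
    · intro h; funext e; unfold binit; rw [← h e]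
  rw [this]
  refine MeasurableSet.univ_pi fun e => ?_
  cases b e
  · have : {u : ℝ | decide (u < π e) = false} = {u | π e ≤ u} := by ext u; simp
    rw [this]
    exact measurableSet_le measurable_const measurable_id
  · have : {u : ℝ | decide (u < π e) = true} = {u | u < π e} := by ext u; simp
    rw [this]
    exact measurableSet_lt measurable_id measurable_const

lemma binit_law {J : Type*} [Fintype J] [DecidableEq J] {π : J → ℝ} (h0 : ∀ e, 0 ≤ π e)
    (h1 : ∀ e, π e ≤ 1) (b : J → Bool) :
    (ulaw J) {U : J → ℝ | binit π U = b} = ENNReal.ofReal (wt π b) := by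
  have : {U : J → ℝ | binit π U = b} = Set.univ.pi fun e => {u | decide (u < π e) = b e} := by
    ext U
    simp only [Set.mem_ofPred_eq, Set.mem_univ_pi]
    constructor
    · intro h e; rw [← h]; unfold binit; simp
    · intro h; funext e; unfold binit; rw [← h e]
  rw [this]
  unfold ulaw
  rw [Measure.pi_pi, wt, ENNReal.ofReal_prod_of_nonneg fun e _ => w1_nonneg (h0 e) (h1 e) _]
  refine Finset.prod_congr rfl fun e _ => ?_
  cases b e
  · have h2 : {u : ℝ | decide (u < π e) = false} = {u | u < π e}ᶜ := by ext u; simp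
    have hm : MeasurableSet {u : ℝ | u < π e} := measurableSet_lt measurable_id measurable_const
    rw [h2, prob_compl_eq_one_sub hm, unif_lt (h0 e) (h1 e), w1_false,
      ENNReal.ofReal_sub _ (h0 e), ENNReal.ofReal_one]
  · have h2 : {u : ℝ | decide (u < π e) = true} = {u | u < π e} := by ext u; simp
    rw [h2, unif_lt (h0 e) (h1 e), w1_true]

/-- splitting over the initial open pairs -/
lemma split_binit {Ω J : Type*} [MeasurableSpace Ω] {P : Measure Ω} [IsProbabilityMeasure P]
    [Fintype J] [DecidableEq J] {π : J → ℝ} (h0 : ∀ e, 0 ≤ π e) (h1 : ∀ e, π e ≤ 1)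
    {Q : Ω → (J → Bool) → Prop} (hQ : ∀ b, NullMeasurableSet {a | Q a b} P) :
    NullMeasurableSet {x : Ω × (J → ℝ) | Q x.1 (binit π x.2)} (P.prod (ulaw J)) ∧
    (P.prod (ulaw J)).real {x : Ω × (J → ℝ) | Q x.1 (binit π x.2)} =
      Ex π fun b => P.real {a | Q a b} := by
  have hS : {x : Ω × (J → ℝ) | Q x.1 (binit π x.2)} =
      ⋃ b ∈ (Finset.univ : Finset (J → Bool)), ({a | Q a b} ×ˢ {U | binit π U = b}) := by
    ext x
    simp only [Set.mem_ofPred_eq, Finset.mem_univ, Set.iUnion_true, Set.mem_iUnion, Set.mem_prod]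
    constructor
    · intro h; exact ⟨_, h, rfl⟩
    · rintro ⟨b, h, rfl⟩; exact h
  have hnm : ∀ b : J → Bool, NullMeasurableSet ({a | Q a b} ×ˢ {U : J → ℝ | binit π U = b})
      (P.prod (ulaw J)) := fun b =>
    (hQ b).prod (measurableSet_binit π b).nullMeasurableSet
  refine ⟨?_, ?_⟩
  · rw [hS]
    exact Finset.nullMeasurableSet_biUnion _ fun b _ => hnm b
  · unfold Measure.real
    rw [hS, measure_biUnion_finset₀]
    · rw [ENNReal.toReal_sum fun b _ => measure_ne_top _ _]
      unfold Ex
      refine Finset.sum_congr rfl fun b _ => ?_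
      rw [Measure.prod_prod, binit_law h0 h1, ENNReal.toReal_mul,
        ENNReal.toReal_ofReal (wt_nonneg h0 h1 b), mul_comm]
    · intro b _ b' _ hne
      refine Disjoint.aedisjoint (Set.disjoint_left.2 fun x hx hx' => hne ?_)
      exact hx.2.symm.trans hx'.2
    · exact fun b _ => hnm b

end Measure

end Pool.Agent.Helper97.Dyn
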