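import Mathlib
import Pool.Agent.Helper97.Dyn.Chain

/-!
Bounds for the finite-volume dynamic chain: extinction from the static Lyapunov function, and
comparison with a static chain from below.
-/

open Finset Filter Topology

set_option linter.unusedSectionVars false

namespace Pool.Agent.Helper97.Dyn

variable {W : Type*} [Fintype W] [DecidableEq W]

/-- number of revealed edges -/
noncomputable def nrev (R : Sym2 W → Bool) : ℝ := ∑ e, ind (R e = true)

lemma nrev_upd_true (R : Sym2 W → Bool) (e : Sym2 W) : nrev (upd R e true) ≤ nrev R + 1 := by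
  unfold nrev
  rw [← Finset.add_sum_erase _ _ (mem_univ e), ← Finset.add_sum_erase univ (fun e => ind (R e = true)) (mem_univ e)]
  have h1 : ∑ x ∈ univ.erase e, ind (upd R e true x = true) = ∑ x ∈ univ.erase e, ind (R x = true) := by
    refine sum_congr rfl fun x hx => ?_
    rw [upd_ne _ (ne_of_mem_erase hx)]
  rw [h1]
  have h2 := ind_le_one (upd R e true e = true)
  have h3 := ind_nonneg (R e = true)
  linarith

lemma nrev_upd_false (R : Sym2 W → Bool) (e : Sym2 W) :
    nrev (upd R e false) = nrev R - ind (R e = true) := by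
  unfold nrev
  rw [← Finset.add_sum_erase _ _ (mem_univ e), ← Finset.add_sum_erase univ (fun e => ind (R e = true)) (mem_univ e)]
  have h1 : ∑ x ∈ univ.erase e, ind (upd R e false x = true) = ∑ x ∈ univ.erase e, ind (R x = true) := by
    refine sum_congr rfl fun x hx => ?_
    rw [upd_ne _ (ne_of_mem_erase hx)]
  rw [h1, upd_same]
  have : ind (false = true) = 0 := ind_neg Bool.false_ne_true
  rw [this]
  ring

lemma nrev_zer : nrev (zer : Sym2 W → Bool) = 0 :=
  sum_eq_zero fun _ _ => ind_neg Bool.false_ne_true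

lemma nrev_nonneg (R : Sym2 W → Bool) : 0 ≤ nrev R := sum_nonneg fun _ _ => ind_nonneg _

lemma sub_infect {g : Finset W → ℝ} (hg : Sub g) {χ : ℝ} (hχ0 : 0 ≤ χ) (hχ : ∀ y, g {y} ≤ χ)
    (e : Sym2 W) (C : Finset W) : g (infect e C) ≤ g C + χ := by
  induction e using Sym2.ind with
  | _ u v =>
    rw [infect_mk]
    split_ifs
    · rw [insert_eq, union_comm]
      exact (hg.sub _ _).trans (by linarith [hχ v])
    · rw [insert_eq, union_comm]
      exact (hg.sub _ _).trans (by linarith [hχ u])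
    · linarith

open Classical in
/-- the Lyapunov function of the reveal chain -/
lemma lyap_reveal {lam lam0 : ℝ} (hlam : 0 ≤ lam) (hll : lam ≤ lam0) {π ν : Sym2 W → ℝ}
    (hπ0 : ∀ e, 0 ≤ π e) {g : Finset W → ℝ} (hg : Sub g) {χ : ℝ} (hχ0 : 0 ≤ χ)
    (hχ : ∀ y, g {y} ≤ χ)
    (hgen : ∀ C, gen (srate 1 (fun e => lam0 * π e)) smap g C ≤ -(3 / 4 * C.card))
    {P cν κ : ℝ} (hP : ∀ x : W, ∑ e : Sym2 W, ind (x ∈ e) * π e ≤ P) (hν : ∀ e, cν ≤ ν e)
    (hκ0 : 0 ≤ κ) (hκ1 : κ * (lam * P) ≤ 1 / 4) (hκ2 : lam * χ ≤ κ * cν) (s : DSt W) :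
    gen (rrate lam π ν) rmap (fun s : DSt W => g s.1 + κ * nrev s.2) s ≤
      -(1 / 2 * s.1.card) := by
  obtain ⟨C, R⟩ := s
  rw [gen_r]
  simp only
  have hd0 : ∀ e, 0 ≤ g (infect e C) - g C := fun e => by
    linarith [hg.mono _ _ (subset_infect e C)]
  -- bound each edge term
  have h1 : ∀ e : Sym2 W, (lam * (g (if R e = true then infect e C else C) + κ * nrev R -
      (g C + κ * nrev R)) +
      (lam * π e * (g (if R e = false ∧ touch e C then (infect e C, upd R e true) else (C, R)).1 +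
        κ * nrev (if R e = false ∧ touch e C then (infect e C, upd R e true) else (C, R)).2 -
        (g C + κ * nrev R)) + ν e * (g C + κ * nrev (upd R e false) - (g C + κ * nrev R)))) ≤
      lam0 * π e * (g (infect e C) - g C) + κ * lam * (π e * ind (touch e C)) := by
    intro e
    rw [nrev_upd_false]
    have hνe := hν e
    have hlp : lam * π e ≤ lam0 * π e := mul_le_mul_of_nonneg_right hll (hπ0 e)
    have h2 : lam * π e * (g (infect e C) - g C) ≤ lam0 * π e * (g (infect e C) - g C) :=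
      mul_le_mul_of_nonneg_right hlp (hd0 e)
    have h2' : 0 ≤ lam0 * π e * (g (infect e C) - g C) :=
      mul_nonneg (mul_nonneg (hlam.trans hll) (hπ0 e)) (hd0 e)
    have h3 : 0 ≤ κ * lam * (π e * ind (touch e C)) :=
      mul_nonneg (mul_nonneg hκ0 hlam) (mul_nonneg (hπ0 e) (ind_nonneg _))
    by_cases hR : R e = true
    · have h4 : ¬ (R e = false ∧ touch e C) := by
        rintro ⟨h5, _⟩; rw [hR] at h5; exact Bool.noConfusion h5
      rw [if_pos hR, if_neg h4, ind_pos hR]
      have h5 := sub_infect hg hχ0 hχ e C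
      have h6 : lam * (g (infect e C) - g C) ≤ lam * χ :=
        mul_le_mul_of_nonneg_left (by linarith) hlam
      have h7 : κ * cν ≤ κ * ν e := mul_le_mul_of_nonneg_left hνe hκ0
      calc _ = lam * (g (infect e C) - g C) - κ * ν e := by ring
        _ ≤ 0 := by linarith
        _ ≤ _ := by linarith
    · have hR' : R e = false := by simpa using hR
      rw [if_neg hR, ind_neg hR]
      by_cases ht : touch e C
      · rw [if_pos ⟨hR', ht⟩, ind_pos ht]
        have h8 := nrev_upd_true R e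
        have h9 : lam * π e * (κ * nrev (upd R e true) - κ * nrev R) ≤ lam * π e * κ := by
          refine mul_le_mul_of_nonneg_left ?_ (mul_nonneg hlam (hπ0 e))
          have := mul_le_mul_of_nonneg_left h8 hκ0
          linarith
        calc _ = lam * π e * (g (infect e C) - g C) +
              lam * π e * (κ * nrev (upd R e true) - κ * nrev R) := by ring
          _ ≤ lam0 * π e * (g (infect e C) - g C) + lam * π e * κ := add_le_add h2 h9
          _ = _ := by ring
      · rw [if_neg (fun h => ht h.2)]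
        calc _ = (0 : ℝ) := by ring
          _ ≤ _ := by linarith
  have h10 := (sum_le_sum fun e (_ : e ∈ (univ : Finset (Sym2 W))) => h1 e).trans
    (le_of_eq (show ∑ e : Sym2 W, (lam0 * π e * (g (infect e C) - g C) +
      κ * lam * (π e * ind (touch e C))) = ∑ e : Sym2 W, lam0 * π e * (g (infect e C) - g C) +
      κ * lam * ∑ e : Sym2 W, π e * ind (touch e C) by rw [sum_add_distrib, ← mul_sum]))
  have h11 : ∑ e : Sym2 W, π e * ind (touch e C) ≤ P * C.card := by
    calc ∑ e : Sym2 W, π e * ind (touch e C) ≤ ∑ e : Sym2 W, ∑ x ∈ C, ind (x ∈ e) * π e := by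
          refine sum_le_sum fun e _ => ?_
          by_cases ht : touch e C
          · obtain ⟨x, hx, hxe⟩ := ht
            rw [ind_pos ⟨x, hx, hxe⟩, mul_one]
            refine le_trans ?_ (single_le_sum (f := fun x => ind (x ∈ e) * π e)
              (fun i _ => mul_nonneg (ind_nonneg _) (hπ0 e)) hx)
            rw [ind_pos hxe, one_mul]
          · rw [ind_neg ht, mul_zero]
            exact sum_nonneg fun x _ => mul_nonneg (ind_nonneg _) (hπ0 e)
      _ = ∑ x ∈ C, ∑ e : Sym2 W, ind (x ∈ e) * π e := sum_comm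
      _ ≤ ∑ x ∈ C, P := sum_le_sum fun x _ => hP x
      _ = _ := by rw [sum_const, nsmul_eq_mul]; ring
  have h12 : κ * lam * ∑ e : Sym2 W, π e * ind (touch e C) ≤ 1 / 4 * C.card := by
    have h13 : κ * lam * ∑ e : Sym2 W, π e * ind (touch e C) ≤ κ * lam * (P * C.card) :=
      mul_le_mul_of_nonneg_left h11 (mul_nonneg hκ0 hlam)
    have h14 : κ * lam * (P * C.card) ≤ 1 / 4 * C.card := by
      have := mul_le_mul_of_nonneg_right hκ1 (Nat.cast_nonneg C.card : (0 : ℝ) ≤ C.card)
      calc _ = κ * (lam * P) * C.card := by ring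
        _ ≤ _ := this
    exact h13.trans h14
  have h15 := hgen C
  rw [gen_s] at h15
  simp only [one_mul] at h15
  have h16 : ∑ x : W, (g (C.erase x) + κ * nrev R - (g C + κ * nrev R)) =
      ∑ x : W, (g (C.erase x) - g C) := sum_congr rfl fun x _ => by ring
  rw [h16]
  linarith

/-- indicator of survival -/
noncomputable def alive (s : DSt W) : ℝ := ind (s.1.Nonempty)

lemma alive_mono : Monotone (alive (W := W)) := fun _ _ h => ind_mono fun hn => hn.mono h.1

lemma alive_le_card (s : DSt W) : alive s ≤ s.1.card := by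
  unfold alive
  by_cases h : s.1.Nonempty
  · rw [ind_pos h]
    have : 1 ≤ s.1.card := Finset.card_pos.2 h
    exact_mod_cast this
  · rw [ind_neg h]; positivity

lemma dmap_alive (j : W ⊕ (Sym2 W ⊕ (Sym2 W ⊕ Sym2 W))) (s : DSt W) :
    alive (dmap j s) ≤ alive s := by
  unfold alive
  refine ind_mono fun h => ?_
  rcases j with x | e | e | e
  · exact h.mono (erase_subset _ _)
  · simp only [dmap, Sum.elim_inr, Sum.elim_inl] at h
    split_ifs at h
    · exact infect_nonempty h
    · exact h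
  · exact h
  · exact h

section Main

variable {lam : ℝ} {π ν : Sym2 W → ℝ}

/-- total rate bound used to restrict the step -/
noncomputable def totR (lam : ℝ) (π ν : Sym2 W → ℝ) : ℝ :=
  (∑ j, drate (W := W) lam (fun e => ν e * π e) (fun e => ν e * (1 - π e)) j) +
    ∑ j, rrate (W := W) lam π ν j

lemma drate_nonneg {ro rc : Sym2 W → ℝ} (hlam : 0 ≤ lam) (h1 : ∀ e, 0 ≤ ro e) (h2 : ∀ e, 0 ≤ rc e)
    (j : W ⊕ (Sym2 W ⊕ (Sym2 W ⊕ Sym2 W))) : 0 ≤ drate lam ro rc j := by
  rcases j with x | e | e | e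
  · exact zero_le_one
  · exact hlam
  · exact h1 e
  · exact h2 e

lemma rrate_nonneg (hlam : 0 ≤ lam) (hπ0 : ∀ e, 0 ≤ π e) (hν0 : ∀ e, 0 ≤ ν e)
    (j : W ⊕ (Sym2 W ⊕ (Sym2 W ⊕ Sym2 W))) : 0 ≤ rrate lam π ν j := by
  rcases j with x | e | e | e
  · exact zero_le_one
  · exact hlam
  · exact mul_nonneg hlam (hπ0 e)
  · exact hν0 e

lemma srate_nonneg {δ : ℝ} (hδ : 0 ≤ δ) {a : Sym2 W → ℝ} (ha : ∀ e, 0 ≤ a e) (j : W ⊕ Sym2 W) :
    0 ≤ srate δ a j := by
  rcases j with x | e
  · exact hδ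
  · exact ha e

/-- survival of the dynamic chain is at most `2 χ / t` -/
theorem dyn_upper {lam0 : ℝ} (hlam : 0 ≤ lam) (hll : lam ≤ lam0)
    (hπ0 : ∀ e, 0 ≤ π e) (hπ1 : ∀ e, π e ≤ 1) (hν0 : ∀ e, 0 ≤ ν e)
    {g : Finset W → ℝ} (hg : Sub g) {χ : ℝ} (hχ0 : 0 ≤ χ) (hχ : ∀ y, g {y} ≤ χ)
    (hgen : ∀ C, gen (srate 1 (fun e => lam0 * π e)) smap g C ≤ -(3 / 4 * C.card))
    {P cν κ : ℝ} (hP : ∀ x : W, ∑ e : Sym2 W, ind (x ∈ e) * π e ≤ P) (hν : ∀ e, cν ≤ ν e)
    (hκ0 : 0 ≤ κ) (hκ1 : κ * (lam * P) ≤ 1 / 4) (hκ2 : lam * χ ≤ κ * cν)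
    {h : ℝ} (h0 : 0 ≤ h) (h1 : totR (W := W) lam π ν * h ≤ 1) (n : ℕ) (z : W) :
    n * h * Ex π (fun β => (stp (drate lam (fun e => ν e * π e) (fun e => ν e * (1 - π e)))
      dmap h)^[n] alive ({z}, β)) ≤ 2 * χ := by
  set rd := drate (W := W) lam (fun e => ν e * π e) (fun e => ν e * (1 - π e)) with hrd
  have hrd0 : ∀ j, 0 ≤ rd j := drate_nonneg hlam (fun e => mul_nonneg (hν0 e) (hπ0 e))
    (fun e => mul_nonneg (hν0 e) (by linarith [hπ1 e]))
  have hrr0 : ∀ j, 0 ≤ rrate (W := W) lam π ν j := rrate_nonneg hlam hπ0 hν0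
  have hsd : 0 ≤ ∑ j, rd j := sum_nonneg fun j _ => hrd0 j
  have hsr : 0 ≤ ∑ j, rrate (W := W) lam π ν j := sum_nonneg fun j _ => hrr0 j
  have hd1 : (∑ j, rd j) * h ≤ 1 := by
    refine le_trans ?_ h1
    refine mul_le_mul_of_nonneg_right ?_ h0
    unfold totR
    rw [← hrd]; linarith
  have hr1 : (∑ j, rrate (W := W) lam π ν j) * h ≤ 1 := by
    refine le_trans ?_ h1
    refine mul_le_mul_of_nonneg_right ?_ h0
    unfold totR
    rw [← hrd]; linarith
  -- antitone in n
  have hstep : ∀ s, stp rd dmap h alive s ≤ alive s := by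
    intro s
    unfold stp gen
    have : ∑ j, rd j * (alive (dmap j s) - alive s) ≤ 0 := by
      refine sum_nonpos fun j _ => ?_
      exact mul_nonpos_of_nonneg_of_nonpos (hrd0 j) (by linarith [dmap_alive j s])
    nlinarith
  have hanti1 : ∀ k s, (stp rd dmap h)^[k + 1] alive s ≤ (stp rd dmap h)^[k] alive s := by
    intro k s
    rw [Function.iterate_succ_apply]
    exact stp_iter_mono hrd0 h0 hd1 hstep k s
  have hanti : ∀ k m s, (stp rd dmap h)^[k + m] alive s ≤ (stp rd dmap h)^[k] alive s := by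
    intro k m s
    induction m with
    | zero => exact le_refl _
    | succ m ih => exact (hanti1 (k + m) s).trans ih
  -- comparison with the reveal chain
  have hcmp : ∀ k s, Kr π ((stp rd dmap h)^[k] alive) s ≤
      (stp (rrate lam π ν) rmap h)^[k] (Kr π alive) s := by
    intro k s
    exact compare_iter hrr0 h0 hr1 (Kr π) (fun f g s => Kr_lin π h f g s) Monotone
      (fun f hf => stp_monotone hrd0 h0 hd1 dmap_mono hf)
      (fun f hf s => Kr_gen_le hlam hπ0 hπ1 hf s) alive_mono k s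
  have hKr : ∀ s : DSt W, Kr π alive s = alive s := by
    intro s
    unfold Kr alive
    exact Ex_const π (ind s.1.Nonempty)
  have hKf : Kr π (alive (W := W)) = alive := funext hKr
  rw [hKf] at hcmp
  -- Lyapunov
  set V : DSt W → ℝ := fun s => g s.1 + κ * nrev s.2 with hV
  have hV0 : ∀ s, 0 ≤ V s := fun s => add_nonneg (hg.nonneg _) (mul_nonneg hκ0 (nrev_nonneg _))
  have hly : ∀ s, gen (rrate lam π ν) rmap V s ≤ -(1 / 2 * alive s) := by
    intro s
    refine (lyap_reveal hlam hll hπ0 hg hχ0 hχ hgen hP hν hκ0 hκ1 hκ2 s).trans ?_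
    have := alive_le_card s
    linarith
  have hocc := lyap_iter hrr0 h0 hr1 hV0 hly n ({z}, zer)
  have hVz : V ({z}, zer) = g {z} := by
    rw [hV]; simp only [nrev_zer]; ring
  rw [hVz] at hocc
  -- stp linear in the scalar 1/2
  have hlin : ∀ (k : ℕ) (s : DSt W), (stp (rrate lam π ν) rmap h)^[k] (fun s => 1 / 2 * alive s) s =
      1 / 2 * (stp (rrate lam π ν) rmap h)^[k] alive s := by
    intro k
    induction k with
    | zero => intro s; rfl
    | succ k ih =>
      intro s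
      rw [Function.iterate_succ_apply', Function.iterate_succ_apply']
      have h2 : (stp (rrate lam π ν) rmap h)^[k] (fun s => 1 / 2 * alive s) = fun s =>
        1 / 2 * (stp (rrate lam π ν) rmap h)^[k] alive s := funext ih
      rw [h2, stp_eq, stp_eq]
      have h3 : ∑ j, rrate lam π ν j * (1 / 2 * (stp (rrate lam π ν) rmap h)^[k] alive (rmap j s))
          = 1 / 2 * ∑ j, rrate lam π ν j * (stp (rrate lam π ν) rmap h)^[k] alive (rmap j s) := by
        rw [mul_sum]; exact sum_congr rfl fun j _ => by ring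
      rw [h3]; ring
  have hEx : ∀ k, Ex π (fun β => (stp rd dmap h)^[k] alive ({z}, β)) =
      Kr π ((stp rd dmap h)^[k] alive) ({z}, zer) := by
    intro k
    unfold Kr
    refine Ex_congr fun β => ?_
    have : bor β (zer : Sym2 W → Bool) = β := by funext e; simp [bor, zer]
    simp only [this]
  have hsum : ∑ k ∈ range n, (1 / 2 * Ex π (fun β => (stp rd dmap h)^[n] alive ({z}, β))) ≤
      ∑ k ∈ range n, (stp (rrate lam π ν) rmap h)^[k] (fun s => 1 / 2 * alive s) ({z}, zer) := by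
    refine sum_le_sum fun k hk => ?_
    rw [hlin]
    refine mul_le_mul_of_nonneg_left ?_ (by norm_num)
    refine le_trans ?_ (hcmp k ({z}, zer))
    rw [← hEx]
    refine Ex_mono hπ0 hπ1 fun β => ?_
    rw [mem_range] at hk
    have := hanti k (n - k) ({z}, β)
    rwa [Nat.add_sub_cancel' hk.le] at this
  rw [sum_const, card_range, nsmul_eq_mul] at hsum
  have h4 := mul_le_mul_of_nonneg_left hsum h0
  have h5 := hχ z
  nlinarith

/-- comparison with a static chain from below -/
theorem dyn_lower (hlam : 0 ≤ lam) (hπ0 : ∀ e, 0 ≤ π e) (hπ1 : ∀ e, π e ≤ 1)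
    (hν0 : ∀ e, 0 ≤ ν e) {ρ a : Sym2 W → ℝ} (hρ0 : ∀ e, 0 ≤ ρ e) (hρπ : ∀ e, ρ e ≤ π e)
    (hρ : ∀ e, lam * ρ e * (1 - ρ e) ≤ ν e * (π e - ρ e)) (ha0 : ∀ e, 0 ≤ a e)
    (haρ : ∀ e, a e ≤ lam * ρ e)
    {h : ℝ} (h0 : 0 ≤ h) (h1 : totR (W := W) lam π ν * h ≤ 1) (n : ℕ) (z : W) :
    (stp (srate 1 a) smap h)^[n] (fun C => ind (C.Nonempty)) {z} ≤
    Ex π (fun β => (stp (drate lam (fun e => ν e * π e) (fun e => ν e * (1 - π e)))
      dmap h)^[n] alive ({z}, β)) := by
  set rd := drate (W := W) lam (fun e => ν e * π e) (fun e => ν e * (1 - π e)) with hrd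
  have hrd0 : ∀ j, 0 ≤ rd j := drate_nonneg hlam (fun e => mul_nonneg (hν0 e) (hπ0 e))
    (fun e => mul_nonneg (hν0 e) (by linarith [hπ1 e]))
  have hrr0 : ∀ j, 0 ≤ rrate (W := W) lam π ν j := rrate_nonneg hlam hπ0 hν0
  have hsr : 0 ≤ ∑ j, rrate (W := W) lam π ν j := sum_nonneg fun j _ => hrr0 j
  have hsd : 0 ≤ ∑ j, rd j := sum_nonneg fun j _ => hrd0 j
  have hd1 : (∑ j, rd j) * h ≤ 1 := by
    refine le_trans ?_ h1
    refine mul_le_mul_of_nonneg_right ?_ h0
    unfold totR
    rw [← hrd]; linarith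
  have hρ1 : ∀ e, ρ e ≤ 1 := fun e => (hρπ e).trans (hπ1 e)
  -- static rates are smaller than the dynamic ones
  have hsum : ∀ b : Sym2 W → ℝ, (∀ e, b e ≤ lam * ρ e) → (∑ j, srate (W := W) 1 b j) * h ≤ 1 := by
    intro b hb
    refine le_trans ?_ hd1
    refine mul_le_mul_of_nonneg_right ?_ h0
    rw [Fintype.sum_sum_type, Fintype.sum_sum_type]
    refine add_le_add (le_refl _) ?_
    rw [Fintype.sum_sum_type]
    have h2 : ∑ x : Sym2 W, srate (W := W) 1 b (Sum.inr x) ≤
        ∑ x : Sym2 W, rd (Sum.inr (Sum.inl x)) := by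
      refine sum_le_sum fun e _ => ?_
      simp only [srate, hrd, drate, Sum.elim_inr, Sum.elim_inl]
      refine (hb e).trans ?_
      calc lam * ρ e ≤ lam * 1 := mul_le_mul_of_nonneg_left (hρ1 e) hlam
        _ = lam := mul_one _
    have h3 : 0 ≤ ∑ x : Sym2 W ⊕ Sym2 W, rd (Sum.inr (Sum.inr x)) := sum_nonneg fun x _ => hrd0 _
    linarith
  have hs1 := hsum (fun e => lam * ρ e) (fun e => le_refl _)
  have hs2 := hsum a haρ
  have hs10 : ∀ j, 0 ≤ srate (W := W) 1 (fun e => lam * ρ e) j :=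
    srate_nonneg zero_le_one fun e => mul_nonneg hlam (hρ0 e)
  have hs20 : ∀ j, 0 ≤ srate (W := W) 1 a j := srate_nonneg zero_le_one ha0
  set f0 : Finset W → ℝ := fun C => ind (C.Nonempty) with hf0
  have hf0m : Monotone f0 := fun _ _ h => ind_mono fun hn => hn.mono h
  -- step 1
  have e1 : (stp (srate 1 a) smap h)^[n] f0 {z} ≤
      (stp (srate 1 (fun e => lam * ρ e)) smap h)^[n] f0 {z} := by
    refine compare_iter hs10 h0 hs1 id (fun f g s => rfl) Monotone
      (fun f hf => stp_monotone hs20 h0 hs2 smap_mono hf) (fun f hf C => ?_) hf0m n {z}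
    simp only [id]
    rw [gen_s, gen_s]
    refine add_le_add (le_refl _) (sum_le_sum fun e _ => ?_)
    refine mul_le_mul_of_nonneg_right (haρ e) ?_
    linarith [hf (subset_infect e C)]
  -- step 2
  have e2 : (stp (srate 1 (fun e => lam * ρ e)) smap h)^[n] (Ks ρ alive) {z} ≤
      Ks ρ ((stp rd dmap h)^[n] alive) {z} :=
    compare_iter' hs10 h0 hs1 (Ks ρ) (fun f g C => Ks_lin ρ h f g C) Monotone
      (fun f hf => stp_monotone hrd0 h0 hd1 dmap_mono hf)
      (fun f hf C => Ks_gen_ge hlam hρ0 hρ1 hρ hf C) alive_mono n {z}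
  have hKs : Ks ρ (alive (W := W)) = f0 := by
    funext C
    unfold Ks alive
    exact Ex_const ρ (ind C.Nonempty)
  rw [hKs] at e2
  -- step 3
  have e3 : Ks ρ ((stp rd dmap h)^[n] alive) {z} ≤
      Ex π (fun β => (stp rd dmap h)^[n] alive ({z}, β)) := by
    unfold Ks
    refine Ex_mono_p hρ0 hπ1 hρπ fun β β' hβ => ?_
    exact stp_iter_monotone hrd0 h0 hd1 dmap_mono alive_mono n ⟨le_refl _, hβ⟩
  exact e1.trans (e2.trans e3)

end Main

end Pool.Agent.Helper97.Dyn
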