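import Pool.Agent.Helper92.FastUpdate.Bridge
import Pool.Agent.Helper97.Dyn.Inf
import Pool.Agent.Helper97.Dyn.Lyap
import Mathlib

/-!
Finite-volume survival probabilities as limits of iterated Euler steps, and the two comparisons
between the dynamic and the static process.
-/

open MeasureTheory ProbabilityTheory Filter
open scoped ENNReal Topology

set_option linter.unusedSectionVars false

namespace Pool.Agent.Helper97.Dyn

variable {V : Type*} [DecidableEq V] {lam : ℝ} {π ν : Sym2 V → ℝ} {x : V} {Λ : Finset V} {T : ℝ}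

/-- weights restricted to a finite volume -/
def wIn (Λ : Finset V) (f : Sym2 V → ℝ) (e : Sym2 ↥Λ) : ℝ := f (e.map Subtype.val)

/-- static rates in finite volume -/
def rS (Λ : Finset V) (δ lam : ℝ) (π : Sym2 V → ℝ) : ↥Λ ⊕ Sym2 ↥Λ → ℝ :=
  srate δ (fun e => lam * wIn Λ π e)

/-- dynamic rates in finite volume -/
def rD (Λ : Finset V) (lam : ℝ) (π ν : Sym2 V → ℝ) :
    ↥Λ ⊕ (Sym2 ↥Λ ⊕ (Sym2 ↥Λ ⊕ Sym2 ↥Λ)) → ℝ :=
  drate lam (fun e => wIn Λ ν e * wIn Λ π e) (fun e => wIn Λ ν e * (1 - wIn Λ π e))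

lemma rS_nonneg {δ : ℝ} (hδ : 0 ≤ δ) (hlam : 0 ≤ lam) (hπ : ∀ e, 0 ≤ π e) (j : ↥Λ ⊕ Sym2 ↥Λ) :
    0 ≤ rS Λ δ lam π j := srate_nonneg hδ (fun e => mul_nonneg hlam (hπ _)) j

lemma rD_nonneg (hlam : 0 ≤ lam) (hπ0 : ∀ e, 0 ≤ π e) (hπ1 : ∀ e, π e ≤ 1) (hν : ∀ e, 0 ≤ ν e)
    (j : ↥Λ ⊕ (Sym2 ↥Λ ⊕ (Sym2 ↥Λ ⊕ Sym2 ↥Λ))) : 0 ≤ rD Λ lam π ν j :=
  drate_nonneg hlam (fun _ => mul_nonneg (hν _) (hπ0 _))
    (fun _ => mul_nonneg (hν _) (sub_nonneg.2 (hπ1 _))) j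

lemma stat_iff {ω : Noise V} (hx : x ∈ Λ) :
    AliveIn Λ (statTimes lam π ω) (healTimes ω) x T ↔
      (SSt (rS Λ 1 lam π) (fun j => ω.1 (embS Λ j)) T {⟨x, hx⟩}).Nonempty := by
  have e1 : arrIn Λ (statTimes lam π ω) = sarr (rS Λ 1 lam π) (fun j => ω.1 (embS Λ j)) := rfl
  have e2 : healIn Λ (healTimes ω) = fheal (rS Λ 1 lam π) (fun j => ω.1 (embS Λ j)) := rfl
  constructor
  · rintro ⟨_, y, hy⟩
    refine ⟨y, ?_⟩
    rw [mem_SSt]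
    refine ⟨⟨x, hx⟩, by simp, ?_⟩
    rw [← e1, ← e2]
    exact hy
  · rintro ⟨y, hy⟩
    rw [mem_SSt] at hy
    obtain ⟨z, hz, hR⟩ := hy
    rw [Finset.mem_singleton] at hz
    subst hz
    rw [← e1, ← e2] at hR
    exact ⟨hx, y, hR⟩

lemma dyn_iff {ω : Noise V} (hx : x ∈ Λ) :
    AliveIn Λ (dynTimes lam π ν ω) (healTimes ω) x T ↔
      (DStt (rD Λ lam π ν) (fun j => ω.1 (embD Λ j)) T
        ({⟨x, hx⟩}, binit (wIn Λ π) fun e => ω.2 (e.map Subtype.val))).1.Nonempty := by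
  have e1 : arrIn Λ (dynTimes lam π ν ω) = darr (rD Λ lam π ν) (fun j => ω.1 (embD Λ j))
      (binit (wIn Λ π) fun e => ω.2 (e.map Subtype.val)) := by
    funext e
    ext t
    unfold arrIn dynTimes darr fopen EdgeOpen binit wIn
    simp only [decide_eq_true_eq]
    exact Iff.rfl
  have e2 : healIn Λ (healTimes ω) = fheal (rD Λ lam π ν) (fun j => ω.1 (embD Λ j)) := rfl
  constructor
  · rintro ⟨_, y, hy⟩
    refine ⟨y, ?_⟩
    rw [mem_DStt]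
    refine ⟨⟨x, hx⟩, by simp, ?_⟩
    rw [← e1, ← e2]
    exact hy
  · rintro ⟨y, hy⟩
    rw [mem_DStt] at hy
    obtain ⟨z, hz, hR⟩ := hy
    simp only [Finset.mem_singleton] at hz
    subst hz
    rw [← e1, ← e2] at hR
    exact ⟨hx, y, hR⟩

lemma stat_fin (hlam : 0 ≤ lam) (hπ : ∀ e, 0 ≤ π e) (hx : x ∈ Λ) (hT : 0 ≤ T) :
    NullMeasurableSet {ω | AliveIn Λ (statTimes lam π ω) (healTimes ω) x T} (noiseLaw V) ∧
    Tendsto (fun n : ℕ => (stp (rS Λ 1 lam π) smap (T / n))^[n] (fun C => ind (C.Nonempty))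
      {⟨x, hx⟩}) atTop
      (𝓝 ((noiseLaw V).real {ω | AliveIn Λ (statTimes lam π ω) (healTimes ω) x T})) := by
  have hr : ∀ j, 0 ≤ rS Λ 1 lam π j := rS_nonneg zero_le_one hlam hπ
  have hmp : MeasurePreserving (fun ω : Noise V => fun j => ω.1 (embS Λ j)) (noiseLaw V)
      (gpi (↥Λ ⊕ Sym2 ↥Λ)) := (emb_mp (embS_inj Λ)).comp measurePreserving_fst
  have hnull := driven_null hr (static_driven hr) hT (fun C => C.Nonempty) {⟨x, hx⟩}
  have heq : {ω : Noise V | AliveIn Λ (statTimes lam π ω) (healTimes ω) x T} =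
      (fun ω : Noise V => fun j => ω.1 (embS Λ j)) ⁻¹'
        {a | (SSt (rS Λ 1 lam π) a T {⟨x, hx⟩}).Nonempty} := by
    ext ω
    exact stat_iff hx
  refine ⟨?_, ?_⟩
  · rw [heq]
    exact hnull.preimage hmp.quasiMeasurePreserving
  · have h1 := driven_tendsto hr (static_driven hr) hT (fun C => C.Nonempty) {⟨x, hx⟩}
    have h2 : (noiseLaw V).real {ω | AliveIn Λ (statTimes lam π ω) (healTimes ω) x T} =
        (gpi (↥Λ ⊕ Sym2 ↥Λ)).real {a | (SSt (rS Λ 1 lam π) a T {⟨x, hx⟩}).Nonempty} := by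
      unfold Measure.real
      rw [heq, hmp.measure_preimage hnull]
    rw [h2]
    exact h1

/-- the noise seen by the dynamic process in finite volume -/
def phiD (Λ : Finset V) (ω : Noise V) :
    ((↥Λ ⊕ (Sym2 ↥Λ ⊕ (Sym2 ↥Λ ⊕ Sym2 ↥Λ))) → ℕ → ℝ) × (Sym2 ↥Λ → ℝ) :=
  (fun j => ω.1 (embD Λ j), fun e => ω.2 (e.map Subtype.val))

lemma phiD_mp (Λ : Finset V) : MeasurePreserving (phiD Λ) (noiseLaw V)
    ((gpi (↥Λ ⊕ (Sym2 ↥Λ ⊕ (Sym2 ↥Λ ⊕ Sym2 ↥Λ)))).prod (ulaw (Sym2 ↥Λ))) :=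
  (emb_mp (embD_inj Λ)).prod (embU_mp (map_val_inj Λ))

lemma dyn_null (hlam : 0 ≤ lam) (hπ0 : ∀ e, 0 ≤ π e) (hπ1 : ∀ e, π e ≤ 1) (hν : ∀ e, 0 ≤ ν e)
    (s : Finset ↥Λ) (hT : 0 ≤ T) (b : Sym2 ↥Λ → Bool) :
    NullMeasurableSet {a | (DStt (rD Λ lam π ν) a T (s, b)).1.Nonempty}
      (gpi (↥Λ ⊕ (Sym2 ↥Λ ⊕ (Sym2 ↥Λ ⊕ Sym2 ↥Λ)))) := by
  have hr : ∀ j, 0 ≤ rD Λ lam π ν j := rD_nonneg hlam hπ0 hπ1 hν
  exact driven_null hr (dynamic_driven hr) hT (fun s => s.1.Nonempty) (s, b)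

lemma dyn_tend (hlam : 0 ≤ lam) (hπ0 : ∀ e, 0 ≤ π e) (hπ1 : ∀ e, π e ≤ 1) (hν : ∀ e, 0 ≤ ν e)
    (s : Finset ↥Λ) (hT : 0 ≤ T) (b : Sym2 ↥Λ → Bool) :
    Tendsto (fun n : ℕ => (stp (rD Λ lam π ν) dmap (T / n))^[n] alive (s, b)) atTop
      (𝓝 ((gpi (↥Λ ⊕ (Sym2 ↥Λ ⊕ (Sym2 ↥Λ ⊕ Sym2 ↥Λ)))).real
        {a | (DStt (rD Λ lam π ν) a T (s, b)).1.Nonempty})) := by
  have hr : ∀ j, 0 ≤ rD Λ lam π ν j := rD_nonneg hlam hπ0 hπ1 hν
  exact driven_tendsto hr (dynamic_driven hr) hT (fun s => s.1.Nonempty) (s, b)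

/-- event seen by the dynamic process in finite volume -/
def evD (Λ : Finset V) (lam : ℝ) (π ν : Sym2 V → ℝ) (T : ℝ) (s : Finset ↥Λ) :
    Set (((↥Λ ⊕ (Sym2 ↥Λ ⊕ (Sym2 ↥Λ ⊕ Sym2 ↥Λ))) → ℕ → ℝ) × (Sym2 ↥Λ → ℝ)) :=
  {z | (DStt (rD Λ lam π ν) z.1 T (s, binit (wIn Λ π) z.2)).1.Nonempty}

lemma dyn_eq (hx : x ∈ Λ) :
    {ω : Noise V | AliveIn Λ (dynTimes lam π ν ω) (healTimes ω) x T} =
      phiD Λ ⁻¹' (evD Λ lam π ν T {⟨x, hx⟩}) := by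
  ext ω
  exact dyn_iff hx

lemma dyn_split (hlam : 0 ≤ lam) (hπ0 : ∀ e, 0 ≤ π e) (hπ1 : ∀ e, π e ≤ 1) (hν : ∀ e, 0 ≤ ν e)
    (s : Finset ↥Λ) (hT : 0 ≤ T) :
    NullMeasurableSet (phiD Λ ⁻¹' (evD Λ lam π ν T s)) (noiseLaw V) ∧
    Tendsto (fun n : ℕ => Ex (wIn Λ π) fun b => (stp (rD Λ lam π ν) dmap (T / n))^[n] alive
      (s, b)) atTop (𝓝 ((noiseLaw V).real (phiD Λ ⁻¹' (evD Λ lam π ν T s)))) := by
  have hsp := split_binit (P := gpi (↥Λ ⊕ (Sym2 ↥Λ ⊕ (Sym2 ↥Λ ⊕ Sym2 ↥Λ))))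
    (π := wIn Λ π) (fun e => hπ0 _) (fun e => hπ1 _)
    (Q := fun a b => (DStt (rD Λ lam π ν) a T (s, b)).1.Nonempty)
    (dyn_null hlam hπ0 hπ1 hν s hT)
  have hs1 : NullMeasurableSet (evD Λ lam π ν T s)
    ((gpi (↥Λ ⊕ (Sym2 ↥Λ ⊕ (Sym2 ↥Λ ⊕ Sym2 ↥Λ)))).prod (ulaw (Sym2 ↥Λ))) := hsp.1
  refine ⟨hs1.preimage (phiD_mp Λ).quasiMeasurePreserving, ?_⟩
  have h2 : (noiseLaw V).real (phiD Λ ⁻¹' (evD Λ lam π ν T s)) =
      Ex (wIn Λ π) fun b => (gpi (↥Λ ⊕ (Sym2 ↥Λ ⊕ (Sym2 ↥Λ ⊕ Sym2 ↥Λ)))).real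
        {a | (DStt (rD Λ lam π ν) a T (s, b)).1.Nonempty} := by
    rw [← hsp.2]
    unfold Measure.real
    rw [(phiD_mp Λ).measure_preimage hs1]
    rfl
  rw [h2]
  unfold Ex
  exact tendsto_finsetSum _ fun b _ => Tendsto.const_mul _ (dyn_tend hlam hπ0 hπ1 hν _ hT b)

lemma dyn_fin (hlam : 0 ≤ lam) (hπ0 : ∀ e, 0 ≤ π e) (hπ1 : ∀ e, π e ≤ 1) (hν : ∀ e, 0 ≤ ν e)
    (hx : x ∈ Λ) (hT : 0 ≤ T) :
    NullMeasurableSet {ω | AliveIn Λ (dynTimes lam π ν ω) (healTimes ω) x T} (noiseLaw V) ∧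
    Tendsto (fun n : ℕ => Ex (wIn Λ π) fun b => (stp (rD Λ lam π ν) dmap (T / n))^[n] alive
      ({⟨x, hx⟩}, b)) atTop
      (𝓝 ((noiseLaw V).real {ω | AliveIn Λ (dynTimes lam π ν ω) (healTimes ω) x T})) := by
  rw [dyn_eq hx]
  exact dyn_split hlam hπ0 hπ1 hν _ hT

lemma aliveIn_not_mem {arr : Sym2 V → Set ℝ} {heal : V → Set ℝ} (hx : x ∉ Λ) :
    ¬ AliveIn Λ arr heal x T := fun h => hx h.1

/-- small steps -/
lemma eventually_small (M : ℝ) (T : ℝ) : ∀ᶠ n : ℕ in atTop, M * (T / n) ≤ 1 := by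
  have h1 : Tendsto (fun n : ℕ => M * T / (n : ℝ)) atTop (𝓝 0) :=
    tendsto_const_div_atTop_nhds_zero_nat (M * T)
  filter_upwards [h1.eventually (eventually_le_nhds (show (0 : ℝ) < 1 by norm_num))] with n hn
  rwa [← mul_div_assoc]

/-- the dynamic process survives longer than a slower static one -/
lemma cmp_lower (hlam : 0 ≤ lam) (hπ0 : ∀ e, 0 ≤ π e) (hπ1 : ∀ e, π e ≤ 1) {κ : ℝ} (hκ : 0 < κ)
    (hν : ∀ e, κ ≤ ν e) (hT : 0 ≤ T) :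
    (noiseLaw V).real {ω | AliveIn Λ (statTimes (lam * κ / (κ + lam)) π ω) (healTimes ω) x T} ≤
    (noiseLaw V).real {ω | AliveIn Λ (dynTimes lam π ν ω) (healTimes ω) x T} := by
  by_cases hx : x ∈ Λ
  swap
  · have : {ω : Noise V | AliveIn Λ (statTimes (lam * κ / (κ + lam)) π ω) (healTimes ω) x T} =
        ∅ := by
      ext ω
      exact ⟨fun h => absurd h (aliveIn_not_mem hx), fun h => absurd h (by simp)⟩
    rw [this]
    simp
  have hs : 0 < κ + lam := by linarith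
  have hlam' : 0 ≤ lam * κ / (κ + lam) := by positivity
  have hν0 : ∀ e, 0 ≤ ν e := fun e => hκ.le.trans (hν e)
  have h1 := (stat_fin (π := π) (Λ := Λ) hlam' hπ0 hx hT).2
  have h2 := (dyn_fin hlam hπ0 hπ1 hν0 hx hT).2
  refine le_of_tendsto_of_tendsto h1 h2 ?_
  filter_upwards [eventually_small (totR (W := ↥Λ) lam (wIn Λ π) (wIn Λ ν)) T] with n hn
  have hθ0 : 0 ≤ κ / (κ + lam) := by positivity
  have hθ1 : κ / (κ + lam) ≤ 1 := by rw [div_le_one hs]; linarith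
  refine dyn_lower (ρ := fun e => κ / (κ + lam) * wIn Λ π e) hlam (fun e => hπ0 _)
    (fun e => hπ1 _) (fun e => hν0 _) (fun e => mul_nonneg hθ0 (hπ0 _)) (fun e => ?_) (fun e => ?_)
    (fun e => mul_nonneg hlam' (hπ0 _)) (fun e => le_of_eq ?_) (by positivity) hn n ⟨x, hx⟩
  · have := mul_le_mul_of_nonneg_right hθ1 (hπ0 (e.map Subtype.val))
    rw [one_mul] at this
    exact this
  · change lam * (κ / (κ + lam) * wIn Λ π e) * (1 - κ / (κ + lam) * wIn Λ π e) ≤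
      wIn Λ ν e * (wIn Λ π e - κ / (κ + lam) * wIn Λ π e)
    have hp0 : 0 ≤ wIn Λ π e := hπ0 _
    have hκν : κ ≤ wIn Λ ν e := hν _
    set P := wIn Λ π e
    set N := wIn Λ ν e
    have e1 : lam * (κ / (κ + lam) * P) * (1 - κ / (κ + lam) * P) =
        (lam * P / (κ + lam)) * (κ * (1 - κ / (κ + lam) * P)) := by ring
    have e2 : N * (P - κ / (κ + lam) * P) = (lam * P / (κ + lam)) * N := by
      field_simp
      ring
    rw [e1, e2]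
    refine mul_le_mul_of_nonneg_left ?_ (by positivity)
    have h3 : 0 ≤ κ / (κ + lam) * P := by positivity
    calc κ * (1 - κ / (κ + lam) * P) ≤ κ * 1 := mul_le_mul_of_nonneg_left (by linarith) hκ.le
      _ ≤ N := by rw [mul_one]; exact hκν
  · change lam * κ / (κ + lam) * wIn Λ π e = lam * (κ / (κ + lam) * wIn Λ π e)
    ring

/-- sums over the pairs containing a vertex -/
lemma sum_pairs {W : Type*} [Fintype W] [DecidableEq W] (f : Sym2 W → ℝ) (y : W) :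
    ∑ e : Sym2 W, (if y ∈ e then f e else 0) = ∑ z : W, f s(y, z) := by
  rw [← Finset.sum_filter]
  symm
  refine Finset.sum_bij (fun z _ => s(y, z)) (fun z _ => ?_) (fun z _ z' _ h => ?_)
    (fun e he => ?_) (fun z _ => rfl)
  · simp
  · exact Sym2.congr_right.1 h
  · rw [Finset.mem_filter] at he
    obtain ⟨z, hz⟩ := Sym2.mem_iff_exists.1 he.2
    exact ⟨z, Finset.mem_univ _, hz.symm⟩

/-- time scaling of the static chain -/
lemma stp_scale {W : Type*} [Fintype W] [DecidableEq W] {ρ : ℝ} (hρ : 0 < ρ) (a : Sym2 W → ℝ)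
    (h : ℝ) : stp (srate ρ fun e => lam * a e) (smap (W := W)) h =
      stp (srate 1 fun e => lam / ρ * a e) smap (ρ * h) := by
  funext f C
  unfold stp
  rw [gen_s, gen_s]
  have : ρ * h * (∑ x, 1 * (f (C.erase x) - f C) + ∑ e, lam / ρ * a e * (f (infect e C) - f C)) =
      h * (∑ x, ρ * (f (C.erase x) - f C) + ∑ e, lam * a e * (f (infect e C) - f C)) := by
    simp only [mul_add, Finset.mul_sum]
    congr 1
    · exact Finset.sum_congr rfl fun x _ => by ring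
    · refine Finset.sum_congr rfl fun e _ => ?_
      field_simp
  rw [this]

/-- the dynamic process dies out faster than a static one with smaller recovery rate -/
lemma cmp_upper (hlam : 0 ≤ lam) (hπ0 : ∀ e, 0 ≤ π e) (hπ1 : ∀ e, π e ≤ 1)
    (hν : ∀ e, 2 ≤ ν e) {ρ : ℝ} (hρ : 0 < ρ)
    (hsum : ∀ (y : V) (Λ : Finset V), ∑ z ∈ Λ, lam / ν s(y, z) ≤ 1 - ρ) (hT : 0 ≤ T) :
    (noiseLaw V).real {ω | AliveIn Λ (dynTimes lam π ν ω) (healTimes ω) x T} ≤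
    (noiseLaw V).real {ω | AliveIn Λ (statTimes (lam / ρ) π ω) (healTimes ω) x (ρ * T)} := by
  by_cases hx : x ∈ Λ
  swap
  · have : {ω : Noise V | AliveIn Λ (dynTimes lam π ν ω) (healTimes ω) x T} = ∅ := by
      ext ω
      exact ⟨fun h => absurd h (aliveIn_not_mem hx), fun h => absurd h (by simp)⟩
    rw [this]
    simp
  have hlam' : 0 ≤ lam / ρ := by positivity
  have hν0 : ∀ e, 0 ≤ ν e := fun e => by linarith [hν e]
  have h1 := (stat_fin (π := π) (Λ := Λ) (T := ρ * T) hlam' hπ0 hx (by positivity)).2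
  have h2 := (dyn_fin hlam hπ0 hπ1 hν0 hx hT).2
  refine le_of_tendsto_of_tendsto h2 h1 ?_
  obtain ⟨M, hM0, hM⟩ := Helper92.FastUpdate.dyn_le_static (W := ↥Λ) hlam
    (π := wIn Λ π) (ν := wIn Λ ν) (fun e => hπ0 _) (fun e => hπ1 _) (fun e => hν _) hρ.le
    (fun y => by
      rw [sum_pairs (fun e => lam / wIn Λ ν e) y]
      have h3 := hsum y.1 Λ
      rw [← Finset.sum_coe_sort Λ (fun z => lam / ν s(y.1, z))] at h3
      exact h3)
  filter_upwards [eventually_small M T] with n hn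
  have h4 := hM (T / n) (by positivity) hn n (fun C => ind (C.Nonempty))
    (fun C C' h => ind_mono fun hn => hn.mono h) {⟨x, hx⟩}
  rw [stp_scale hρ] at h4
  have h5 : ρ * (T / (n : ℝ)) = ρ * T / n := by ring
  rw [h5] at h4
  exact h4

end Pool.Agent.Helper97.Dyn
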