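import Mathlib
import Pool.Agent.Helper97.Dyn.Vol

/-!
Comparison of the survival probabilities in infinite volume.
-/

open MeasureTheory ProbabilityTheory Filter
open scoped ENNReal NNReal Topology

set_option linter.unusedSectionVars false

namespace Pool.Agent.Helper97.Dyn

variable {V : Type*} {lam : ℝ} {π ν : Sym2 V → ℝ} {x : V}

section Union

variable [Countable V] {arr : Noise V → Sym2 V → Set ℝ}

/-- survival up to time `T` -/
def aliveSet (arr : Noise V → Sym2 V → Set ℝ) (x : V) (T : ℝ) : Set (Noise V) :=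
  {ω | ∃ y, Reach (arr ω) (healTimes ω) x y T}

lemma aliveSet_eq (T : ℝ) : aliveSet arr x T =
    ⋃ Λ : Finset V, {ω | AliveIn Λ (arr ω) (healTimes ω) x T} := by
  ext ω
  rw [Set.mem_iUnion]
  exact alive_iff

lemma aliveSet_null {T : ℝ}
    (h : ∀ Λ : Finset V, NullMeasurableSet {ω | AliveIn Λ (arr ω) (healTimes ω) x T} (noiseLaw V)) :
    NullMeasurableSet (aliveSet arr x T) (noiseLaw V) := by
  rw [aliveSet_eq]
  exact NullMeasurableSet.iUnion h

lemma aliveSet_measure (T : ℝ) : noiseLaw V (aliveSet arr x T) =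
    ⨆ Λ : Finset V, noiseLaw V {ω | AliveIn Λ (arr ω) (healTimes ω) x T} := by
  classical
  rw [aliveSet_eq]
  refine Directed.measure_iUnion fun Λ Λ' => ⟨Λ ∪ Λ', ?_, ?_⟩
  · exact fun ω hω => hω.mono Finset.subset_union_left
  · exact fun ω hω => hω.mono Finset.subset_union_right

lemma aliveSet_anti {s t : ℝ} (hs : 0 ≤ s) (hst : s ≤ t) : aliveSet arr x t ⊆ aliveSet arr x s := by
  rintro ω ⟨y, hy⟩
  exact hy.before hs hst

lemma survives_eq : {ω : Noise V | Survives (arr ω) (healTimes ω) x} =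
    ⋂ n : ℕ, aliveSet arr x n := by
  ext ω
  rw [Set.mem_iInter]
  exact survives_iff

lemma survives_measure
    (h : ∀ (Λ : Finset V) (T : ℝ), 0 ≤ T →
      NullMeasurableSet {ω | AliveIn Λ (arr ω) (healTimes ω) x T} (noiseLaw V)) :
    noiseLaw V {ω : Noise V | Survives (arr ω) (healTimes ω) x} =
      ⨅ n : ℕ, noiseLaw V (aliveSet arr x n) := by
  rw [survives_eq]
  refine Antitone.measure_iInter (fun m n hmn => ?_) (fun n => ?_) ⟨0, measure_ne_top _ _⟩
  · exact aliveSet_anti (Nat.cast_nonneg m) (Nat.cast_le.2 hmn)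
  · exact aliveSet_null fun Λ => h Λ n (Nat.cast_nonneg n)

/-- comparison of two processes -/
lemma survives_le {arr' : Noise V → Sym2 V → Set ℝ}
    (h' : ∀ (Λ : Finset V) (T : ℝ), 0 ≤ T →
      NullMeasurableSet {ω | AliveIn Λ (arr' ω) (healTimes ω) x T} (noiseLaw V))
    {ρ : ℝ} (hρ : 0 < ρ)
    (hcmp : ∀ (Λ : Finset V) (T : ℝ), 0 ≤ T →
      (noiseLaw V).real {ω | AliveIn Λ (arr ω) (healTimes ω) x T} ≤
      (noiseLaw V).real {ω | AliveIn Λ (arr' ω) (healTimes ω) x (ρ * T)}) :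
    (noiseLaw V).real {ω : Noise V | Survives (arr ω) (healTimes ω) x} ≤
    (noiseLaw V).real {ω : Noise V | Survives (arr' ω) (healTimes ω) x} := by
  unfold Measure.real
  refine ENNReal.toReal_mono (measure_ne_top _ _) ?_
  rw [survives_measure h']
  refine le_iInf fun n => ?_
  have hT : 0 ≤ (n : ℝ) / ρ := by positivity
  have h1 : {ω : Noise V | Survives (arr ω) (healTimes ω) x} ⊆ aliveSet arr x (n / ρ) :=
    fun ω hω => hω _ hT
  refine (measure_mono h1).trans ?_
  rw [aliveSet_measure, aliveSet_measure]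
  refine iSup_mono fun Λ => ?_
  have h2 := hcmp Λ (n / ρ) hT
  have h3 : ρ * ((n : ℝ) / ρ) = n := by field_simp
  rw [h3] at h2
  unfold Measure.real at h2
  exact (ENNReal.toReal_le_toReal (measure_ne_top _ _) (measure_ne_top _ _)).1 h2

end Union

lemma aliveIn_null_of {Λ : Finset V} {arr : Noise V → Sym2 V → Set ℝ} {T : ℝ}
    (h : x ∈ Λ → NullMeasurableSet {ω | AliveIn Λ (arr ω) (healTimes ω) x T} (noiseLaw V)) :
    NullMeasurableSet {ω | AliveIn Λ (arr ω) (healTimes ω) x T} (noiseLaw V) := by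
  by_cases hx : x ∈ Λ
  · exact h hx
  · have : {ω : Noise V | AliveIn Λ (arr ω) (healTimes ω) x T} = ∅ := by
      ext ω
      exact ⟨fun h => absurd h.1 hx, fun h => absurd h (by simp)⟩
    rw [this]
    exact MeasurableSet.empty.nullMeasurableSet

/-- the diagonal weights do not matter -/
lemma dynTheta_congr {π' ν' : Sym2 V → ℝ} (hπ : ∀ y z, y ≠ z → π s(y, z) = π' s(y, z))
    (hν : ∀ y z, y ≠ z → ν s(y, z) = ν' s(y, z)) :
    dynTheta lam π ν x = dynTheta lam π' ν' x := by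
  unfold dynTheta
  congr 1
  ext ω
  have e : ∀ y z, y ≠ z → dynTimes lam π ν ω s(y, z) = dynTimes lam π' ν' ω s(y, z) := by
    intro y z hne
    unfold dynTimes EdgeOpen
    rw [hπ y z hne, hν y z hne]
  exact forall_congr' fun t => imp_congr_right fun _ => exists_congr fun y =>
    Reach.congr e fun _ => rfl

/-- the diagonal weights do not matter -/
lemma statTheta_congr {π' : Sym2 V → ℝ} (hπ : ∀ y z, y ≠ z → π s(y, z) = π' s(y, z)) :
    statTheta lam π x = statTheta lam π' x := by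
  unfold statTheta
  congr 1
  ext ω
  have e : ∀ y z, y ≠ z → statTimes lam π ω s(y, z) = statTimes lam π' ω s(y, z) := by
    intro y z hne
    unfold statTimes
    rw [hπ y z hne]
  exact forall_congr' fun t => imp_congr_right fun _ => exists_congr fun y =>
    Reach.congr e fun _ => rfl

lemma stat_null (hlam : 0 ≤ lam) (hπ0 : ∀ e, 0 ≤ π e) (Λ : Finset V) (T : ℝ) (hT : 0 ≤ T) :
    NullMeasurableSet {ω | AliveIn Λ (statTimes lam π ω) (healTimes ω) x T} (noiseLaw V) := by
  classical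
  exact aliveIn_null_of fun hx => (stat_fin hlam hπ0 hx hT).1

lemma dynA_null (hlam : 0 ≤ lam) (hπ0 : ∀ e, 0 ≤ π e) (hπ1 : ∀ e, π e ≤ 1) (hν : ∀ e, 0 ≤ ν e)
    (Λ : Finset V) (T : ℝ) (hT : 0 ≤ T) :
    NullMeasurableSet {ω | AliveIn Λ (dynTimes lam π ν ω) (healTimes ω) x T} (noiseLaw V) := by
  classical
  exact aliveIn_null_of fun hx => (dyn_fin hlam hπ0 hπ1 hν hx hT).1

variable [Countable V]

/-- the survival events are events -/
theorem survival_null (hlam : 0 ≤ lam) (hπ0 : ∀ e, 0 ≤ π e) (hπ1 : ∀ e, π e ≤ 1)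
    (hν : ∀ e, 0 ≤ ν e) :
    NullMeasurableSet {ω | Survives (dynTimes lam π ν ω) (healTimes ω) x} (noiseLaw V) ∧
    NullMeasurableSet {ω | Survives (statTimes lam π ω) (healTimes ω) x} (noiseLaw V) := by
  constructor
  · rw [survives_eq]
    exact NullMeasurableSet.iInter fun n => aliveSet_null fun Λ =>
      dynA_null hlam hπ0 hπ1 hν Λ n (Nat.cast_nonneg n)
  · rw [survives_eq]
    exact NullMeasurableSet.iInter fun n => aliveSet_null fun Λ =>
      stat_null hlam hπ0 Λ n (Nat.cast_nonneg n)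

/-- the survival probability of a slower static process is smaller -/
theorem theta_lower (hlam : 0 ≤ lam) (hπ0 : ∀ e, 0 ≤ π e) (hπ1 : ∀ e, π e ≤ 1) {κ : ℝ}
    (hκ : 0 < κ) (hν : ∀ e, κ ≤ ν e) :
    statTheta (lam * κ / (κ + lam)) π x ≤ dynTheta lam π ν x := by
  classical
  refine survives_le (ρ := 1) (fun Λ T hT => dynA_null hlam hπ0 hπ1 (fun e => hκ.le.trans (hν e))
    Λ T hT) one_pos fun Λ T hT => ?_
  rw [one_mul]
  exact cmp_lower hlam hπ0 hπ1 hκ hν hT

/-- the survival probability of a faster static process is larger -/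
theorem theta_upper (hlam : 0 ≤ lam) (hπ0 : ∀ e, 0 ≤ π e) (hπ1 : ∀ e, π e ≤ 1)
    (hν : ∀ e, 2 ≤ ν e) {ρ : ℝ} (hρ : 0 < ρ)
    (hsum : ∀ (y : V) (Λ : Finset V), ∑ z ∈ Λ, lam / ν s(y, z) ≤ 1 - ρ) :
    dynTheta lam π ν x ≤ statTheta (lam / ρ) π x := by
  classical
  exact survives_le (stat_null (by positivity) hπ0) hρ fun Λ T hT =>
    cmp_upper hlam hπ0 hπ1 hν hρ hsum hT

end Pool.Agent.Helper97.Dyn
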