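import Mathlib
import Pool.Agent.Helper97.Dyn.Surv

/-!
Critical values: the inverse critical values of the dynamic and of the static process differ by at
most the supremum over the vertices of the sum of the inverse flip speeds.
-/

open MeasureTheory ProbabilityTheory Filter
open scoped ENNReal NNReal Topology

set_option linter.unusedSectionVars false

namespace Pool.Agent.Helper97.Dyn

variable {V : Type*} {π ν : Sym2 V → ℝ} {x : V}

open Classical in
/-- change a weight on the diagonal -/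
noncomputable def diagTo (K : ℝ) (f : Sym2 V → ℝ) (e : Sym2 V) : ℝ := if e.IsDiag then K else f e

lemma diagTo_mk (K : ℝ) (f : Sym2 V → ℝ) {y z : V} (h : y ≠ z) :
    f s(y, z) = diagTo K f s(y, z) := by
  unfold diagTo
  rw [if_neg]
  simpa using h

lemma diagTo_self (K : ℝ) (f : Sym2 V → ℝ) (y : V) : diagTo K f s(y, y) = K := by
  unfold diagTo
  rw [if_pos]
  simp

lemma diagTo_ind {P : ℝ → Prop} {K : ℝ} {f : Sym2 V → ℝ} (hK : P K)
    (hf : ∀ y z, y ≠ z → P (f s(y, z))) (e : Sym2 V) : P (diagTo K f e) := by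
  induction e using Sym2.ind with
  | _ y z =>
    by_cases h : y = z
    · subst h; rw [diagTo_self]; exact hK
    · rw [← diagTo_mk K f h]; exact hf y z h

lemma dynCrit_congr {π' ν' : Sym2 V → ℝ} (hπ : ∀ y z, y ≠ z → π s(y, z) = π' s(y, z))
    (hν : ∀ y z, y ≠ z → ν s(y, z) = ν' s(y, z)) : dynCrit π ν x = dynCrit π' ν' x := by
  unfold dynCrit
  refine iInf_congr fun l => ?_
  rw [dynTheta_congr hπ hν]

lemma statCrit_congr {π' : Sym2 V → ℝ} (hπ : ∀ y z, y ≠ z → π s(y, z) = π' s(y, z)) :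
    statCrit π x = statCrit π' x := by
  unfold statCrit
  refine iInf_congr fun l => ?_
  rw [statTheta_congr hπ]

/-- a number below all inverses -/
lemma inv_crit_le {θ : ℝ≥0 → ℝ} {b : ℝ≥0∞} (h : ∀ l : ℝ≥0, 0 < θ l → ((l : ℝ≥0∞))⁻¹ ≤ b) :
    (⨅ (l : ℝ≥0) (_ : 0 < θ l), (l : ℝ≥0∞))⁻¹ ≤ b := by
  rw [ENNReal.inv_iInf]
  refine iSup_le fun l => ?_
  rw [ENNReal.inv_iInf]
  exact iSup_le fun hl => h l hl

lemma le_inv_crit {θ : ℝ≥0 → ℝ} {l : ℝ≥0} (h : 0 < θ l) :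
    ((l : ℝ≥0∞))⁻¹ ≤ (⨅ (l : ℝ≥0) (_ : 0 < θ l), (l : ℝ≥0∞))⁻¹ :=
  ENNReal.inv_le_inv.2 (iInf₂_le l h)

lemma nn_inv {l : ℝ≥0} (hl : 0 < l) : ((l : ℝ≥0∞))⁻¹ = ENNReal.ofReal (1 / (l : ℝ)) := by
  rw [← ENNReal.coe_inv hl.ne', one_div, ← NNReal.coe_inv, ENNReal.ofReal_coe_nnreal]

variable [Countable V]

/-- **Lower bound for the critical value of the dynamic process.** -/
theorem crit_upper (hπ0 : ∀ y z, y ≠ z → 0 ≤ π s(y, z)) (hπ1 : ∀ y z, y ≠ z → π s(y, z) ≤ 1)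
    (hν : ∀ y z, y ≠ z → 2 ≤ ν s(y, z)) {S : ℝ} (hS : 0 ≤ S)
    (hsum : ∀ (y : V) (Λ : Finset V), y ∉ Λ → ∑ z ∈ Λ, (ν s(y, z))⁻¹ ≤ S) :
    (dynCrit π ν x)⁻¹ ≤ (statCrit π x)⁻¹ + ENNReal.ofReal S := by
  classical
  refine ENNReal.le_of_forall_pos_le_add fun ε hε _ => ?_
  have hε' : (0 : ℝ) < ε := hε
  set K : ℝ := max 2 (1 / ε) with hK
  have hK2 : 2 ≤ K := le_max_left _ _
  have hKε : K⁻¹ ≤ ε := by
    have h1 : 1 / (ε : ℝ) ≤ K := le_max_right _ _
    have h2 : (1 / (ε : ℝ)) = (ε : ℝ)⁻¹ := one_div _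
    rw [h2] at h1
    exact inv_le_of_inv_le₀ hε' h1
  rw [dynCrit_congr (π' := diagTo 0 π) (ν' := diagTo K ν) (fun y z h => diagTo_mk 0 π h)
    (fun y z h => diagTo_mk K ν h), statCrit_congr (π' := diagTo 0 π)
    (fun y z h => diagTo_mk 0 π h)]
  have hp0 : ∀ e, 0 ≤ diagTo 0 π e := diagTo_ind (P := fun t => 0 ≤ t) le_rfl hπ0
  have hp1 : ∀ e, diagTo 0 π e ≤ 1 := diagTo_ind (P := fun t => t ≤ 1) zero_le_one hπ1
  have hn2 : ∀ e, 2 ≤ diagTo K ν e := diagTo_ind (P := fun t => 2 ≤ t) hK2 hν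
  have hS' : 0 < S + ε := by linarith
  have hgoal : (statCrit (diagTo 0 π) x)⁻¹ + ENNReal.ofReal S + (ε : ℝ≥0∞) =
      (statCrit (diagTo 0 π) x)⁻¹ + ENNReal.ofReal (S + ε) := by
    rw [ENNReal.ofReal_add hS hε'.le, ENNReal.ofReal_coe_nnreal, add_assoc]
  rw [hgoal]
  refine inv_crit_le fun l hl => ?_
  by_cases hlS : 1 ≤ (l : ℝ) * (S + ε)
  · -- large rate
    have hl0 : 0 < l := by
      rcases eq_or_ne l 0 with h | h
      · rw [h] at hlS; simp at hlS; linarith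
      · exact pos_iff_ne_zero.2 h
    have hl0' : (0 : ℝ) < l := hl0
    rw [nn_inv hl0]
    refine le_trans (ENNReal.ofReal_le_ofReal ?_) le_add_self
    rw [div_le_iff₀ hl0']
    linarith
  · push Not at hlS
    have hρ : 0 < 1 - (l : ℝ) * (S + ε) := by linarith
    have hcmp : ∀ (y : V) (Λ : Finset V),
        ∑ z ∈ Λ, (l : ℝ) / diagTo K ν s(y, z) ≤ 1 - (1 - (l : ℝ) * (S + ε)) := by
      intro y Λ
      have h1 : ∑ z ∈ Λ, (l : ℝ) / diagTo K ν s(y, z) ≤
          ∑ z ∈ insert y (Λ.erase y), (l : ℝ) / diagTo K ν s(y, z) := by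
        refine Finset.sum_le_sum_of_subset_of_nonneg ?_ fun z _ _ => ?_
        · intro z hz
          rw [Finset.mem_insert, Finset.mem_erase]
          tauto
        · have := hn2 s(y, z)
          have hl0 : (0 : ℝ) ≤ l := l.2
          positivity
      rw [Finset.sum_insert (Finset.notMem_erase _ _), diagTo_self] at h1
      have h2 : ∑ z ∈ Λ.erase y, (l : ℝ) / diagTo K ν s(y, z) =
          l * ∑ z ∈ Λ.erase y, (ν s(y, z))⁻¹ := by
        rw [Finset.mul_sum]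
        refine Finset.sum_congr rfl fun z hz => ?_
        rw [← diagTo_mk K ν (Finset.ne_of_mem_erase hz).symm, div_eq_mul_inv]
      rw [h2] at h1
      have h3 := mul_le_mul_of_nonneg_left (hsum y (Λ.erase y) (Finset.notMem_erase _ _)) l.2
      have h4 : (l : ℝ) / K ≤ l * ε := by
        rw [div_eq_mul_inv]
        exact mul_le_mul_of_nonneg_left hKε l.2
      have h5 : (l : ℝ) * (S + ε) = l * S + l * ε := by ring
      have h6 : ((l : ℝ≥0) : ℝ) * ∑ z ∈ Λ.erase y, (ν s(y, z))⁻¹ ≤ l * S := h3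
      linarith
    have h7 := theta_upper (x := x) l.2 hp0 hp1 hn2 hρ hcmp
    set m : ℝ≥0 := ⟨(l : ℝ) / (1 - (l : ℝ) * (S + ε)), div_nonneg l.2 hρ.le⟩ with hm
    have h8 : 0 < statTheta m (diagTo 0 π) x := lt_of_lt_of_le hl h7
    have h9 : ((m : ℝ≥0∞))⁻¹ ≤ (statCrit (diagTo 0 π) x)⁻¹ := le_inv_crit h8
    rcases eq_or_ne l 0 with h | h
    · have hm0 : m = 0 := by
        apply NNReal.eq
        change (l : ℝ) / (1 - (l : ℝ) * (S + ε)) = 0
        rw [h]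
        simp
      rw [hm0] at h9
      simp only [ENNReal.coe_zero, ENNReal.inv_zero, top_le_iff] at h9
      rw [h9]
      simp
    · have hl0 : 0 < l := pos_iff_ne_zero.2 h
      have hl0' : (0 : ℝ) < l := hl0
      have hm0 : 0 < m := by
        have : (0 : ℝ) < (l : ℝ) / (1 - (l : ℝ) * (S + ε)) := div_pos hl0' hρ
        exact this
      rw [nn_inv hm0] at h9
      rw [nn_inv hl0]
      refine le_trans (le_of_eq ?_) (add_le_add h9 le_rfl)
      rw [← ENNReal.ofReal_add (by positivity) hS'.le]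
      congr 1
      have : (m : ℝ) = (l : ℝ) / (1 - (l : ℝ) * (S + ε)) := rfl
      rw [this]
      field_simp
      ring

/-- **Upper bound for the critical value of the dynamic process.** -/
theorem crit_lower (hπ0 : ∀ y z, y ≠ z → 0 ≤ π s(y, z)) (hπ1 : ∀ y z, y ≠ z → π s(y, z) ≤ 1)
    {S : ℝ} (hS : 0 ≤ S) (hν : ∀ y z, y ≠ z → 1 ≤ S * ν s(y, z)) :
    (statCrit π x)⁻¹ ≤ (dynCrit π ν x)⁻¹ + ENNReal.ofReal S := by
  classical
  refine ENNReal.le_of_forall_pos_le_add fun ε hε _ => ?_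
  have hε' : (0 : ℝ) < ε := hε
  have hS' : 0 < S + ε := by linarith
  set κ : ℝ := 1 / (S + ε) with hκ
  have hκ0 : 0 < κ := by positivity
  have hκi : 1 / κ = S + ε := by rw [hκ]; field_simp
  rw [dynCrit_congr (π' := diagTo 0 π) (ν' := diagTo κ ν) (fun y z h => diagTo_mk 0 π h)
    (fun y z h => diagTo_mk κ ν h), statCrit_congr (π' := diagTo 0 π)
    (fun y z h => diagTo_mk 0 π h)]
  have hp0 : ∀ e, 0 ≤ diagTo 0 π e := diagTo_ind (P := fun t => 0 ≤ t) le_rfl hπ0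
  have hp1 : ∀ e, diagTo 0 π e ≤ 1 := diagTo_ind (P := fun t => t ≤ 1) zero_le_one hπ1
  have hnκ : ∀ e, κ ≤ diagTo κ ν e := by
    refine diagTo_ind (P := fun t => κ ≤ t) le_rfl fun y z hyz => ?_
    have h1 := hν y z hyz
    have h2 : 0 < ν s(y, z) := by
      by_contra hneg
      push Not at hneg
      have := mul_nonpos_of_nonneg_of_nonpos hS hneg
      linarith
    rw [hκ, div_le_iff₀ hS']
    have h3 : ν s(y, z) * (S + ε) = S * ν s(y, z) + ν s(y, z) * ε := by ring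
    have h4 : 0 ≤ ν s(y, z) * (ε : ℝ) := by positivity
    linarith
  have hgoal : (dynCrit (diagTo 0 π) (diagTo κ ν) x)⁻¹ + ENNReal.ofReal S + (ε : ℝ≥0∞) =
      (dynCrit (diagTo 0 π) (diagTo κ ν) x)⁻¹ + ENNReal.ofReal (S + ε) := by
    rw [ENNReal.ofReal_add hS hε'.le, ENNReal.ofReal_coe_nnreal, add_assoc]
  rw [hgoal]
  refine inv_crit_le fun l hl => ?_
  by_cases hlκ : κ ≤ (l : ℝ)
  · have hl0' : (0 : ℝ) < l := lt_of_lt_of_le hκ0 hlκ
    have hl0 : 0 < l := hl0'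
    rw [nn_inv hl0]
    refine le_trans (ENNReal.ofReal_le_ofReal ?_) le_add_self
    rw [← hκi]
    exact one_div_le_one_div_of_le hκ0 hlκ
  · push Not at hlκ
    have hρ : 0 < κ - (l : ℝ) := by linarith
    set m : ℝ≥0 := ⟨(l : ℝ) * κ / (κ - l), div_nonneg (mul_nonneg l.2 hκ0.le) hρ.le⟩ with hm
    have hmr : (m : ℝ) = (l : ℝ) * κ / (κ - l) := rfl
    have h7 := theta_lower (x := x) m.2 hp0 hp1 hκ0 hnκ
    have h6 : (m : ℝ) * κ / (κ + m) = l := by
      rw [hmr]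
      have h5 : κ + (l : ℝ) * κ / (κ - l) = κ ^ 2 / (κ - l) := by
        field_simp
        ring
      rw [h5]
      field_simp
    have h6' : ((m : ℝ≥0) : ℝ) * κ / (κ + ((m : ℝ≥0) : ℝ)) = l := h6
    rw [show (m.1 : ℝ) * κ / (κ + m.1) = l from h6] at h7
    have h8 : 0 < dynTheta m (diagTo 0 π) (diagTo κ ν) x := lt_of_lt_of_le hl h7
    have h9 : ((m : ℝ≥0∞))⁻¹ ≤ (dynCrit (diagTo 0 π) (diagTo κ ν) x)⁻¹ := le_inv_crit h8
    rcases eq_or_ne l 0 with h | h
    · have hm0 : m = 0 := by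
        apply NNReal.eq
        change (l : ℝ) * κ / (κ - l) = 0
        rw [h]
        simp
      rw [hm0] at h9
      simp only [ENNReal.coe_zero, ENNReal.inv_zero, top_le_iff] at h9
      rw [h9]
      simp
    · have hl0 : 0 < l := pos_iff_ne_zero.2 h
      have hl0' : (0 : ℝ) < l := hl0
      have hm0 : 0 < m := by
        have : (0 : ℝ) < (l : ℝ) * κ / (κ - l) := by positivity
        exact this
      rw [nn_inv hm0] at h9
      rw [nn_inv hl0]
      refine le_trans (le_of_eq ?_) (add_le_add h9 le_rfl)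
      rw [← ENNReal.ofReal_add (by positivity) hS'.le]
      congr 1
      rw [hmr, ← hκi]
      field_simp
      ring

omit [Countable V] in
/-- convergence from the bounds on the inverses -/
lemma tendsto_of_inv {f s : ℝ → ℝ≥0∞} {a : ℝ≥0∞} (hs : Tendsto s atTop (𝓝 0))
    (hfin : ∀ᶠ γ in atTop, s γ ≠ ∞)
    (h1 : ∀ᶠ γ in atTop, (f γ)⁻¹ ≤ a⁻¹ + s γ) (h2 : ∀ᶠ γ in atTop, a⁻¹ ≤ (f γ)⁻¹ + s γ) :
    Tendsto f atTop (𝓝 a) := by
  rw [← tendsto_inv_iff]
  have hup : Tendsto (fun γ => a⁻¹ + s γ) atTop (𝓝 a⁻¹) := by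
    have := (tendsto_const_nhds (x := a⁻¹) (f := (atTop : Filter ℝ))).add hs
    rwa [add_zero] at this
  have hlow : Tendsto (fun γ => a⁻¹ - s γ) atTop (𝓝 a⁻¹) := by
    have := ENNReal.Tendsto.sub (tendsto_const_nhds (x := a⁻¹) (f := (atTop : Filter ℝ))) hs
      (Or.inr ENNReal.zero_ne_top)
    rwa [tsub_zero] at this
  refine tendsto_of_tendsto_of_tendsto_of_le_of_le' hlow hup ?_ h1
  filter_upwards [h2, hfin] with γ h _
  exact tsub_le_iff_right.2 h

end Pool.Agent.Helper97.Dyn
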