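import Pool.Agent.Helper97.Dyn.Graph
import Pool.Agent.Helper97.Dyn.Main
import Mathlib

/-!
The final statements for weights depending on the graph distance.
-/

open MeasureTheory ProbabilityTheory Filter
open scoped ENNReal NNReal Topology

set_option linter.unusedSectionVars false

namespace Pool.Agent.Helper97.Dyn

variable {V : Type*} {G : SimpleGraph V} {p v : ℕ → ℝ} {q γ : ℝ}

lemma distWeight_mk (f : ℕ → ℝ) (x y : V) : distWeight G f s(x, y) = f (G.dist x y) := rfl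

lemma qp_mem (hp : ∀ k, k ≠ 0 → p k ∈ Set.Icc (0 : ℝ) 1) (hq : q ∈ Set.Ioc (0 : ℝ) 1) {k : ℕ}
    (hk : k ≠ 0) : 0 ≤ q * p k ∧ q * p k ≤ 1 := by
  obtain ⟨h1, h2⟩ := hp k hk
  obtain ⟨h3, h4⟩ := hq
  refine ⟨mul_nonneg h3.le h1, ?_⟩
  calc q * p k ≤ 1 * 1 := mul_le_mul h4 h2 h1 zero_le_one
    _ = 1 := one_mul 1

/-- survival events are events -/
theorem final_null (hc : G.Connected) (hf : ∀ x, (G.neighborSet x).Finite)
    (hp : ∀ k, k ≠ 0 → p k ∈ Set.Icc (0 : ℝ) 1) (hv : ∀ k, k ≠ 0 → 0 < v k)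
    (hq : q ∈ Set.Ioc (0 : ℝ) 1) (hγ : 0 < γ) (l : ℝ≥0) (x : V) :
    NullMeasurableSet {ω | Survives (dynTimes l (distWeight G fun k => q * p k)
      (distWeight G fun k => γ * v k) ω) (healTimes ω) x} (noiseLaw V) ∧
    NullMeasurableSet {ω | Survives (statTimes l (distWeight G fun k => q * p k) ω)
      (healTimes ω) x} (noiseLaw V) := by
  have := countable_of_graph hc hf
  have hd : ∀ y z : V, y ≠ z → G.dist y z ≠ 0 := fun y z h => (hc.pos_dist_of_ne h).ne'
  set π := distWeight G fun k => q * p k with hπ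
  set ν := distWeight G fun k => γ * v k with hν
  have h0 : ∀ e, 0 ≤ diagTo 0 π e := diagTo_ind (P := fun t => 0 ≤ t) le_rfl
    fun y z h => (qp_mem hp hq (hd y z h)).1
  have h1 : ∀ e, diagTo 0 π e ≤ 1 := diagTo_ind (P := fun t => t ≤ 1) zero_le_one
    fun y z h => (qp_mem hp hq (hd y z h)).2
  have h2 : ∀ e, 0 ≤ diagTo 0 ν e := diagTo_ind (P := fun t => 0 ≤ t) le_rfl
    fun y z h => (mul_pos hγ (hv _ (hd y z h))).le
  have h3 := survival_null (lam := l) (x := x) l.2 h0 h1 h2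
  have e1 : {ω | Survives (dynTimes l π ν ω) (healTimes ω) x} =
      {ω | Survives (dynTimes l (diagTo 0 π) (diagTo 0 ν) ω) (healTimes ω) x} := by
    ext ω
    have e : ∀ y z, y ≠ z → dynTimes l π ν ω s(y, z) =
        dynTimes l (diagTo 0 π) (diagTo 0 ν) ω s(y, z) := by
      intro y z hne
      unfold dynTimes EdgeOpen
      rw [← diagTo_mk 0 π hne, ← diagTo_mk 0 ν hne]
    exact forall_congr' fun t => imp_congr_right fun _ => exists_congr fun y =>
      Reach.congr e fun _ => rfl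
  have e2 : {ω | Survives (statTimes l π ω) (healTimes ω) x} =
      {ω | Survives (statTimes l (diagTo 0 π) ω) (healTimes ω) x} := by
    ext ω
    have e : ∀ y z, y ≠ z → statTimes l π ω s(y, z) = statTimes l (diagTo 0 π) ω s(y, z) := by
      intro y z hne
      unfold statTimes
      rw [← diagTo_mk 0 π hne]
    exact forall_congr' fun t => imp_congr_right fun _ => exists_congr fun y =>
      Reach.congr e fun _ => rfl
  rw [e1, e2]
  exact h3

/-- the sum of the inverse speeds at a vertex -/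
lemma inv_le_sumAt (hc : G.Connected) (htrans : ∀ x y : V, ∃ φ : G ≃g G, φ x = y)
    (hv : ∀ k, k ≠ 0 → 0 < v k)
    (hA : ∀ x : V, Summable fun y : {y : V // y ≠ x} => (v (G.dist x y))⁻¹) (x : V) :
    0 ≤ sumAt G (fun k => (v k)⁻¹) x ∧
    ∀ (y : V) (Λ : Finset V), y ∉ Λ →
      ∑ z ∈ Λ, (v (G.dist y z))⁻¹ ≤ sumAt G (fun k => (v k)⁻¹) x := by
  have hpos : ∀ k, k ≠ 0 → 0 ≤ (v k)⁻¹ := fun k hk => (inv_pos.2 (hv k hk)).le
  refine ⟨?_, fun y Λ hy => ?_⟩
  · refine tsum_nonneg fun y => hpos _ ?_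
    exact (hc.pos_dist_of_ne y.2.symm).ne'
  · rw [(sumAt_eq hc htrans (fun k => (v k)⁻¹) x y).1]
    exact sum_le_sumAt (f := fun k => (v k)⁻¹) hpos hc (hA y) Λ hy

/-- quantitative comparison of the critical values -/
theorem final_bounds (hc : G.Connected) (htrans : ∀ x y : V, ∃ φ : G ≃g G, φ x = y)
    (hf : ∀ x, (G.neighborSet x).Finite)
    (hp : ∀ k, k ≠ 0 → p k ∈ Set.Icc (0 : ℝ) 1) (hv : ∀ k, k ≠ 0 → 0 < v k)
    (hA : ∀ x : V, Summable fun y : {y : V // y ≠ x} => (v (G.dist x y))⁻¹)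
    (hq : q ∈ Set.Ioc (0 : ℝ) 1) (x : V) (hγ : 0 < γ)
    (hγ2 : ∀ y, y ≠ x → 2 ≤ γ * v (G.dist x y)) :
    (lambdaC G p v x γ q)⁻¹ ≤
      (lambdaInf G p x q)⁻¹ + ENNReal.ofReal (sumAt G (fun k => (v k)⁻¹) x / γ) ∧
    (lambdaInf G p x q)⁻¹ ≤
      (lambdaC G p v x γ q)⁻¹ + ENNReal.ofReal (sumAt G (fun k => (v k)⁻¹) x / γ) := by
  have := countable_of_graph hc hf
  have hd : ∀ y z : V, y ≠ z → G.dist y z ≠ 0 := fun y z h => (hc.pos_dist_of_ne h).ne'
  obtain ⟨hS0, hS⟩ := inv_le_sumAt hc htrans hv hA x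
  set S := sumAt G (fun k => (v k)⁻¹) x with hSdef
  have hπ0 : ∀ y z : V, y ≠ z → 0 ≤ distWeight G (fun k => q * p k) s(y, z) :=
    fun y z h => (qp_mem hp hq (hd y z h)).1
  have hπ1 : ∀ y z : V, y ≠ z → distWeight G (fun k => q * p k) s(y, z) ≤ 1 :=
    fun y z h => (qp_mem hp hq (hd y z h)).2
  have hSγ : 0 ≤ S / γ := div_nonneg hS0 hγ.le
  constructor
  · refine crit_upper hπ0 hπ1 (fun y z h => ?_) hSγ (fun y Λ hy => ?_)
    · obtain ⟨φ, hφ⟩ := htrans y x
      have h1 : φ z ≠ x := fun h2 => h (φ.injective (hφ.trans h2.symm))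
      have h2 := hγ2 (φ z) h1
      rw [← hφ, dist_map hc φ] at h2
      exact h2
    · have h1 : ∑ z ∈ Λ, (distWeight G (fun k => γ * v k) s(y, z))⁻¹ =
          (∑ z ∈ Λ, (v (G.dist y z))⁻¹) / γ := by
        rw [Finset.sum_div]
        refine Finset.sum_congr rfl fun z _ => ?_
        rw [distWeight_mk, mul_inv, div_eq_mul_inv, mul_comm]
      rw [h1]
      exact div_le_div_of_nonneg_right (hS y Λ hy) hγ.le
  · refine crit_lower hπ0 hπ1 hSγ (fun y z h => ?_)
    rw [distWeight_mk]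
    have h1 := hS y {z} (by simpa using h)
    rw [Finset.sum_singleton] at h1
    have h2 := hv _ (hd y z h)
    have h3 : S / γ * (γ * v (G.dist y z)) = S * v (G.dist y z) := by field_simp
    rw [h3]
    calc (1 : ℝ) = (v (G.dist y z))⁻¹ * v (G.dist y z) := (inv_mul_cancel₀ h2.ne').symm
      _ ≤ S * v (G.dist y z) := mul_le_mul_of_nonneg_right h1 h2.le

/-- convergence of the critical values -/
theorem final_tendsto (hc : G.Connected) (htrans : ∀ x y : V, ∃ φ : G ≃g G, φ x = y)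
    (hf : ∀ x, (G.neighborSet x).Finite)
    (hp : ∀ k, k ≠ 0 → p k ∈ Set.Icc (0 : ℝ) 1) (hv : ∀ k, k ≠ 0 → 0 < v k)
    (hA : ∀ x : V, Summable fun y : {y : V // y ≠ x} => (v (G.dist x y))⁻¹)
    (hq : q ∈ Set.Ioc (0 : ℝ) 1) (x : V) :
    Tendsto (fun γ : ℝ => lambdaC G p v x γ q) atTop (𝓝 (lambdaInf G p x q)) := by
  obtain ⟨hS0, hS⟩ := inv_le_sumAt hc htrans hv hA x
  set S := sumAt G (fun k => (v k)⁻¹) x with hSdef
  have hlim : Tendsto (fun γ : ℝ => ENNReal.ofReal (S / γ)) atTop (𝓝 0) := by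
    have h1 : Tendsto (fun γ : ℝ => S / γ) atTop (𝓝 0) := tendsto_id.const_div_atTop S
    have h2 := ENNReal.tendsto_ofReal h1
    rwa [ENNReal.ofReal_zero] at h2
  have hev : ∀ᶠ γ : ℝ in atTop, 0 < γ ∧ ∀ y, y ≠ x → 2 ≤ γ * v (G.dist x y) := by
    filter_upwards [eventually_gt_atTop 0, eventually_ge_atTop (2 * S)] with γ h1 h2
    refine ⟨h1, fun y hy => ?_⟩
    have h3 := hS x {y} (by simpa using hy.symm)
    rw [Finset.sum_singleton] at h3
    have h4 := hv _ (hc.pos_dist_of_ne hy.symm).ne'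
    calc (2 : ℝ) = 2 * (v (G.dist x y))⁻¹ * v (G.dist x y) := by field_simp
      _ ≤ 2 * S * v (G.dist x y) := by
        refine mul_le_mul_of_nonneg_right ?_ h4.le
        linarith
      _ ≤ γ * v (G.dist x y) := mul_le_mul_of_nonneg_right h2 h4.le
  refine tendsto_of_inv hlim (Eventually.of_forall fun _ => ENNReal.ofReal_ne_top) ?_ ?_
  · filter_upwards [hev] with γ h
    exact (final_bounds hc htrans hf hp hv hA hq x h.1 h.2).1
  · filter_upwards [hev] with γ h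
    exact (final_bounds hc htrans hf hp hv hA hq x h.1 h.2).2

end Pool.Agent.Helper97.Dyn
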