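import Mathlib

/-!
Graph facts and the final statements for weights depending on the graph distance.
-/

open MeasureTheory ProbabilityTheory Filter
open scoped ENNReal NNReal Topology

set_option linter.unusedSectionVars false

namespace Pool.Agent.Helper97.Dyn

variable {V : Type*} {G : SimpleGraph V}

lemma countable_of_graph (hc : G.Connected) (hf : ∀ x, (G.neighborSet x).Finite) :
    Countable V := by
  classical
  obtain ⟨x0⟩ := hc.nonempty
  let A : ℕ → Set V := fun n => Nat.rec {x0} (fun _ s => s ∪ ⋃ y ∈ s, G.neighborSet y) n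
  have hA0 : A 0 = {x0} := rfl
  have hAs : ∀ n, A (n + 1) = A n ∪ ⋃ y ∈ A n, G.neighborSet y := fun n => rfl
  have hcount : ∀ n, (A n).Countable := by
    intro n
    induction n with
    | zero => rw [hA0]; exact Set.countable_singleton _
    | succ n ih =>
      rw [hAs]
      exact ih.union (ih.biUnion fun y _ => (hf y).countable)
  have hall : ∀ y, ∃ n, y ∈ A n := by
    intro y
    have hr := (G.reachable_iff_reflTransGen x0 y).1 (hc.preconnected x0 y)
    induction hr with
    | refl => exact ⟨0, by rw [hA0]; exact rfl⟩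
    | @tail b c _ hbc ih =>
      obtain ⟨n, hn⟩ := ih
      refine ⟨n + 1, ?_⟩
      rw [hAs]
      refine Or.inr ?_
      exact Set.mem_biUnion hn hbc
  have : (Set.univ : Set V) = ⋃ n, A n := by
    ext y
    simp only [Set.mem_univ, true_iff, Set.mem_iUnion]
    exact hall y
  rw [← Set.countable_univ_iff, this]
  exact Set.countable_iUnion hcount

lemma dist_map_le (hc : G.Connected) (φ : G ≃g G) (a b : V) : G.dist (φ a) (φ b) ≤ G.dist a b := by
  obtain ⟨p, hp⟩ := hc.exists_walk_length_eq_dist a b
  rw [← hp, ← SimpleGraph.Walk.length_map φ.toHom p]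
  exact SimpleGraph.dist_le _

lemma dist_map (hc : G.Connected) (φ : G ≃g G) (a b : V) : G.dist (φ a) (φ b) = G.dist a b := by
  refine le_antisymm (dist_map_le hc φ a b) ?_
  have := dist_map_le hc φ.symm (φ a) (φ b)
  simpa using this

/-- sum of a function of the distance to the other vertices -/
noncomputable def sumAt (G : SimpleGraph V) (f : ℕ → ℝ) (x : V) : ℝ :=
  ∑' y : {y : V // y ≠ x}, f (G.dist x y)

lemma sumAt_eq (hc : G.Connected) (htrans : ∀ x y : V, ∃ φ : G ≃g G, φ x = y) (f : ℕ → ℝ)
    (x y : V) : sumAt G f x = sumAt G f y ∧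
      ((Summable fun z : {z : V // z ≠ x} => f (G.dist x z)) →
        Summable fun z : {z : V // z ≠ y} => f (G.dist y z)) := by
  obtain ⟨φ, rfl⟩ := htrans x y
  let e : {z : V // z ≠ x} ≃ {z : V // z ≠ φ x} :=
    φ.toEquiv.subtypeEquiv fun z => by
      constructor
      · intro h h2; exact h (φ.injective h2)
      · intro h h2; exact h (congrArg φ h2)
  have he : ∀ z : {z : V // z ≠ x}, f (G.dist (φ x) (e z)) = f (G.dist x z) := by
    intro z
    have : ((e z : {z : V // z ≠ φ x}) : V) = φ z := rfl
    rw [this, dist_map hc]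
  constructor
  · unfold sumAt
    rw [← e.tsum_eq]
    exact (tsum_congr he).symm
  · intro hs
    rw [← e.summable_iff]
    exact (summable_congr he).2 hs

lemma sum_le_sumAt {f : ℕ → ℝ} (hf : ∀ k, k ≠ 0 → 0 ≤ f k) (hc : G.Connected) {y : V}
    (hs : Summable fun z : {z : V // z ≠ y} => f (G.dist y z)) (Λ : Finset V) (hy : y ∉ Λ) :
    ∑ z ∈ Λ, f (G.dist y z) ≤ sumAt G f y := by
  classical
  have h1 : ∑ z ∈ Λ, f (G.dist y z) = ∑ z ∈ Λ.subtype (fun z => z ≠ y), f (G.dist y z) := by
    rw [Finset.sum_subtype_of_mem (fun z => f (G.dist y z))]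
    intro z hz h
    exact hy (h ▸ hz)
  rw [h1]
  refine hs.sum_le_tsum _ fun z _ => hf _ ?_
  exact (hc.pos_dist_of_ne z.2.symm).ne'

end Pool.Agent.Helper97.Dyn
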